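import Pool.Agent.Helper2.AN.Tab

/-!
# Block AN-E1: no exchange of a single two-cycle in a good triple
-/

namespace Pool.Agent.Helper2.AN

open Equiv

variable {α : Type*} [Fintype α] [DecidableEq α]

section

variable {m : ℕ} {a b d : Perm α} {x z : α}

theorem tab_all (ha : IsInv m a) (hb : IsInv m b) (hab : orderOf (a * b) = 2) (hx : a x ≠ x)
    (hz : a z = z) :
    (b x = a x ∧ b z = z ∧ oo a b x z = 6) ∨ (b x = a x ∧ b z ≠ z ∧ oo a b x z = 4) ∨
    (b x = x ∧ b z = z ∧ oo a b x z = 2) ∨ (b x = x ∧ b z ≠ z ∧ (oo a b x z = 3 ∨ oo a b x z = 6)) ∨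
    (b x ≠ x ∧ b x ≠ a x ∧ b z = z ∧ (oo a b x z = 5 ∨ oo a b x z = 10)) ∨
    (b x ≠ x ∧ b x ≠ a x ∧ b z ≠ z ∧ oo a b x z = 6) := by
  by_cases h2 : b z = z
  · by_cases h1 : b x = a x
    · exact Or.inl ⟨h1, h2, tab_DF ha hb hab hx hz h1 h2⟩
    by_cases h0 : b x = x
    · exact Or.inr (Or.inr (Or.inl ⟨h0, h2, tab_AF ha hb hab hx hz h0 h2⟩))
    · exact Or.inr (Or.inr (Or.inr (Or.inr (Or.inl ⟨h0, h1, h2,
        tab_MF ha hb hab hx hz h0 h1 h2⟩))))
  · by_cases h1 : b x = a x
    · exact Or.inr (Or.inl ⟨h1, h2, tab_DB ha hb hab hx hz h1 h2⟩)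
    by_cases h0 : b x = x
    · exact Or.inr (Or.inr (Or.inr (Or.inl ⟨h0, h2, tab_AB ha hb hab hx hz h0 h2⟩)))
    · exact Or.inr (Or.inr (Or.inr (Or.inr (Or.inr ⟨h0, h1, h2,
        tab_MB ha hb hab hx hz h0 h1 h2⟩))))

theorem Good.oo (hg : Good m a b d) (hx : a x ≠ x) (hz : a z = z) :
    TwoEq 3 (oo a b x z) (oo a d x z) := by
  obtain ⟨ha, hb, hd, hab, had, _, hg⟩ := hg
  have h := hg (swap x z * a * swap x z) (ha.move x z)
  have e : orderOf (a * (swap x z * a * swap x z)) = 3 := oo_self ha hx hz
  have h' := h (Or.inr (Or.inl e))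
  rw [e] at h'
  exact h'

/-- Involutions with the same number of two-cycles which agree on the support of the first are
equal. -/
theorem IsInv.eq_of_agree (hb : IsInv m b) (hd : IsInv m d) (h : ∀ t, b t ≠ t → d t = b t) :
    d = b := by
  have h1 : b.support ⊆ d.support := by
    intro t ht
    rw [Perm.mem_support] at ht ⊢
    rw [h t ht]
    exact ht
  have h2 : b.support = d.support := Finset.eq_of_subset_of_card_le h1 (by rw [hb.2, hd.2])
  ext1 t
  by_cases ht : b t = t
  · have h3 : t ∉ d.support := by
      rw [← h2, Perm.mem_support]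
      exact fun h => h ht
    rw [Perm.notMem_support] at h3
    rw [h3, ht]
  · exact h t ht

theorem exists_other (ha : IsInv m a) {s : Finset α} (hs : s.card < 2 * m) :
    ∃ t, a t ≠ t ∧ t ∉ s := by
  by_contra hc
  push Not at hc
  have : a.support ⊆ s := fun t ht => hc t (Perm.mem_support.1 ht)
  have := Finset.card_le_card this
  rw [ha.2] at this
  omega

theorem exists_fixed (ha : IsInv m a) {s : Finset α} (hs : s.card + 2 * m < Fintype.card α) :
    ∃ t, a t = t ∧ t ∉ s := by
  by_contra hc
  push Not at hc
  have h1 : (Finset.univ : Finset α) ⊆ s ∪ a.support := by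
    intro t _
    rw [Finset.mem_union, Perm.mem_support]
    by_cases h : a t = t
    · exact Or.inl (hc t h)
    · exact Or.inr h
  have h2 := (Finset.card_le_card h1).trans (Finset.card_union_le _ _)
  rw [ha.2, Finset.card_univ] at h2
  omega

/-- If `b = a` off `x`, `a x`, `z`, `b z`, and `d` commutes with both, then `d z ≠ z` implies
`d z = b z`. -/
private theorem dz_eq (ha : IsInv m a) (hb : IsInv m b) (hd : IsInv m d)
    (hab : orderOf (a * b) = 2)
    (had : orderOf (a * d) = 2) (hbd : orderOf (b * d) = 2) (hx : a x ≠ x) (hz : a z = z)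
    (hbz : b z ≠ z) (hbt : ∀ t, t ≠ x → t ≠ a x → t ≠ z → t ≠ b z → b t = a t) (hdz : d z ≠ z) :
    d z = b z := by
  by_contra hne
  have h1 : b (d z) = a (d z) := hbt _ (b_ne_x ha hd had hx hz)
    (b_ne_x ha hd had (ax_ne_x ha hx) hz) hdz hne
  rw [comm_apply ha hd had, hz, comm_apply hb hd hbd] at h1
  exact hbz (d.injective h1)

theorem Good.no_three (hg : Good m a b d) (hm : 2 ≤ m) (hf : 2 * m + 2 ≤ Fintype.card α)
    (hne : ¬ (m = 2 ∧ Fintype.card α = 6)) (hx : a x ≠ x) (hz : a z = z) :
    Pool.Agent.Helper2.AN.oo a b x z ≠ 3 := by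
  intro h3
  have hg' := hg
  obtain ⟨ha, hb, hd, hab, had, hbd, -⟩ := hg
  obtain ⟨hbx, hbz, hbt⟩ := tab_three ha hb hab hx hz h3
  have hbax : b (a x) = a x := by rw [← comm_apply ha hb hab, hbx]
  have habz : a (b z) = b z := by rw [comm_apply ha hb hab, hz]
  -- points of `a` off `x`, `a x`
  have hb1 : ∀ x1, a x1 ≠ x1 → x1 ≠ x → x1 ≠ a x → b x1 = a x1 := by
    intro x1 h1 h2 h4
    refine hbt x1 h2 h4 ?_ ?_
    · rintro rfl; exact h1 hz
    · rintro rfl; exact h1 habz
  -- if `d` agrees with `a` there, `d = b`
  have hagree : (∀ x1, a x1 ≠ x1 → x1 ≠ x → x1 ≠ a x → d x1 = a x1) → d z ≠ z → False := by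
    intro h1 h2
    have h4 : d z = b z := dz_eq ha hb hd hab had hbd hx hz hbz hbt h2
    have : d = b := by
      refine hb.eq_of_agree hd fun t ht => ?_
      by_cases e1 : t = x
      · rw [e1] at ht; exact absurd hbx ht
      by_cases e2 : t = a x
      · rw [e2] at ht; exact absurd hbax ht
      by_cases e3 : t = z
      · rw [e3]; exact h4
      by_cases e4 : t = b z
      · rw [e4, ← h4, hd.sq, h4, hb.sq]
      · rw [hbt t e1 e2 e3 e4] at ht ⊢
        exact h1 t ht e1 e2
    exact ((orderOf_two_iff hb hd).1 hbd).1 this.symm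
  obtain ⟨p, hp, hps⟩ := exists_other ha (s := {x, a x}) (by
    have := Finset.card_insert_le x {a x}
    rw [Finset.card_singleton] at this
    omega)
  simp only [Finset.mem_insert, Finset.mem_singleton, not_or] at hps
  obtain ⟨(hpx : p ≠ x), (hpax : p ≠ a x)⟩ := hps
  have hapx : a p ≠ x := fun h => hpax (by rw [← h, ha.sq])
  have hapax : a p ≠ a x := fun h => hpx (a.injective h)
  have hpz : p ≠ z := x_ne_z hp hz
  have hapz : a p ≠ z := ax_ne_z ha hp hz
  have hpbz : p ≠ b z := x_ne_z hp habz
  have hapbz : a p ≠ b z := ax_ne_z ha hp habz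
  have hxz : x ≠ z := x_ne_z hx hz
  have haxz : a x ≠ z := ax_ne_z ha hx hz
  have hxbz : x ≠ b z := x_ne_z hx habz
  have haxbz : a x ≠ b z := ax_ne_z ha hx habz
  by_cases hcard : 2 * m + 3 ≤ Fintype.card α
  · obtain ⟨w, hw, hws⟩ := exists_fixed ha (s := {z, b z}) (by
      have := Finset.card_insert_le z {b z}
      rw [Finset.card_singleton] at this
      omega)
    simp only [Finset.mem_insert, Finset.mem_singleton, not_or] at hws
    obtain ⟨(hwz : w ≠ z), (hwbz : w ≠ b z)⟩ := hws
    have hxw : x ≠ w := x_ne_z hx hw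
    have haxw : a x ≠ w := ax_ne_z ha hx hw
    have hbw : b w = w := by rw [hbt w hxw.symm haxw.symm hwz hwbz, hw]
    have h4 := hg'.oo hx hw
    rw [tab_AF ha hb hab hx hw hbx hbw] at h4
    have h5 : AN.oo a d x w = 2 ∨ AN.oo a d x w = 3 := by
      rcases h4 with h | h | h
      · omega
      · exact Or.inl h.symm
      · exact Or.inr h.symm
    rcases h5 with h5 | h5
    · -- `d` fixes `x` and `w`
      have h6 : d x = x := by
        rcases tab_all ha hd had hx hw with h | h | h | h | h | h
        · omega
        · omega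
        · exact h.1
        · exact h.1
        · omega
        · omega
      have key : ∀ x1, a x1 ≠ x1 → x1 ≠ x → x1 ≠ a x → d x1 = a x1 ∧ d z ≠ z := by
        intro x1 h7 h8 h9
        have h10 := hg'.oo h7 hz
        rw [tab_DB ha hb hab h7 hz (hb1 x1 h7 h8 h9) hbz] at h10
        have h11 : AN.oo a d x1 z = 4 ∨ AN.oo a d x1 z = 3 := by
          rcases h10 with h | h | h
          · omega
          · exact Or.inl h.symm
          · exact Or.inr h.symm
        rcases h11 with h11 | h11
        · rcases tab_all ha hd had h7 hz with h | h | h | h | h | h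
          · omega
          · exact ⟨h.1, h.2.1⟩
          · omega
          · omega
          · omega
          · omega
        · exfalso
          obtain ⟨_, _, h14⟩ := tab_three ha hd had h7 hz h11
          have := h14 x h8.symm (fun h => h9 (by rw [h, ha.sq])) hxz
            (b_ne_x ha hd had hx hz).symm
          rw [h6] at this
          exact hx this.symm
      exact hagree (fun x1 h7 h8 h9 => (key x1 h7 h8 h9).1) (key p hp hpx hpax).2
    · obtain ⟨h6, h7, h8⟩ := tab_three ha hd had hx hw h5
      have hdax : d (a x) = a x := by rw [← comm_apply ha hd had, h6]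
      have hadw : a (d w) = d w := by rw [comm_apply ha hd had, hw]
      have hxdw : x ≠ d w := x_ne_z hx hadw
      have haxdw : a x ≠ d w := ax_ne_z ha hx hadw
      have hdwz : d w ≠ z := by
        intro h
        apply hbz
        rw [← h, comm_apply hb hd hbd, hbw]
      have hdwbz : d w ≠ b z := by
        intro h
        apply hbz
        have : b (d w) = d w := by rw [comm_apply hb hd hbd, hbw]
        rw [h, hb.sq] at this
        exact this.symm
      have hpw : p ≠ w := x_ne_z hp hw
      have hapw : a p ≠ w := ax_ne_z ha hp hw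
      have hpdw : p ≠ d w := x_ne_z hp hadw
      have hapdw : a p ≠ d w := ax_ne_z ha hp hadw
      have hdz : d z = z := by
        rw [h8 z hxz.symm haxz.symm hwz.symm hdwz.symm, hz]
      have hdbz : d (b z) = b z := by rw [← comm_apply hb hd hbd, hdz]
      have hι : Function.Injective (![x, a x, p, a p, z, b z, w, d w] : Fin 8 → α) := by
        apply inj_of
        simp [hx.symm, hpx.symm, hpax.symm, hapx.symm, hapax.symm, hp.symm, hpz, hapz, hpbz, hapbz,
          hxz, haxz, hxbz, haxbz, hbz.symm, hwz.symm, hwbz.symm, hxw, haxw, hpw, hapw, hxdw, haxdw,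
          hpdw, hapdw, hdwz.symm, hdwbz.symm, h7.symm]
      have offb : off (![x, a x, p, a p, z, b z, w, d w] : Fin 8 → α) a b = 1 := by
        apply off_eq_one_of
        intro t ht
        simp only [Matrix.range_cons, Matrix.range_empty, Set.union_empty, Set.mem_union,
          Set.mem_singleton_iff, not_or] at ht
        obtain ⟨t1, t2, t3, t4, t5, t6, t7, t8⟩ := ht
        rw [← comm_apply ha hb hab, hbt t t1 t2 t5 t6, ha.sq]
      have offd : off (![x, a x, p, a p, z, b z, w, d w] : Fin 8 → α) a d = 1 := by
        apply off_eq_one_of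
        intro t ht
        simp only [Matrix.range_cons, Matrix.range_empty, Set.union_empty, Set.mem_union,
          Set.mem_singleton_iff, not_or] at ht
        obtain ⟨t1, t2, t3, t4, t5, t6, t7, t8⟩ := ht
        rw [← comm_apply ha hd had, h8 t t1 t2 t7 t8, ha.sq]
      have := hg'.test hι (mkI ![1, 0, 3, 2, 4, 5, 6, 7] (by decide))
        (mkI ![0, 1, 3, 2, 5, 4, 6, 7] (by decide)) (mkI ![0, 1, 3, 2, 4, 5, 7, 6] (by decide))
        (mkI ![2, 1, 0, 3, 5, 4, 6, 7] (by decide))
        ⟨![0, 2, 4, 5, 1, 3, 6, 7], ![0, 4, 1, 5, 2, 3, 6, 7], by decide, by decide⟩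
        (by
          intro i
          fin_cases i
          · rfl
          · exact ha.sq x
          · rfl
          · exact ha.sq p
          · exact hz
          · exact habz
          · exact hw
          · exact hadw)
        (by
          intro i
          fin_cases i
          · exact hbx
          · exact hbax
          · exact hb1 p hp hpx hpax
          · show b (a p) = p
            rw [← hb1 p hp hpx hpax, hb.sq]
          · rfl
          · exact hb.sq z
          · exact hbw
          · show b (d w) = d w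
            rw [comm_apply hb hd hbd, hbw])
        (by
          intro i
          fin_cases i
          · exact h6
          · exact hdax
          · exact h8 p hpx hpax hpw hpdw
          · show d (a p) = p
            rw [← h8 p hpx hpax hpw hpdw, hd.sq]
          · exact hdz
          · exact hdbz
          · rfl
          · exact hd.sq w)
        (by decide) (na := 4) (nb := 3) (nd := 6)
        ((orderOf_eq_iff (by norm_num)).2 ⟨by decide, by decide⟩)
        ((orderOf_eq_iff (by norm_num)).2 ⟨by decide, by decide⟩)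
        ((orderOf_eq_iff (by norm_num)).2 ⟨by decide, by decide⟩)
        (by rw [offb]; exact Or.inr (Or.inr (Or.inr (Or.inl rfl))))
      rw [offb, offd] at this
      rcases this with h | h | h
      · exact absurd h (by decide)
      · exact absurd h (by decide)
      · exact absurd h (by decide)
  · -- exactly two fixed points
    have hcard2 : Fintype.card α = 2 * m + 2 := by omega
    have hm3 : 3 ≤ m := by
      by_contra h
      exact hne ⟨by omega, by omega⟩
    have h4 : ∀ x1, a x1 ≠ x1 → x1 ≠ x → x1 ≠ a x →
        (d x1 = a x1 ∧ d z ≠ z) ∨ AN.oo a d x1 z = 3 := by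
      intro x1 h7 h8 h9
      have h10 := hg'.oo h7 hz
      rw [tab_DB ha hb hab h7 hz (hb1 x1 h7 h8 h9) hbz] at h10
      have h11 : AN.oo a d x1 z = 4 ∨ AN.oo a d x1 z = 3 := by
        rcases h10 with h | h | h
        · omega
        · exact Or.inl h.symm
        · exact Or.inr h.symm
      rcases h11 with h11 | h11
      · left
        rcases tab_all ha hd had h7 hz with h | h | h | h | h | h
        · omega
        · exact ⟨h.1, h.2.1⟩
        · omega
        · omega
        · omega
        · omega
      · exact Or.inr h11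
    by_cases h5 : ∃ x1, a x1 ≠ x1 ∧ x1 ≠ x ∧ x1 ≠ a x ∧ AN.oo a d x1 z = 3
    swap
    · push Not at h5
      refine hagree (fun x1 h7 h8 h9 => ?_) ?_
      · rcases h4 x1 h7 h8 h9 with h | h
        · exact h.1
        · exact absurd h (h5 x1 h7 h8 h9)
      · rcases h4 p hp hpx hpax with h | h
        · exact h.2
        · exact absurd h (h5 p hp hpx hpax)
    obtain ⟨y, hy, hyx, hyax, hoy⟩ := h5
    obtain ⟨h6, h7, h8⟩ := tab_three ha hd had hy hz hoy
    have hdz : d z = b z := dz_eq ha hb hd hab had hbd hx hz hbz hbt h7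
    obtain ⟨q, hq, hqs⟩ := exists_other ha (s := {x, a x, y, a y}) (by
      have h1 := Finset.card_insert_le x {a x, y, a y}
      have h2 := Finset.card_insert_le (a x) {y, a y}
      have h3 := Finset.card_insert_le y {a y}
      rw [Finset.card_singleton] at h3
      omega)
    simp only [Finset.mem_insert, Finset.mem_singleton, not_or] at hqs
    obtain ⟨(hqx : q ≠ x), (hqax : q ≠ a x), (hqy : q ≠ y), (hqay : q ≠ a y)⟩ := hqs
    have hayx : a y ≠ x := fun h => hyax (by rw [← h, ha.sq])
    have hayax : a y ≠ a x := fun h => hyx (a.injective h)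
    have haqx : a q ≠ x := fun h => hqax (by rw [← h, ha.sq])
    have haqax : a q ≠ a x := fun h => hqx (a.injective h)
    have haqy : a q ≠ y := fun h => hqay (by rw [← h, ha.sq])
    have haqay : a q ≠ a y := fun h => hqy (a.injective h)
    have hyz : y ≠ z := x_ne_z hy hz
    have hayz : a y ≠ z := ax_ne_z ha hy hz
    have hybz : y ≠ b z := x_ne_z hy habz
    have haybz : a y ≠ b z := ax_ne_z ha hy habz
    have hqz : q ≠ z := x_ne_z hq hz
    have haqz : a q ≠ z := ax_ne_z ha hq hz
    have hqbz : q ≠ b z := x_ne_z hq habz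
    have haqbz : a q ≠ b z := ax_ne_z ha hq habz
    have hdx : d x = a x := h8 x hyx.symm (fun h => hyax (by rw [h, ha.sq])) hxz
      (by rw [hdz]; exact hxbz)
    have hday : d (a y) = a y := by rw [← comm_apply ha hd had, h6]
    have hdq : d q = a q := h8 q hqy hqay hqz (by rw [hdz]; exact hqbz)
    have hι : Function.Injective (![x, a x, y, a y, z, b z, q, a q] : Fin 8 → α) := by
      apply inj_of
      simp [hx.symm, hyx.symm, hyax.symm, hayx.symm, hayax.symm, hy.symm, hyz, hayz, hybz, haybz,
        hxz, haxz, hxbz, haxbz, hbz.symm, hqx.symm, hqax.symm, haqx.symm, haqax.symm, hqy.symm,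
        hqay.symm, haqy.symm, haqay.symm, hqz.symm, haqz.symm, hqbz.symm, haqbz.symm, hq.symm]
    have offb : off (![x, a x, y, a y, z, b z, q, a q] : Fin 8 → α) a b = 1 := by
      apply off_eq_one_of
      intro t ht
      simp only [Matrix.range_cons, Matrix.range_empty, Set.union_empty, Set.mem_union,
        Set.mem_singleton_iff, not_or] at ht
      obtain ⟨t1, t2, t3, t4, t5, t6, t7, t8⟩ := ht
      rw [← comm_apply ha hb hab, hbt t t1 t2 t5 t6, ha.sq]
    have offd : off (![x, a x, y, a y, z, b z, q, a q] : Fin 8 → α) a d = 1 := by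
      apply off_eq_one_of
      intro t ht
      simp only [Matrix.range_cons, Matrix.range_empty, Set.union_empty, Set.mem_union,
        Set.mem_singleton_iff, not_or] at ht
      obtain ⟨t1, t2, t3, t4, t5, t6, t7, t8⟩ := ht
      rw [← comm_apply ha hd had, h8 t t3 t4 t5 (by rw [hdz]; exact t6), ha.sq]
    have := hg'.test hι (mkI ![1, 0, 3, 2, 4, 5, 7, 6] (by decide))
      (mkI ![0, 1, 3, 2, 5, 4, 7, 6] (by decide)) (mkI ![1, 0, 2, 3, 5, 4, 7, 6] (by decide))
      (mkI ![4, 6, 3, 2, 0, 5, 1, 7] (by decide))
      ⟨![0, 4, 2, 3, 5, 7, 1, 6], ![0, 6, 2, 3, 1, 4, 7, 5], by decide, by decide⟩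
      (by
        intro i
        fin_cases i
        · rfl
        · exact ha.sq x
        · rfl
        · exact ha.sq y
        · exact hz
        · exact habz
        · rfl
        · exact ha.sq q)
      (by
        intro i
        fin_cases i
        · exact hbx
        · exact hbax
        · exact hb1 y hy hyx hyax
        · show b (a y) = y
          rw [← hb1 y hy hyx hyax, hb.sq]
        · rfl
        · exact hb.sq z
        · exact hb1 q hq hqx hqax
        · show b (a q) = q
          rw [← hb1 q hq hqx hqax, hb.sq])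
      (by
        intro i
        fin_cases i
        · exact hdx
        · show d (a x) = x
          rw [← hdx, hd.sq]
        · exact h6
        · exact hday
        · exact hdz
        · show d (b z) = z
          rw [← hdz, hd.sq]
        · exact hdq
        · show d (a q) = q
          rw [← hdq, hd.sq])
      (by decide) (na := 5) (nb := 3) (nd := 6)
      ((orderOf_eq_iff (by norm_num)).2 ⟨by decide, by decide⟩)
      ((orderOf_eq_iff (by norm_num)).2 ⟨by decide, by decide⟩)
      ((orderOf_eq_iff (by norm_num)).2 ⟨by decide, by decide⟩)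
      (by rw [offb]; exact Or.inr (Or.inr (Or.inr (Or.inl rfl))))
    rw [offb, offd] at this
    rcases this with h | h | h
    · exact absurd h (by decide)
    · exact absurd h (by decide)
    · exact absurd h (by decide)

end

end Pool.Agent.Helper2.AN
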