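import Pool.Agent.Helper2.AN.Z4
import Pool.Agent.Helper2.AN.E1

/-!
# Block AN-Z5: colour automorphisms, no fixed points
-/

namespace Pool.Agent.Helper2.AN

open Equiv

variable {α : Type*} [Fintype α] [DecidableEq α]

section

variable {m : ℕ}

/-- fixed point free involutions which preserve a colouring with even classes -/
theorem exists_color (hcard : Fintype.card α = 2 * m) {κ : Type*} [DecidableEq κ] (f : α → κ)
    (hf : ∀ k, Even (Finset.univ.filter fun t => f t = k).card) :
    ∃ a : Perm α, IsInv m a ∧ ∀ t, f (a t) = f t := by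
  have h1 : ∀ k, ∃ p : Perm α, (∀ t, p (p t) = t) ∧
      p.support = Finset.univ.filter fun t => f t = k := by
    intro k
    obtain ⟨j, hj⟩ := hf k
    obtain ⟨p, hp, hps⟩ := exists_inv j (Finset.univ.filter fun t => f t = k) (by omega)
    exact ⟨p, hp.sq, hps⟩
  choose p hp hps using h1
  have hmem : ∀ k t, p k t ≠ t ↔ f t = k := by
    intro k t
    rw [← Perm.mem_support, hps]
    simp
  have hcl : ∀ t, f (p (f t) t) = f t := by
    intro t
    rw [← hmem (f t) (p (f t) t), hp]
    exact ((hmem (f t) t).2 rfl).symm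
  have hinv : Function.Involutive fun t => p (f t) t := by
    intro t
    show p (f (p (f t) t)) (p (f t) t) = t
    rw [hcl, hp]
  refine ⟨hinv.toPerm _, ⟨Equiv.ext hinv, ?_⟩, hcl⟩
  have : (hinv.toPerm _).support = Finset.univ := by
    ext t
    rw [Perm.mem_support]
    exact ⟨fun _ => Finset.mem_univ t, fun _ => (hmem (f t) t).2 rfl⟩
  rw [this, Finset.card_univ, hcard]

theorem cp_even (hcard : Fintype.card α = 2 * m) {Q R : Finset α} (hQ : Q.card = 4)
    (hR : R.card = 4) (he : Even (Q ∩ R).card) :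
    ∃ a : Perm α, IsInv m a ∧ (∀ t ∈ Q, a t ∈ Q) ∧ (∀ t ∈ R, a t ∈ R) := by
  have c1 := Finset.card_sdiff_add_card_inter Q R
  have c2 := Finset.card_sdiff_add_card_inter R Q
  rw [Finset.inter_comm R Q] at c2
  have c3 := Finset.card_union_add_card_inter Q R
  have c4 := Finset.card_compl (Q ∪ R)
  have c5 : (Q ∪ R).card ≤ Fintype.card α := Finset.card_le_univ _
  obtain ⟨j, hj⟩ := he
  obtain ⟨a, ha, hf⟩ := exists_color (m := m) hcard (fun t => (decide (t ∈ Q), decide (t ∈ R))) (by
    rintro ⟨_ | _, _ | _⟩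
    · have : (Finset.univ.filter fun t => (decide (t ∈ Q), decide (t ∈ R)) = (false, false)) =
          (Q ∪ R)ᶜ := by
        ext t
        simp
      rw [this]
      exact ⟨m + j - 4, by omega⟩
    · have : (Finset.univ.filter fun t => (decide (t ∈ Q), decide (t ∈ R)) = (false, true)) =
          R \ Q := by
        ext t
        simp [and_comm]
      rw [this]
      exact ⟨2 - j, by omega⟩
    · have : (Finset.univ.filter fun t => (decide (t ∈ Q), decide (t ∈ R)) = (true, false)) =
          Q \ R := by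
        ext t
        simp
      rw [this]
      exact ⟨2 - j, by omega⟩
    · have : (Finset.univ.filter fun t => (decide (t ∈ Q), decide (t ∈ R)) = (true, true)) =
          Q ∩ R := by
        ext t
        simp
      rw [this]
      exact ⟨j, hj⟩)
  refine ⟨a, ha, fun t ht => ?_, fun t ht => ?_⟩
  · have := congrArg Prod.fst (hf t)
    simpa [ht] using this
  · have := congrArg Prod.snd (hf t)
    simpa [ht] using this

theorem even_of_cp (hcard : Fintype.card α = 2 * m) {Q R : Finset α} (hQ : Q.card = 4)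
    {a : Perm α} (ha : IsInv m a) (h1 : ∀ t ∈ Q, a t ∈ Q) (h2 : ∀ t ∈ R, a t ∈ R) :
    Even (Q ∩ R).card := by
  have hs : ∀ S : Finset α, (∀ t ∈ S, a t ∈ S) → S.card ≠ 1 := by
    intro S hS hc
    obtain ⟨t, rfl⟩ := Finset.card_eq_one.1 hc
    have := hS t (Finset.mem_singleton_self t)
    rw [Finset.mem_singleton] at this
    exact fpf hcard ha t this
  have c1 := Finset.card_sdiff_add_card_inter Q R
  have k1 := hs (Q ∩ R) (fun t ht => by
    rw [Finset.mem_inter] at ht ⊢
    exact ⟨h1 t ht.1, h2 t ht.2⟩)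
  have k2 := hs (Q \ R) (fun t ht => by
    rw [Finset.mem_sdiff] at ht ⊢
    exact ⟨h1 t ht.1, fun h => ht.2 (by have := h2 _ h; rwa [ha.sq] at this)⟩)
  have : (Q ∩ R).card = 0 ∨ (Q ∩ R).card = 2 ∨ (Q ∩ R).card = 4 := by omega
  rcases this with h | h | h <;> rw [h] <;> decide

/-- adjacency in terms of parity and disjointness -/
theorem adjC (hn : 10 ≤ Fintype.card α) {Q R : Finset α} (hQ : Q.card = 4) (hR : R.card = 4) :
    (Q \ R).card = 1 ↔ ¬ Even (Q ∩ R).card ∧ ¬ ∃ V : Finset α, V.card = 4 ∧ Disjoint V Q ∧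
      Even (V ∩ R).card ∧ ¬ Disjoint V R := by
  have c1 := Finset.card_sdiff_add_card_inter Q R
  have c2 := Finset.card_sdiff_add_card_inter R Q
  rw [Finset.inter_comm R Q] at c2
  have c3 := Finset.card_union_add_card_inter Q R
  have c4 := Finset.card_compl (Q ∪ R)
  constructor
  · intro h
    refine ⟨?_, ?_⟩
    · have : (Q ∩ R).card = 3 := by omega
      rw [this]
      decide
    · rintro ⟨V, hV, h1, h2, h3⟩
      have h4 : V ∩ R ⊆ R \ Q := by
        intro t ht
        rw [Finset.mem_inter] at ht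
        rw [Finset.mem_sdiff]
        exact ⟨ht.2, Finset.disjoint_left.1 h1 ht.1⟩
      have h5 := Finset.card_le_card h4
      have h6 : (V ∩ R).card ≠ 0 := by
        rw [Finset.card_ne_zero, ← Finset.not_disjoint_iff_nonempty_inter]
        exact h3
      have h7 : (V ∩ R).card = 1 := by omega
      rw [h7] at h2
      exact absurd h2 (by decide)
  · rintro ⟨h1, h2⟩
    by_contra hc
    have h3 : (Q ∩ R).card = 1 := by
      have h4 : (Q ∩ R).card ≤ 4 := by omega
      have : (Q ∩ R).card ≠ 0 := fun h => h1 (by rw [h]; decide)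
      have : (Q ∩ R).card ≠ 2 := fun h => h1 (by rw [h]; decide)
      have : (Q ∩ R).card ≠ 4 := fun h => h1 (by rw [h]; decide)
      omega
    obtain ⟨W1, hW1, hW1c⟩ := Finset.exists_subset_card_eq (s := R \ Q) (n := 2) (by omega)
    obtain ⟨W2, hW2, hW2c⟩ := Finset.exists_subset_card_eq (s := (Q ∪ R)ᶜ) (n := 2) (by omega)
    have m1 : ∀ t ∈ W1, t ∈ R ∧ t ∉ Q := fun t ht => Finset.mem_sdiff.1 (hW1 ht)
    have m2 : ∀ t ∈ W2, t ∉ Q ∧ t ∉ R := by
      intro t ht
      have := hW2 ht
      rw [Finset.mem_compl, Finset.mem_union, not_or] at this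
      exact this
    apply h2
    refine ⟨W1 ∪ W2, ?_, ?_, ?_, ?_⟩
    · rw [Finset.card_union_of_disjoint, hW1c, hW2c]
      rw [Finset.disjoint_left]
      intro t h4 h5
      exact (m2 t h5).2 (m1 t h4).1
    · rw [Finset.disjoint_left]
      intro t h4 h5
      rcases Finset.mem_union.1 h4 with h | h
      · exact (m1 t h).2 h5
      · exact (m2 t h).1 h5
    · have : (W1 ∪ W2) ∩ R = W1 := by
        ext t
        rw [Finset.mem_inter, Finset.mem_union]
        constructor
        · rintro ⟨h | h, h'⟩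
          · exact h
          · exact absurd h' (m2 t h).2
        · intro h
          exact ⟨Or.inl h, (m1 t h).1⟩
      rw [this, hW1c]
      decide
    · obtain ⟨t, ht⟩ : W1.Nonempty := Finset.card_pos.1 (by omega)
      rw [Finset.not_disjoint_iff]
      exact ⟨t, Finset.mem_union_left _ ht, (m1 t ht).1⟩

/-- triangles of the first type in terms of parity and disjointness -/
theorem typC (hn : 10 ≤ Fintype.card α) {S T U : Finset α} (hS : S.card = 4) (hT : T.card = 4)
    (hU : U.card = 4) (hST : (S \ T).card = 1) (hSU : (S \ U).card = 1) (hTU : (T \ U).card = 1) :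
    S ∩ T ⊆ U ↔ ∃ V : Finset α, V.card = 4 ∧ Disjoint V S ∧ Disjoint V U ∧
      ¬ Even (V ∩ T).card := by
  constructor
  · intro h
    obtain ⟨y, hy⟩ := Finset.card_eq_one.1 (sdiff_symm hS hT hST)
    have hy1 : y ∈ T ∧ y ∉ S := by
      rw [← Finset.mem_sdiff, hy]
      exact Finset.mem_singleton_self y
    have hy2 : y ∉ U := by
      intro hyU
      have : T ⊆ U := by
        intro t ht
        by_cases htS : t ∈ S
        · exact h (Finset.mem_inter.2 ⟨htS, ht⟩)
        · have : t ∈ T \ S := Finset.mem_sdiff.2 ⟨ht, htS⟩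
          rw [hy, Finset.mem_singleton] at this
          rw [this]
          exact hyU
      rw [Finset.sdiff_eq_empty_iff_subset.2 this, Finset.card_empty] at hTU
      exact absurd hTU (by omega)
    have c1 : (S ∪ T).card = 5 := union_card hT hST
    have c2 : ((S ∪ T) ∪ U).card ≤ 6 := by
      have h1 : (S ∪ T) ∪ U = (S ∪ T) ∪ (U \ S) := by
        ext t
        simp only [Finset.mem_union, Finset.mem_sdiff]
        tauto
      rw [h1]
      have h2 := Finset.card_union_le (S ∪ T) (U \ S)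
      have h3 := sdiff_symm hS hU hSU
      omega
    have c3 := Finset.card_compl ((S ∪ T) ∪ U)
    obtain ⟨W, hW, hWc⟩ := Finset.exists_subset_card_eq (s := ((S ∪ T) ∪ U)ᶜ) (n := 3) (by omega)
    have mW : ∀ t ∈ W, t ∉ S ∧ t ∉ T ∧ t ∉ U := by
      intro t ht
      have := hW ht
      rw [Finset.mem_compl, Finset.mem_union, Finset.mem_union, not_or, not_or] at this
      exact ⟨this.1.1, this.1.2, this.2⟩
    have hyW : y ∉ W := fun h => (mW y h).2.1 hy1.1
    refine ⟨insert y W, ?_, ?_, ?_, ?_⟩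
    · rw [Finset.card_insert_of_notMem hyW, hWc]
    · rw [Finset.disjoint_left]
      intro t ht hts
      rcases Finset.mem_insert.1 ht with rfl | h'
      · exact hy1.2 hts
      · exact (mW t h').1 hts
    · rw [Finset.disjoint_left]
      intro t ht hts
      rcases Finset.mem_insert.1 ht with rfl | h'
      · exact hy2 hts
      · exact (mW t h').2.2 hts
    · have : insert y W ∩ T = {y} := by
        ext t
        rw [Finset.mem_inter, Finset.mem_insert, Finset.mem_singleton]
        constructor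
        · rintro ⟨h' | h', h''⟩
          · exact h'
          · exact absurd h'' (mW t h').2.1
        · rintro rfl
          exact ⟨Or.inl rfl, hy1.1⟩
      rw [this, Finset.card_singleton]
      decide
  · rintro ⟨V, hV, h1, h2, h3⟩
    by_contra hcon
    apply h3
    have h4 : ¬ S ∩ U ⊆ T := by
      intro h5
      apply hcon
      have h6 : S ∩ U ⊆ S ∩ T := Finset.subset_inter Finset.inter_subset_left h5
      have h7 := Finset.eq_of_subset_of_card_le h6 (by
        rw [inter_card (k := 3) hS hST, inter_card (k := 3) hS hSU])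
      rw [← h7]
      exact Finset.inter_subset_right
    have h5 : T ⊆ S ∪ U := dicho hSU hST hTU h4
    have : V ∩ T = ∅ := by
      rw [Finset.eq_empty_iff_forall_notMem]
      intro t ht
      rw [Finset.mem_inter] at ht
      rcases Finset.mem_union.1 (h5 ht.2) with h | h
      · exact Finset.disjoint_left.1 h1 ht.1 h
      · exact Finset.disjoint_left.1 h2 ht.1 h
    rw [this, Finset.card_empty]
    decide

end

section

variable {m : ℕ} {τ : Perm (Vt α m)}

theorem Col.psi_ex (h : Col τ) (hcard : Fintype.card α = 2 * m) (hm : 5 ≤ m) (a : Vt α m)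
    {Q : Finset α} (hQ : Q.card = 4) (hcl : ∀ t ∈ Q, (a : Perm α) t ∈ Q) :
    ∃ b : Vt α m, df (a : Perm α) b = Q ∧ psi τ Q = df (τ a : Perm α) (τ b) := by
  obtain ⟨b, hb, hab⟩ := exists_nbr hcard a.2 hQ hcl
  refine ⟨⟨b, hb⟩, hab, ?_⟩
  have h4 : (df (a : Perm α) ((⟨b, hb⟩ : Vt α m) : Perm α)).card = 4 := by
    show (df (a : Perm α) b).card = 4
    rw [hab, hQ]
  rw [← h.psi_eq hcard hm h4]
  show psi τ Q = psi τ (df (a : Perm α) b)
  rw [hab]

theorem exists_closed (hcard : Fintype.card α = 2 * m) {Q : Finset α} (hQ : Q.card = 4) :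
    ∃ a : Vt α m, ∀ t ∈ Q, (a : Perm α) t ∈ Q := by
  obtain ⟨a, ha, h1, -⟩ := cp_even (m := m) hcard hQ hQ (by
    rw [Finset.inter_self, hQ]
    decide)
  exact ⟨⟨a, ha⟩, h1⟩

theorem Col.psi_card (h : Col τ) (hcard : Fintype.card α = 2 * m) (hm : 5 ≤ m) {Q : Finset α}
    (hQ : Q.card = 4) : (psi τ Q).card = 4 := by
  obtain ⟨a, ha⟩ := exists_closed (m := m) hcard hQ
  obtain ⟨b, hb, h1⟩ := h.psi_ex hcard hm a hQ ha
  rw [h1]
  exact h.df4 hcard hm (by rw [hb, hQ])

theorem Col.psi_inv (h : Col τ) (hcard : Fintype.card α = 2 * m) (hm : 5 ≤ m) {Q : Finset α}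
    (hQ : Q.card = 4) : psi τ⁻¹ (psi τ Q) = Q := by
  obtain ⟨a, ha⟩ := exists_closed (m := m) hcard hQ
  obtain ⟨b, hb, h1⟩ := h.psi_ex hcard hm a hQ ha
  rw [h1, h.symm.psi_eq hcard hm (h.df4 hcard hm (by rw [hb, hQ])), ias, ias, hb]

theorem Col.psi_cl (h : Col τ) (hcard : Fintype.card α = 2 * m) (hm : 5 ≤ m) (a : Vt α m)
    {Q : Finset α} (hQ : Q.card = 4) (hcl : ∀ t ∈ Q, (a : Perm α) t ∈ Q) :
    ∀ t ∈ psi τ Q, (τ a : Perm α) t ∈ psi τ Q := by
  obtain ⟨b, hb, h1⟩ := h.psi_ex hcard hm a hQ hcl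
  rw [h1]
  exact fun t ht => (df_left (τ a).2 (τ b).2).2 ht

theorem Col.psi_even (h : Col τ) (hcard : Fintype.card α = 2 * m) (hm : 5 ≤ m) {Q R : Finset α}
    (hQ : Q.card = 4) (hR : R.card = 4) (he : Even (Q ∩ R).card) :
    Even (psi τ Q ∩ psi τ R).card := by
  obtain ⟨a, ha, h1, h2⟩ := cp_even (m := m) hcard hQ hR he
  exact even_of_cp hcard (h.psi_card hcard hm hQ) (τ ⟨a, ha⟩).2
    (h.psi_cl hcard hm ⟨a, ha⟩ hQ h1) (h.psi_cl hcard hm ⟨a, ha⟩ hR h2)

theorem Col.psi_disj (h : Col τ) (hcard : Fintype.card α = 2 * m) (hm : 5 ≤ m) {Q R : Finset α}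
    (hQ : Q.card = 4) (hR : R.card = 4) (he : Disjoint Q R) : Disjoint (psi τ Q) (psi τ R) := by
  obtain ⟨a, ha, h1, h2⟩ := cp_even (m := m) hcard hQ hR (by
    rw [Finset.disjoint_iff_inter_eq_empty.1 he, Finset.card_empty]
    decide)
  obtain ⟨b, hb, e1⟩ := h.psi_ex hcard hm ⟨a, ha⟩ hQ h1
  obtain ⟨c, hc, e2⟩ := h.psi_ex hcard hm ⟨a, ha⟩ hR h2
  have hb' : df a (b : Perm α) = Q := hb
  have hc' : df a (c : Perm α) = R := hc
  have hne : psi τ Q ≠ psi τ R := by
    intro e
    have := h.psi_inv hcard hm hQ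
    rw [e, h.psi_inv hcard hm hR] at this
    rw [this] at he
    have hQne : Q.Nonempty := Finset.card_pos.1 (by omega)
    exact hQne.ne_empty (Finset.disjoint_self_iff_empty Q |>.1 he)
  rw [e1, e2] at hne ⊢
  refine disj_of_comm hcard (τ ⟨a, ha⟩).2 (τ b).2 (τ c).2 (h.df4 hcard hm (by rw [hb, hQ]))
    (h.df4 hcard hm (by rw [hc, hR])) ?_ hne
  rw [h]
  obtain ⟨d1, _, hk1⟩ := klein_of_df hcard ha b.2 (by rw [hb', hQ])
  obtain ⟨d2, _, hk2⟩ := klein_of_df hcard ha c.2 (by rw [hc', hR])
  refine comm_of_disj ha b.2 c.2 hk1.comm hk2.comm ?_ ?_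
  · rw [hb', hc']
    exact he
  · rw [hb']
    exact Finset.card_pos.1 (by omega)

theorem Col.psi_joh (h : Col τ) (hcard : Fintype.card α = 2 * m) (hm : 5 ≤ m) :
    Joh 4 (psi τ) (psi τ⁻¹) := by
  have hn : 10 ≤ Fintype.card α := by omega
  have pc : ∀ {Q : Finset α}, Q.card = 4 → (psi τ Q).card = 4 := fun hQ => h.psi_card hcard hm hQ
  have pi : ∀ {Q : Finset α}, Q.card = 4 → psi τ⁻¹ (psi τ Q) = Q := fun hQ => h.psi_inv hcard hm hQ
  have pc' : ∀ {Q : Finset α}, Q.card = 4 → (psi τ⁻¹ Q).card = 4 :=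
    fun hQ => h.symm.psi_card hcard hm hQ
  have pi' : ∀ {Q : Finset α}, Q.card = 4 → psi τ (psi τ⁻¹ Q) = Q := by
    intro Q hQ
    have := h.symm.psi_inv hcard hm hQ
    rwa [inv_inv] at this
  have adj : ∀ S T : Finset α, S.card = 4 → T.card = 4 → (S \ T).card = 1 →
      (psi τ S \ psi τ T).card = 1 := by
    intro S T hS hT hST
    obtain ⟨h1, h2⟩ := (adjC hn hS hT).1 hST
    refine (adjC hn (pc hS) (pc hT)).2 ⟨fun h3 => h1 ?_, ?_⟩
    · have := h.symm.psi_even hcard hm (pc hS) (pc hT) h3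
      rwa [pi hS, pi hT] at this
    · rintro ⟨V, hV, h3, h4, h5⟩
      apply h2
      refine ⟨psi τ⁻¹ V, pc' hV, ?_, ?_, ?_⟩
      · have := h.symm.psi_disj hcard hm hV (pc hS) h3
        rwa [pi hS] at this
      · have := h.symm.psi_even hcard hm hV (pc hT) h4
        rwa [pi hT] at this
      · intro h6
        apply h5
        have := h.psi_disj hcard hm (pc' hV) hT h6
        rwa [pi' hV] at this
  refine ⟨fun S hS => pc hS, fun S hS => pi hS, adj, ?_⟩
  intro S T U hS hT hU hST hSU hTU hsub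
  obtain ⟨V, hV, h1, h2, h3⟩ := (typC hn hS hT hU hST hSU hTU).1 hsub
  refine (typC hn (pc hS) (pc hT) (pc hU) (adj S T hS hT hST) (adj S U hS hU hSU)
    (adj T U hT hU hTU)).2 ⟨psi τ V, pc hV, h.psi_disj hcard hm hV hS h1,
      h.psi_disj hcard hm hV hU h2, fun h4 => h3 ?_⟩
  have := h.symm.psi_even hcard hm (pc hV) (pc hT) h4
  rwa [pi hV, pi hT] at this

/-- Colour automorphisms come from permutations of the points: no fixed point. -/
theorem Col.exists_conj_zero (h : Col τ) (hcard : Fintype.card α = 2 * m) (hm : 5 ≤ m) :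
    ∃ g : Perm α, ∀ a : Vt α m, (τ a : Perm α) = g * (a : Perm α) * g⁻¹ := by
  have h1 : Joh (3 + 1) (psi τ) (psi τ⁻¹) := h.psi_joh hcard hm
  have h2 : Joh (3 + 1) (psi τ⁻¹) (psi τ) := by
    have := h.symm.psi_joh hcard hm
    rwa [inv_inv] at this
  obtain ⟨g, hg⟩ := Joh.exists_perm 3 (by omega) h1 h2
  refine ⟨g, fun a => ?_⟩
  have fa := fpf hcard a.2
  have main : ∀ t, (τ a : Perm α) (g t) = g ((a : Perm α) t) := by
    intro x
    have block : ∀ z, z ≠ x → z ≠ (a : Perm α) x → ∀ t ∈ ({x, (a : Perm α) x, z, (a : Perm α) z} :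
        Finset α).map g.toEmbedding, (τ a : Perm α) t ∈ ({x, (a : Perm α) x, z, (a : Perm α) z} :
        Finset α).map g.toEmbedding := by
      intro z z0 z1
      have e1 : x ≠ (a : Perm α) z := fun h => z1 (by rw [h, a.2.sq])
      have e2 : (a : Perm α) x ≠ (a : Perm α) z := fun h => z0 ((a : Perm α).injective h).symm
      have hc : ({x, (a : Perm α) x, z, (a : Perm α) z} : Finset α).card = 4 := by
        rw [Finset.card_insert_of_notMem (by simp [(fa x).symm, z0.symm, e1]),
          Finset.card_insert_of_notMem (by simp [z1.symm, e2]),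
          Finset.card_insert_of_notMem (by simp [(fa z).symm]), Finset.card_singleton]
      rw [← hg _ hc]
      refine h.psi_cl hcard hm a hc ?_
      intro t ht
      simp only [Finset.mem_insert, Finset.mem_singleton] at ht ⊢
      rcases ht with rfl | rfl | rfl | rfl
      · simp
      · rw [a.2.sq]; simp
      · simp
      · rw [a.2.sq]; simp
    obtain ⟨z1, -, hz1⟩ : ∃ z, (a : Perm α) z ≠ z ∧ z ∉ [x, (a : Perm α) x].toFinset :=
      exists_other a.2 (lt_of_le_of_lt (List.toFinset_card_le _)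
        (by simp only [List.length_cons, List.length_nil]; omega))
    obtain ⟨z2, -, hz2⟩ : ∃ z, (a : Perm α) z ≠ z ∧
        z ∉ [x, (a : Perm α) x, z1, (a : Perm α) z1].toFinset :=
      exists_other a.2 (lt_of_le_of_lt (List.toFinset_card_le _)
        (by simp only [List.length_cons, List.length_nil]; omega))
    simp only [List.mem_toFinset, List.mem_cons, List.not_mem_nil, or_false, not_or] at hz1 hz2
    have b1 := block z1 hz1.1 hz1.2 (g x) (Finset.mem_map.2 ⟨x, by simp, rfl⟩)
    have b2 := block z2 hz2.1 hz2.2.1 (g x) (Finset.mem_map.2 ⟨x, by simp, rfl⟩)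
    obtain ⟨s, hs, hsg⟩ := Finset.mem_map.1 b1
    obtain ⟨s', hs', hsg'⟩ := Finset.mem_map.1 b2
    have hss : s' = s := g.injective (hsg'.trans hsg.symm)
    have hsg1 : g s = (τ a : Perm α) (g x) := hsg
    rw [hss] at hs'
    simp only [Finset.mem_insert, Finset.mem_singleton] at hs hs'
    have hsx : s ≠ x := by
      rintro rfl
      exact fpf hcard (τ a).2 _ hsg1.symm
    have e3 : z2 ≠ (a : Perm α) z1 := hz2.2.2.2
    have e4 : (a : Perm α) z2 ≠ z1 := fun h => hz2.2.2.2 (by rw [← h, a.2.sq])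
    have e5 : (a : Perm α) z2 ≠ (a : Perm α) z1 := fun h => hz2.2.2.1 ((a : Perm α).injective h)
    rcases hs with rfl | rfl | rfl | rfl
    · exact absurd rfl hsx
    · exact hsg1.symm
    · exfalso
      rcases hs' with h' | h' | h' | h'
      · exact hz1.1 h'
      · exact hz1.2 h'
      · exact hz2.2.2.1 h'.symm
      · exact e4 h'.symm
    · exfalso
      rcases hs' with h' | h' | h' | h'
      · exact hsx h'
      · exact hz1.1 ((a : Perm α).injective h')
      · exact e3 h'.symm
      · exact e5 h'.symm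
  ext1 t
  rw [Perm.mul_apply, Perm.mul_apply]
  have := main (g⁻¹ t)
  rw [ais] at this
  exact this

end

end Pool.Agent.Helper2.AN
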