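import Pool.Agent.Helper2.AN.FOne
import Pool.Agent.Helper2.AN.Z5

/-!
# Block AN-ALT: conjugacy classes of involutions of the alternating groups
-/

namespace Pool.Agent.Helper2.AN

open Equiv

section

variable {α : Type*} [Fintype α] [DecidableEq α] {m : ℕ} {a b : Perm α}

theorem IsInv.cycleType (ha : IsInv m a) : a.cycleType = Multiset.replicate m 2 := by
  by_cases h1 : a = 1
  · have h2 := ha.2
    rw [h1, Perm.support_one, Finset.card_empty] at h2
    have h3 : m = 0 := by omega
    rw [h1, h3]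
    simp
  have hord : orderOf a = 2 := by
    refine orderOf_eq_prime ?_ h1
    rw [pow_two]
    exact ha.1
  obtain ⟨k, hk⟩ := Perm.cycleType_prime_order (σ := a) (by rw [hord]; exact Nat.prime_two)
  have hs := Perm.sum_cycleType a
  rw [hk, ha.2, Multiset.sum_replicate, hord, smul_eq_mul] at hs
  rw [hk, hord]
  congr 1
  omega

theorem IsInv.sign (ha : IsInv m a) : Perm.sign a = (-1) ^ m := by
  rw [Perm.sign_of_cycleType, ha.cycleType, Multiset.sum_replicate, Multiset.card_replicate,
    smul_eq_mul, pow_add, mul_comm m 2, pow_mul]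
  simp

theorem IsInv.exists_conj (ha : IsInv m a) (hb : IsInv m b) : ∃ g : Perm α, g * a * g⁻¹ = b := by
  have h1 : IsConj a b := by
    rw [Perm.isConj_iff_cycleType_eq, ha.cycleType, hb.cycleType]
  exact isConj_iff.1 h1

theorem IsInv.exists_conj_even (ha : IsInv m a) (hb : IsInv m b) (hm : 1 ≤ m) :
    ∃ g : Perm α, Perm.sign g = 1 ∧ g * a * g⁻¹ = b := by
  obtain ⟨g, hg⟩ := ha.exists_conj hb
  rcases Int.units_eq_one_or (Perm.sign g) with h | h
  · exact ⟨g, h, hg⟩
  · obtain ⟨x, hx⟩ : a.support.Nonempty := Finset.card_pos.1 (by rw [ha.2]; omega)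
    rw [Perm.mem_support] at hx
    refine ⟨g * swap x (a x), ?_, ?_⟩
    · rw [Perm.sign_mul, h, Perm.sign_swap hx.symm]
      rfl
    · have h1 : swap x (a x) * a * (swap x (a x))⁻¹ = a := by
        rw [mul_inv_eq_iff_eq_mul, mul_swap_eq_swap_mul, ha.sq, swap_comm]
      rw [← hg]
      conv_rhs => rw [← h1]
      simp only [mul_inv_rev, mul_assoc]

/-- an involution has the form `IsInv m` -/
theorem exists_isInv (h : orderOf a = 2) : ∃ m, IsInv m a := by
  have h1 : a ^ 2 = 1 := by rw [← h]; exact pow_orderOf_eq_one a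
  obtain ⟨k, hk⟩ := Perm.two_dvd_card_support h1
  exact ⟨k, by rw [← sq]; exact h1, hk⟩

/-- the class as a set of involutions with `m` two-cycles -/
noncomputable def clsEquiv {a₀ : alternatingGroup α} (h₀ : IsInv m (a₀ : Perm α)) (hm : 1 ≤ m) :
    {a : alternatingGroup α // IsConj a₀ a} ≃ Vt α m where
  toFun a := ⟨(a : alternatingGroup α), by
    obtain ⟨c, hc⟩ := isConj_iff.1 a.2
    rw [← hc]
    exact h₀.conj _⟩
  invFun a := ⟨⟨a, by
    rw [Perm.mem_alternatingGroup, a.2.sign, ← h₀.sign]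
    exact Perm.mem_alternatingGroup.1 a₀.2⟩, by
    obtain ⟨g, hg, hga⟩ := h₀.exists_conj_even a.2 hm
    rw [isConj_iff]
    exact ⟨⟨g, Perm.mem_alternatingGroup.2 hg⟩, Subtype.ext hga⟩⟩
  left_inv a := rfl
  right_inv a := rfl

theorem alt_core {a₀ : alternatingGroup α} (h₀ : IsInv m (a₀ : Perm α)) (hm : 1 ≤ m)
    (H : ∀ τ : Perm (Vt α m), Col τ → ∃ g : Perm α, ∀ a : Vt α m, (τ a : Perm α) = g * a * g⁻¹)
    (τ : Perm {a : alternatingGroup α // IsConj a₀ a})
    (hτ : ∀ a b, orderOf ((τ a : alternatingGroup α) * (τ b : alternatingGroup α)) =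
      orderOf ((a : alternatingGroup α) * (b : alternatingGroup α))) :
    ∃ φ : MulAut (alternatingGroup α), ∀ a, (τ a : alternatingGroup α) = φ a := by
  let e := clsEquiv h₀ hm
  let τ' : Perm (Vt α m) := (e.symm.trans τ).trans e
  have hord : ∀ u v : alternatingGroup α, orderOf ((u : Perm α) * (v : Perm α)) = orderOf (u * v) := by
    intro u v
    rw [← Subgroup.orderOf_coe]
    rfl
  have hcol : Col τ' := by
    intro a b
    have h1 := hτ (e.symm a) (e.symm b)
    rw [← hord, ← hord] at h1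
    exact h1
  obtain ⟨g, hg⟩ := H τ' hcol
  refine ⟨MulAut.conjNormal g, fun a => ?_⟩
  apply Subtype.ext
  rw [MulAut.conjNormal_apply]
  exact hg (e a)

/-- All classes except degree six and the fixed point free class of degree eight. -/
theorem col_general {τ : Perm (Vt α m)} (h : Col τ) (hm : 2 ≤ m) (hle : 2 * m ≤ Fintype.card α)
    (h6 : ¬ (m = 2 ∧ Fintype.card α = 6)) (h8 : 2 * m = Fintype.card α → 5 ≤ m) :
    ∃ g : Perm α, ∀ a : Vt α m, (τ a : Perm α) = g * (a : Perm α) * g⁻¹ := by
  rcases Nat.lt_or_ge (2 * m) (Fintype.card α) with h1 | h1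
  · rcases Nat.lt_or_ge (2 * m + 1) (Fintype.card α) with h2 | h2
    · exact h.exists_conj_two hm h2 h6
    · exact h.exists_conj_one (by omega)
  · exact h.exists_conj_zero (by omega) (h8 (by omega))

end

end Pool.Agent.Helper2.AN
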