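import Pool.Agent.Helper2.AN.Defs

/-!
# Block AN-CONN: involutions with the same support are connected by Klein moves
-/

namespace Pool.Agent.Helper2.AN

open Equiv

variable {α : Type*} [Fintype α] [DecidableEq α]

section

variable {m : ℕ} {a b : Perm α}

/-- One Klein move. -/
def Step (m : ℕ) (u v : Perm α) : Prop :=
  IsInv m u ∧ IsInv m v ∧ ∃ d, IsInv m d ∧ Klein u v d

theorem IsInv.swapc (ha : IsInv m a) (x z : α) : IsInv m (swap x z * a * swap x z) := by
  have := ha.conj (swap x z)
  rwa [swap_inv] at this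

theorem klein_of (ha : IsInv m a) {u v : α} (hu : a u ≠ u) (hv : a v ≠ v) (huv : u ≠ v)
    (hauv : a u ≠ v) :
    Klein a (swap (a u) v * a * swap (a u) v) (swap (a u) (a v) * a * swap (a u) (a v)) := by
  have hauv' : a v ≠ u := fun h => hauv (by rw [← h, ha.sq])
  have haa : a u ≠ a v := fun h => huv (a.injective h)
  refine ⟨u, a u, v, a v, hu.symm, huv, hauv'.symm, hauv, haa, hv.symm,
    ⟨rfl, ha.sq u, rfl, ha.sq v⟩, ⟨?_, ?_, ?_, ?_⟩, ⟨?_, ?_, ?_, ?_⟩, ?_⟩
  · simp [swap_apply_of_ne_of_ne hu.symm huv]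
  · simp [swap_apply_right, ha.sq, swap_apply_of_ne_of_ne hu.symm huv]
  · simp [swap_apply_of_ne_of_ne haa.symm hv]
  · simp [swap_apply_of_ne_of_ne haa.symm hv, ha.sq]
  · simp [swap_apply_of_ne_of_ne hu.symm hauv'.symm]
  · simp [ha.sq, swap_apply_of_ne_of_ne hu.symm hauv'.symm]
  · simp [ha.sq, swap_apply_of_ne_of_ne hauv.symm hv.symm]
  · simp [swap_apply_of_ne_of_ne hauv.symm hv.symm]
  · intro t t1 t2 t3 t4
    have s1 : a t ≠ a u := fun h => t1 (a.injective h)
    have s2 : a t ≠ v := fun h => t4 (by rw [← h, ha.sq])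
    have s3 : a t ≠ a v := fun h => t3 (a.injective h)
    simp [swap_apply_of_ne_of_ne t2 t3, swap_apply_of_ne_of_ne s1 s2,
      swap_apply_of_ne_of_ne t2 t4, swap_apply_of_ne_of_ne s1 s3]

omit [Fintype α] [DecidableEq α] in
theorem Klein.moved {a b d : Perm α} (h : Klein a b d) (t : α) : a t = t ↔ b t = t := by
  obtain ⟨x, y, z, w, h1, h2, h3, h4, h5, h6, ⟨a1, a2, a3, a4⟩, ⟨b1, b2, b3, b4⟩,
    ⟨d1, d2, d3, d4⟩, h⟩ := h
  by_cases e1 : t = x
  · rw [e1, a1, b1]; exact ⟨fun h => absurd h h1.symm, fun h => absurd h h2.symm⟩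
  by_cases e2 : t = y
  · rw [e2, a2, b3]; exact ⟨fun h => absurd h h1, fun h => absurd h h5.symm⟩
  by_cases e3 : t = z
  · rw [e3, a3, b2]; exact ⟨fun h => absurd h h6.symm, fun h => absurd h h2⟩
  by_cases e4 : t = w
  · rw [e4, a4, b4]; exact ⟨fun h => absurd h h6, fun h => absurd h h5⟩
  rw [(h t e1 e2 e3 e4).1]

theorem Klein.supp {a b d : Perm α} (h : Klein a b d) : a.support = b.support := by
  ext t
  rw [Perm.mem_support, Perm.mem_support, not_iff_not]
  exact h.moved t

theorem conn (ha : IsInv m a) (hb : IsInv m b) (hS : a.support = b.support) :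
    Relation.ReflTransGen (Step m) a b := by
  induction hn : (Finset.univ.filter fun t => a t ≠ b t).card using Nat.strong_induction_on
    generalizing a with
  | _ n ih =>
    by_cases h0 : a = b
    · rw [h0]
    obtain ⟨u, hu⟩ : ∃ u, a u ≠ b u := by
      by_contra hc
      push Not at hc
      exact h0 (Equiv.ext hc)
    have hfix : ∀ t, a t = t ↔ b t = t := by
      intro t
      rw [← not_iff_not, ← Ne, ← Ne, ← Perm.mem_support, ← Perm.mem_support, hS]
    have hau : a u ≠ u := by
      intro h
      apply hu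
      rw [h, (hfix u).1 h]
    have hbu : b u ≠ u := fun h => hau ((hfix u).2 h)
    have hbbu : b (b u) ≠ b u := by rw [hb.sq]; exact hbu.symm
    have hav : a (b u) ≠ b u := fun h => hbbu ((hfix _).1 h)
    have hK := klein_of ha hau hav hbu.symm hu
    have hs := hK.supp
    set a1 := swap (a u) (b u) * a * swap (a u) (b u) with ha1
    have hI1 : IsInv m a1 := ha.swapc _ _
    refine Relation.ReflTransGen.head ⟨ha, hI1, _, ha.swapc (a u) (a (b u)), hK⟩ ?_
    refine ih _ ?_ hI1 (hs.symm.trans hS) rfl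
    rw [← hn]
    apply Finset.card_lt_card
    have h1 : a1 u = b u := by
      rw [ha1]
      simp [swap_apply_of_ne_of_ne hau.symm hbu.symm]
    have hauv' : a (b u) ≠ u := by
      intro h
      apply hu
      have := ha.sq (b u)
      rwa [h] at this
    have haa : a u ≠ a (b u) := fun h => hbu (a.injective h).symm
    refine ⟨fun t ht => ?_, fun hsub => ?_⟩
    · rw [Finset.mem_filter] at ht ⊢
      refine ⟨Finset.mem_univ _, ?_⟩
      by_cases e1 : t = u
      · rw [e1]; exact hu
      by_cases e2 : t = a u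
      · rw [e2, ha.sq]
        intro h
        apply hu
        have := hb.sq (a u)
        rw [← h] at this
        exact this.symm
      by_cases e3 : t = b u
      · rw [e3, hb.sq]
        exact hauv'
      by_cases e4 : t = a (b u)
      · rw [e4, ha.sq]
        intro h
        have := hb.sq (a (b u))
        rw [← h, hb.sq] at this
        exact hauv' this.symm
      have e5 : a1 t = a t := by
        have s1 : a t ≠ a u := fun h => e1 (a.injective h)
        have s2 : a t ≠ b u := fun h => e4 (by rw [← h, ha.sq])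
        rw [ha1]
        simp [swap_apply_of_ne_of_ne e2 e3, swap_apply_of_ne_of_ne s1 s2]
      rw [← e5]
      exact ht.2
    · have := hsub (Finset.mem_filter.2 ⟨Finset.mem_univ u, hu⟩)
      rw [Finset.mem_filter] at this
      exact this.2 h1

end

end Pool.Agent.Helper2.AN
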