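import Pool.Agent.Helper2.AN.Tab

/-!
# Block AN-CRIT: supports and edges in terms of the orders
-/

namespace Pool.Agent.Helper2.AN

open Equiv

variable {α : Type*} [Fintype α] [DecidableEq α]

section

variable {m : ℕ} {a b c : Perm α}

omit [DecidableEq α] in
theorem pow_three {e : Perm α} (h : orderOf e = 3) (t : α) : e (e (e t)) = t := by
  have h1 : e ^ 3 = 1 := by rw [← h]; exact pow_orderOf_eq_one _
  have := congrArg (fun f : Perm α => f t) h1
  simpa [pow_succ] using this

theorem braid' (ha : IsInv m a) (hc : IsInv m c) (h : orderOf (a * c) = 3) (t : α) :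
    a (c (a t)) = c (a (c t)) := by
  have h0 := pow_three h (c t)
  simp only [Perm.mul_apply, hc.sq] at h0
  have h6 := congrArg (fun u => c (a u)) h0
  simp only [hc.sq, ha.sq] at h6
  exact h6

/-- The third involution. -/
theorem third_eq (ha : IsInv m a) (hc : IsInv m c) (h : orderOf (a * c) = 3) {x z : α}
    (hx : a x = x) (hcx : c x ≠ x) (h1 : ∀ t, c t ≠ t → t ≠ x → a t ≠ t)
    (h2 : ∀ t, a t ≠ t → t ≠ z → c t ≠ t) : c x = a z := by
  have hb := braid' ha hc h x
  rw [hx] at hb
  have h3 : a (c x) ≠ c x := h1 (c x) (by rw [hc.sq]; exact hcx.symm) hcx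
  have h4 : a (c x) = z := by
    by_contra hne
    exact h2 (a (c x)) (by rw [ha.sq]; exact h3.symm) hne hb.symm
  rw [← h4, ha.sq]

theorem exists_inv (m : ℕ) : ∀ S : Finset α, S.card = 2 * m → ∃ a : Perm α, IsInv m a ∧
    a.support = S := by
  induction m with
  | zero =>
    intro S hS
    refine ⟨1, ⟨by simp, by simp⟩, ?_⟩
    rw [Perm.support_one]
    exact (Finset.card_eq_zero.1 (by omega)).symm
  | succ m ih =>
    intro S hS
    obtain ⟨y, hy⟩ : S.Nonempty := Finset.card_pos.1 (by omega)
    obtain ⟨y', hy'⟩ : (S.erase y).Nonempty := Finset.card_pos.1 (by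
      rw [Finset.card_erase_of_mem hy]; omega)
    have hne : y' ≠ y := Finset.ne_of_mem_erase hy'
    obtain ⟨a, ha, haS⟩ := ih ((S.erase y).erase y') (by
      rw [Finset.card_erase_of_mem hy', Finset.card_erase_of_mem hy]; omega)
    have hd : Perm.Disjoint a (swap y y') := by
      rw [Perm.disjoint_iff_disjoint_support, haS, Perm.support_swap hne.symm,
        Finset.disjoint_left]
      intro t ht
      simp only [Finset.mem_erase] at ht
      simp only [Finset.mem_insert, Finset.mem_singleton, not_or]
      exact ⟨ht.2.1, ht.1⟩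
    have hsupp : (a * swap y y').support = S := by
      rw [hd.support_mul, haS, Perm.support_swap hne.symm]
      ext t
      simp only [Finset.mem_union, Finset.mem_erase, Finset.mem_insert, Finset.mem_singleton]
      constructor
      · rintro (h | rfl | rfl)
        · exact h.2.2
        · exact hy
        · exact Finset.mem_of_mem_erase hy'
      · intro h
        by_cases e1 : t = y
        · exact Or.inr (Or.inl e1)
        by_cases e2 : t = y'
        · exact Or.inr (Or.inr e2)
        · exact Or.inl ⟨e2, e1, h⟩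
    refine ⟨a * swap y y', ⟨?_, by rw [hsupp, hS]⟩, hsupp⟩
    calc a * swap y y' * (a * swap y y') = a * (swap y y' * a) * swap y y' := by
          simp only [mul_assoc]
      _ = a * (a * swap y y') * swap y y' := by rw [hd.commute.eq]
      _ = (a * a) * (swap y y' * swap y y') := by simp only [mul_assoc]
      _ = 1 := by rw [ha.1, swap_mul_self, mul_one]

theorem exists_inv_pair {S : Finset α} (hS : S.card = 2 * m) {y y' : α} (hy : y ∈ S) (hy' : y' ∈ S)
    (hne : y ≠ y') : ∃ a : Perm α, IsInv m a ∧ a.support = S ∧ a y = y' := by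
  obtain ⟨a, ha, haS⟩ := exists_inv m S hS
  by_cases h : a y = y'
  · exact ⟨a, ha, haS, h⟩
  have hay : a y ≠ y := by rw [← Perm.mem_support, haS]; exact hy
  refine ⟨swap (a y) y' * a * swap (a y) y', ?_, ?_, ?_⟩
  · have := ha.conj (swap (a y) y')
    rwa [swap_inv] at this
  · have h1 : (swap (a y) y' * a * swap (a y) y').support = (a.support).map
        (swap (a y) y').toEmbedding := by
      have := Perm.support_conj (σ := swap (a y) y') (τ := a)
      rwa [swap_inv] at this
    rw [h1, haS]
    ext t
    simp only [Finset.mem_map, Equiv.coe_toEmbedding]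
    have hmem : ∀ u ∈ S, swap (a y) y' u ∈ S := by
      intro u hu
      by_cases e1 : u = a y
      · rw [e1, swap_apply_left]; exact hy'
      by_cases e2 : u = y'
      · rw [e2, swap_apply_right, ← haS, Perm.mem_support, ha.sq]; exact hay.symm
      · rw [swap_apply_of_ne_of_ne e1 e2]; exact hu
    constructor
    · rintro ⟨u, hu, rfl⟩
      exact hmem u hu
    · intro ht
      exact ⟨swap (a y) y' t, hmem t ht, swap_apply_self _ _ _⟩
  · simp [swap_apply_of_ne_of_ne hay.symm hne]

/-- The support of the elementary move. -/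
theorem support_move (ha : IsInv m a) {y x : α} (hy : a y ≠ y) (hx : a x = x) (t : α) :
    (swap y x * a * swap y x) t ≠ t ↔ (a t ≠ t ∧ t ≠ y) ∨ t = x := by
  by_cases e1 : t = y
  · rw [e1, move_x hx]
    simp [x_ne_z hy hx]
  by_cases e2 : t = a y
  · rw [e2, move_ax ha hy hx]
    have h1 : a y ≠ x := ax_ne_z ha hy hx
    simp [h1, h1.symm, ha.sq, hy, hy.symm]
  by_cases e3 : t = x
  · rw [e3, move_z hy ha hx]
    simp [ax_ne_z ha hy hx]
  · rw [move_other ha hx e1 e2 e3]
    simp [e1, e3]

theorem order_move (ha : IsInv m a) {y x : α} (hy : a y ≠ y) (hx : a x = x) :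
    orderOf (a * (swap y x * a * swap y x)) = 3 := oo_self ha hy hx

/-- Adjacent supports. -/
theorem adj_iff {S T : Finset α} (hS : S.card = 2 * m) (hT : T.card = 2 * m) (hST : S ≠ T) :
    (∀ a : Perm α, IsInv m a → a.support = S → ∃ b : Perm α, IsInv m b ∧ b.support = T ∧
      orderOf (a * b) = 3) ↔ (S \ T).card = 1 := by
  have hcard : (S \ T).card = (T \ S).card := by
    have h1 := Finset.card_sdiff_add_card_inter S T
    have h2 := Finset.card_sdiff_add_card_inter T S
    rw [Finset.inter_comm] at h2
    omega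
  constructor
  · intro h
    have hpos : 0 < (S \ T).card := by
      rw [Finset.card_pos]
      by_contra hc
      rw [Finset.not_nonempty_iff_eq_empty, Finset.sdiff_eq_empty_iff_subset] at hc
      exact hST (Finset.eq_of_subset_of_card_le hc (by omega))
    by_contra hc
    obtain ⟨y, hy, y', hy', hne⟩ := Finset.one_lt_card.1 (show 1 < (S \ T).card by omega)
    rw [Finset.mem_sdiff] at hy hy'
    obtain ⟨a, ha, haS, hay⟩ := exists_inv_pair hS hy.1 hy'.1 hne
    obtain ⟨b, hb, hbT, h3⟩ := h a ha haS
    have hby : b y = y := by rw [← Perm.notMem_support, hbT]; exact hy.2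
    have hby' : b y' = y' := by rw [← Perm.notMem_support, hbT]; exact hy'.2
    have := pow_three h3 y
    simp only [Perm.mul_apply, hby, hay, hby'] at this
    rw [show a y' = y by rw [← hay, ha.sq], hby, hay] at this
    exact hne this.symm
  · intro h a ha haS
    obtain ⟨y, hy⟩ := Finset.card_eq_one.1 h
    obtain ⟨x, hx⟩ := Finset.card_eq_one.1 (hcard.symm.trans h)
    have hy1 : y ∈ S \ T := by rw [hy]; exact Finset.mem_singleton_self y
    have hx1 : x ∈ T \ S := by rw [hx]; exact Finset.mem_singleton_self x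
    rw [Finset.mem_sdiff] at hx1 hy1
    have hay : a y ≠ y := by rw [← Perm.mem_support, haS]; exact hy1.1
    have hax : a x = x := by rw [← Perm.notMem_support, haS]; exact hx1.2
    refine ⟨swap y x * a * swap y x, ha.move y x, ?_, order_move ha hay hax⟩
    ext t
    rw [Perm.mem_support, support_move ha hay hax, ← Perm.mem_support, haS]
    constructor
    · rintro (⟨h1, h2⟩ | rfl)
      · by_contra h3
        have : t ∈ S \ T := Finset.mem_sdiff.2 ⟨h1, h3⟩
        rw [hy, Finset.mem_singleton] at this
        exact h2 this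
      · exact hx1.1
    · intro h1
      by_cases h2 : t ∈ S
      · refine Or.inl ⟨h2, ?_⟩
        rintro rfl
        exact hy1.2 h1
      · have : t ∈ T \ S := Finset.mem_sdiff.2 ⟨h1, h2⟩
        rw [hx, Finset.mem_singleton] at this
        exact Or.inr this

/-- Triples of supports with a common intersection. -/
theorem type_iff (hm : 2 ≤ m) {S T U : Finset α} (hS : S.card = 2 * m) (hT : T.card = 2 * m)
    (hU : U.card = 2 * m) (hST : (S \ T).card = 1) (hSU : (S \ U).card = 1)
    (hTU : (T \ U).card = 1) :
    (∀ a b : Perm α, IsInv m a → a.support = S → IsInv m b → b.support = T →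
      orderOf (a * b) = 3 → ∃ c : Perm α, IsInv m c ∧ c.support = U ∧ orderOf (a * c) = 3 ∧
        orderOf (b * c) = 3) ↔ S ∩ T ⊆ U := by
  have hcards : ∀ A B : Finset α, A.card = 2 * m → B.card = 2 * m → (A \ B).card = 1 →
      (B \ A).card = 1 := by
    intro A B hA hB h
    have h1 := Finset.card_sdiff_add_card_inter A B
    have h2 := Finset.card_sdiff_add_card_inter B A
    rw [Finset.inter_comm] at h2
    omega
  obtain ⟨y, hy⟩ := Finset.card_eq_one.1 hST
  obtain ⟨x, hx⟩ := Finset.card_eq_one.1 (hcards S T hS hT hST)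
  have hy1 : y ∈ S \ T := by rw [hy]; exact Finset.mem_singleton_self y
  have hx1 : x ∈ T \ S := by rw [hx]; exact Finset.mem_singleton_self x
  rw [Finset.mem_sdiff] at hx1 hy1
  have hxy : x ≠ y := by rintro rfl; exact hx1.2 hy1.1
  constructor
  · intro h
    by_contra hc
    rw [Finset.not_subset] at hc
    obtain ⟨z, hz, hzU⟩ := hc
    rw [Finset.mem_inter] at hz
    have hzx : z ≠ x := by rintro rfl; exact hx1.2 hz.1
    have hzy : z ≠ y := by rintro rfl; exact hy1.2 hz.2
    have hSz : ∀ t ∈ S, t ≠ z → t ∈ U := by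
      intro t ht htz
      by_contra h1
      obtain ⟨v, hv⟩ := Finset.card_eq_one.1 hSU
      have h2 : t ∈ S \ U := Finset.mem_sdiff.2 ⟨ht, h1⟩
      have h3 : z ∈ S \ U := Finset.mem_sdiff.2 ⟨hz.1, hzU⟩
      rw [hv, Finset.mem_singleton] at h2 h3
      exact htz (h2.trans h3.symm)
    have hTz : ∀ t ∈ T, t ≠ z → t ∈ U := by
      intro t ht htz
      by_contra h1
      obtain ⟨v, hv⟩ := Finset.card_eq_one.1 hTU
      have h2 : t ∈ T \ U := Finset.mem_sdiff.2 ⟨ht, h1⟩
      have h3 : z ∈ T \ U := Finset.mem_sdiff.2 ⟨hz.2, hzU⟩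
      rw [hv, Finset.mem_singleton] at h2 h3
      exact htz (h2.trans h3.symm)
    have hyU : y ∈ U := hSz y hy1.1 hzy.symm
    have hxU : x ∈ U := hTz x hx1.1 hzx.symm
    have hUS : ∀ t ∈ U, t ≠ x → t ∈ S := by
      intro t ht htx
      by_contra h1
      obtain ⟨v, hv⟩ := Finset.card_eq_one.1 (hcards S U hS hU hSU)
      have h2 : t ∈ U \ S := Finset.mem_sdiff.2 ⟨ht, h1⟩
      have h3 : x ∈ U \ S := Finset.mem_sdiff.2 ⟨hxU, hx1.2⟩
      rw [hv, Finset.mem_singleton] at h2 h3
      exact htx (h2.trans h3.symm)
    have hUT : ∀ t ∈ U, t ≠ y → t ∈ T := by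
      intro t ht hty
      by_contra h1
      obtain ⟨v, hv⟩ := Finset.card_eq_one.1 (hcards T U hT hU hTU)
      have h2 : t ∈ U \ T := Finset.mem_sdiff.2 ⟨ht, h1⟩
      have h3 : y ∈ U \ T := Finset.mem_sdiff.2 ⟨hyU, hy1.2⟩
      rw [hv, Finset.mem_singleton] at h2 h3
      exact hty (h2.trans h3.symm)
    -- choose `a` with `a y ≠ z`
    obtain ⟨w, hw⟩ : ((S.erase y).erase z).Nonempty := by
      rw [← Finset.card_pos, Finset.card_erase_of_mem (Finset.mem_erase.2 ⟨hzy, hz.1⟩),
        Finset.card_erase_of_mem hy1.1]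
      omega
    simp only [Finset.mem_erase] at hw
    obtain ⟨a, ha, haS, hay⟩ := exists_inv_pair hS hy1.1 hw.2.2 hw.2.1.symm
    have hay' : a y ≠ y := by rw [hay]; exact hw.2.1
    have hax : a x = x := by rw [← Perm.notMem_support, haS]; exact hx1.2
    have hb := ha.move y x
    have hbs : ∀ t, (swap y x * a * swap y x) t ≠ t ↔ t ∈ T := by
      intro t
      rw [support_move ha hay' hax, ← Perm.mem_support, haS]
      constructor
      · rintro (⟨h1, h2⟩ | rfl)
        · by_contra h3
          have : t ∈ S \ T := Finset.mem_sdiff.2 ⟨h1, h3⟩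
          rw [hy, Finset.mem_singleton] at this
          exact h2 this
        · exact hx1.1
      · intro h1
        by_cases h2 : t ∈ S
        · refine Or.inl ⟨h2, ?_⟩
          rintro rfl
          exact hy1.2 h1
        · have : t ∈ T \ S := Finset.mem_sdiff.2 ⟨h1, h2⟩
          rw [hx, Finset.mem_singleton] at this
          exact Or.inr this
    obtain ⟨c, hc, hcU, hac, hbc⟩ := h a _ ha haS hb (by
      ext t; rw [Perm.mem_support]; exact hbs t) (order_move ha hay' hax)
    have hcm : ∀ t, c t ≠ t ↔ t ∈ U := fun t => by rw [← Perm.mem_support, hcU]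
    have ham : ∀ t, a t ≠ t ↔ t ∈ S := fun t => by rw [← Perm.mem_support, haS]
    have e1 : c x = a z := third_eq ha hc hac hax ((hcm x).2 hxU)
      (fun t ht htx => (ham t).2 (hUS t ((hcm t).1 ht) htx))
      (fun t ht htz => (hcm t).2 (hSz t ((ham t).1 ht) htz))
    have e2 : c y = (swap y x * a * swap y x) z := third_eq hb hc hbc (move_x hax)
      ((hcm y).2 hyU)
      (fun t ht hty => (hbs t).2 (hUT t ((hcm t).1 ht) hty))
      (fun t ht htz => (hcm t).2 (hTz t ((hbs t).1 ht) htz))
    rw [move_other ha hax hzy (by rw [hay]; exact hw.1.symm) hzx] at e2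
    exact hxy (c.injective (e1.trans e2.symm))
  · intro hsub a b ha haS hb hbT hab
    -- the new point
    obtain ⟨z, hz⟩ := Finset.card_eq_one.1 (hcards T U hT hU hTU)
    have hz1 : z ∈ U \ T := by rw [hz]; exact Finset.mem_singleton_self z
    rw [Finset.mem_sdiff] at hz1
    have hzS : z ∉ S := by
      intro h
      have h1 : S ⊆ U := by
        intro t ht
        by_cases h2 : t ∈ T
        · exact hsub (Finset.mem_inter.2 ⟨ht, h2⟩)
        · have : t ∈ S \ T := Finset.mem_sdiff.2 ⟨ht, h2⟩
          have h3 : z ∈ S \ T := Finset.mem_sdiff.2 ⟨h, hz1.2⟩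
          rw [hy, Finset.mem_singleton] at this h3
          rw [this, ← h3]
          exact hz1.1
      rw [Finset.card_eq_one] at hSU
      obtain ⟨v, hv⟩ := hSU
      have : v ∈ S \ U := by rw [hv]; exact Finset.mem_singleton_self v
      rw [Finset.mem_sdiff] at this
      exact this.2 (h1 this.1)
    have hxU : x ∉ U := by
      intro h
      have h1 : T ⊆ U := by
        intro t ht
        by_cases h2 : t ∈ S
        · exact hsub (Finset.mem_inter.2 ⟨h2, ht⟩)
        · have : t ∈ T \ S := Finset.mem_sdiff.2 ⟨ht, h2⟩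
          rw [hx, Finset.mem_singleton] at this
          rw [this]
          exact h
      rw [Finset.card_eq_one] at hTU
      obtain ⟨v, hv⟩ := hTU
      have : v ∈ T \ U := by rw [hv]; exact Finset.mem_singleton_self v
      rw [Finset.mem_sdiff] at this
      exact this.2 (h1 this.1)
    have hbx : b x ≠ x := by rw [← Perm.mem_support, hbT]; exact hx1.1
    have hbz : b z = z := by rw [← Perm.notMem_support, hbT]; exact hz1.2
    have hax : a x = x := by rw [← Perm.notMem_support, haS]; exact hx1.2
    have haz : a z = z := by rw [← Perm.notMem_support, haS]; exact hzS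
    refine ⟨swap x z * b * swap x z, hb.move x z, ?_, ?_, order_move hb hbx hbz⟩
    · ext t
      rw [Perm.mem_support, support_move hb hbx hbz, ← Perm.mem_support, hbT]
      constructor
      · rintro (⟨h1, h2⟩ | rfl)
        · by_cases h3 : t ∈ S
          · exact hsub (Finset.mem_inter.2 ⟨h3, h1⟩)
          · have : t ∈ T \ S := Finset.mem_sdiff.2 ⟨h1, h3⟩
            rw [hx, Finset.mem_singleton] at this
            exact absurd this h2
        · exact hz1.1
      · intro h1
        by_cases h2 : t ∈ T
        · refine Or.inl ⟨h2, ?_⟩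
          rintro rfl
          exact hxU h1
        · have : t ∈ U \ T := Finset.mem_sdiff.2 ⟨h1, h2⟩
          rw [hz, Finset.mem_singleton] at this
          exact Or.inr this
    · have hcomm : a * swap x z = swap x z * a := by rw [mul_swap_eq_swap_mul, hax, haz]
      have h3 : a * (swap x z * b * swap x z) = (MulAut.conj (swap x z)) (a * b) := by
        rw [MulAut.conj_apply, swap_inv]
        calc a * (swap x z * b * swap x z) = (a * swap x z) * b * swap x z := by
              simp only [mul_assoc]
          _ = swap x z * (a * b) * swap x z := by rw [hcomm]; simp only [mul_assoc]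
      rw [h3, ← hab]
      exact orderOf_injective (MulAut.conj (swap x z)).toMonoidHom
        (MulAut.conj (swap x z)).injective (a * b)

/-- The two-cycles of `a`, if there are at least two fixed points. -/
theorem edge_iff (ha : IsInv m a) {i j k l : α} (hi : a i ≠ i) (hj : a j ≠ j) (hij : i ≠ j)
    (hk : a k = k) (hl : a l = l) (hkl : k ≠ l) :
    (∃ b : Perm α, IsInv m b ∧ b.support = (a.support \ {i, j}) ∪ {k, l} ∧
      orderOf (a * b) = 2) ↔ a i = j := by
  constructor
  · rintro ⟨b, hb, hbs, h2⟩
    have hab := comm_apply ha hb h2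
    have h1 : b i = i := by
      rw [← Perm.notMem_support, hbs]
      intro h
      rw [Finset.mem_union, Finset.mem_sdiff] at h
      rcases h with h | h
      · exact h.2 (Finset.mem_insert_self _ _)
      · rw [Finset.mem_insert, Finset.mem_singleton] at h
        rcases h with h | h
        · rw [h] at hi; exact hi hk
        · rw [h] at hi; exact hi hl
    have h3 : b (a i) = a i := by rw [← hab, h1]
    rw [← Perm.notMem_support, hbs] at h3
    by_contra hne
    apply h3
    rw [Finset.mem_union, Finset.mem_sdiff]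
    left
    refine ⟨?_, ?_⟩
    · rw [Perm.mem_support, ha.sq]; exact hi.symm
    · rw [Finset.mem_insert, Finset.mem_singleton, not_or]
      exact ⟨hi, hne⟩
  · intro hai
    have haj : a j = i := by rw [← hai, ha.sq]
    have hik : i ≠ k := x_ne_z hi hk
    have hil : i ≠ l := x_ne_z hi hl
    have hjk : j ≠ k := x_ne_z hj hk
    have hjl : j ≠ l := x_ne_z hj hl
    set s : Perm α := swap i k * swap j l with hs
    have si : s i = k := by
      rw [hs, Perm.mul_apply, swap_apply_of_ne_of_ne hij hil, swap_apply_left]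
    have sj : s j = l := by
      rw [hs, Perm.mul_apply, swap_apply_left, swap_apply_of_ne_of_ne hil.symm hkl.symm]
    have sk : s k = i := by
      rw [hs, Perm.mul_apply, swap_apply_of_ne_of_ne hjk.symm hkl, swap_apply_right]
    have sl : s l = j := by
      rw [hs, Perm.mul_apply, swap_apply_right, swap_apply_of_ne_of_ne hij.symm hjk]
    have st : ∀ t, t ≠ i → t ≠ j → t ≠ k → t ≠ l → s t = t := by
      intro t t1 t2 t3 t4
      rw [hs, Perm.mul_apply, swap_apply_of_ne_of_ne t2 t4, swap_apply_of_ne_of_ne t1 t3]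
    have ss : ∀ t, s⁻¹ t = s t := by
      intro t
      rw [Perm.inv_eq_iff_eq]
      by_cases t1 : t = i
      · rw [t1, si, sk]
      by_cases t2 : t = j
      · rw [t2, sj, sl]
      by_cases t3 : t = k
      · rw [t3, sk, si]
      by_cases t4 : t = l
      · rw [t4, sl, sj]
      rw [st t t1 t2 t3 t4, st t t1 t2 t3 t4]
    have hb := ha.conj s
    have bi : (s * a * s⁻¹) i = i := by
      rw [Perm.mul_apply, Perm.mul_apply, ss, si, hk, sk]
    have bj : (s * a * s⁻¹) j = j := by
      rw [Perm.mul_apply, Perm.mul_apply, ss, sj, hl, sl]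
    have bk : (s * a * s⁻¹) k = l := by
      rw [Perm.mul_apply, Perm.mul_apply, ss, sk, hai, sj]
    have bl : (s * a * s⁻¹) l = k := by
      rw [Perm.mul_apply, Perm.mul_apply, ss, sl, haj, si]
    have bt : ∀ t, t ≠ i → t ≠ j → t ≠ k → t ≠ l → (s * a * s⁻¹) t = a t := by
      intro t t1 t2 t3 t4
      rw [Perm.mul_apply, Perm.mul_apply, ss, st t t1 t2 t3 t4]
      refine st _ ?_ ?_ ?_ ?_
      · intro h; apply t2; rw [← ha.sq t, h, hai]
      · intro h; apply t1; rw [← ha.sq t, h, haj]
      · intro h; apply t3; rw [← ha.sq t, h, hk]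
      · intro h; apply t4; rw [← ha.sq t, h, hl]
    refine ⟨s * a * s⁻¹, hb, ?_, ?_⟩
    · ext t
      simp only [Finset.mem_union, Finset.mem_sdiff, Finset.mem_insert, Finset.mem_singleton,
        not_or, Perm.mem_support]
      by_cases t1 : t = i
      · rw [t1, bi]; simp [hik, hil]
      by_cases t2 : t = j
      · rw [t2, bj]; simp [hjk, hjl]
      by_cases t3 : t = k
      · rw [t3, bk]; simp [hkl.symm]
      by_cases t4 : t = l
      · rw [t4, bl]; simp [hkl]
      rw [bt t t1 t2 t3 t4]
      simp [t1, t2, t3, t4]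
    · rw [orderOf_two_iff ha hb]
      refine ⟨?_, ?_⟩
      · intro h
        rw [← h] at bi
        exact hi bi
      · ext1 t
        show a ((s * a * s⁻¹) t) = (s * a * s⁻¹) (a t)
        by_cases t1 : t = i
        · rw [t1, bi, hai, bj]
        by_cases t2 : t = j
        · rw [t2, bj, haj, bi]
        by_cases t3 : t = k
        · rw [t3, bk, hk, bk, hl]
        by_cases t4 : t = l
        · rw [t4, bl, hl, bl, hk]
        rw [bt t t1 t2 t3 t4, bt]
        · intro h; apply t2; rw [← ha.sq t, h, hai]
        · intro h; apply t1; rw [← ha.sq t, h, haj]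
        · intro h; apply t3; rw [← ha.sq t, h, hk]
        · intro h; apply t4; rw [← ha.sq t, h, hl]

/-- The two-cycles of `a`, if there is one fixed point `x`. -/
theorem edge_iff_one (hcard : Fintype.card α = 2 * m + 1) (ha : IsInv m a) {x y z : α}
    (hx : a x = x) (hyx : y ≠ x) (hzx : z ≠ x) (hyz : y ≠ z) :
    (∀ c : Perm α, IsInv m c → c y = y → orderOf (a * c) = 3 → ∃ d : Perm α, IsInv m d ∧
      d z = z ∧ orderOf (a * d) = 3 ∧ orderOf (c * d) = 3) ↔ a y = z := by
  have huniq : ∀ e : Perm α, IsInv m e → ∀ u v, e u = u → e v = v → u = v := by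
    intro e he u v hu hv
    have h1 : e.supportᶜ.card = 1 := by
      rw [Finset.card_compl, hcard, he.2]
      omega
    obtain ⟨w, hw⟩ := Finset.card_eq_one.1 h1
    have h2 : ∀ u, e u = u → u = w := by
      intro u hu
      have : u ∈ e.supportᶜ := by
        rw [Finset.mem_compl, Perm.notMem_support]
        exact hu
      rw [hw, Finset.mem_singleton] at this
      exact this
    rw [h2 u hu, h2 v hv]
  constructor
  · intro h
    by_contra hne
    have hay : a y ≠ y := fun h => hyx (huniq a ha _ _ h hx)
    have hc := ha.move y x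
    obtain ⟨d, hd, hdz, h1, h2⟩ := h _ hc (move_x hx) (order_move ha hay hx)
    have e1 : d x = a z := third_eq ha hd h1 hx (fun h => hzx (huniq d hd _ _ hdz h))
      (fun t _ htx h => htx (huniq a ha _ _ h hx)) (fun t _ htz h => htz (huniq d hd _ _ h hdz))
    have e2 : d y = (swap y x * a * swap y x) z := third_eq hc hd h2 (move_x hx)
      (fun h => hyz.symm (huniq d hd _ _ hdz h))
      (fun t _ hty h => hty (huniq _ hc _ _ h (move_x hx)))
      (fun t _ htz h => htz (huniq d hd _ _ h hdz))
    rw [move_other ha hx hyz.symm (fun h => hne h.symm) hzx] at e2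
    exact hyx (d.injective (e2.trans e1.symm))
  · intro hayz c hc hcy h3
    refine ⟨a * c * a, ?_, ?_, ?_, ?_⟩
    · have := hc.conj a
      rwa [ha.inv] at this
    · show a (c (a z)) = z
      rw [← hayz, ha.sq, hcy]
    · have h4 : a * (a * c * a) = (MulAut.conj a) (a * c) := by
        rw [MulAut.conj_apply, ha.inv]
        simp only [mul_assoc]
      rw [h4, ← h3]
      exact orderOf_injective (MulAut.conj a).toMonoidHom (MulAut.conj a).injective (a * c)
    · have h4 : c * (a * c * a) = ((a * c)⁻¹) ^ 2 := by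
        rw [mul_inv_rev, ha.inv, hc.inv, sq]
        simp only [mul_assoc]
      rw [h4]
      have h5 : orderOf (a * c)⁻¹ = 3 := by rw [orderOf_inv, h3]
      rw [Nat.Coprime.orderOf_pow (by rw [h5]; decide), h5]

end

end Pool.Agent.Helper2.AN
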