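import Mathlib

/-!
# MP_0d9fdb_al, alternating groups: definitions

Involutions of the symmetric group on a finite set `α` with exactly `m` two-cycles, the coloured
graph with the colour `orderOf (a * b)`, and the two relations used in the proof:

* `Klein a b d`: `a`, `b`, `d` agree outside four points, and on these four points they are the three
  fixed point free involutions;
* `Good m a b d`: `a`, `b`, `d` are pairwise different, they commute, and for every `c` with `m`
  two-cycles such that one of the three orders of `a * c`, `b * c`, `d * c` is `2` or `3`, two of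
  these three orders are equal.
-/

namespace Pool.Agent.Helper2.AN

open Equiv

variable {α : Type*} [Fintype α] [DecidableEq α]

/-- involutions with exactly `m` two-cycles -/
def IsInv (m : ℕ) (a : Perm α) : Prop := a * a = 1 ∧ a.support.card = 2 * m

/-- two of the three numbers are equal -/
def TwoEq (p q r : ℕ) : Prop := p = q ∨ q = r ∨ p = r

/-- `a`, `b`, `d` agree off four points, on which they are the three fixed point free involutions -/
def Klein (a b d : Perm α) : Prop :=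
  ∃ x y z w : α, x ≠ y ∧ x ≠ z ∧ x ≠ w ∧ y ≠ z ∧ y ≠ w ∧ z ≠ w ∧
    (a x = y ∧ a y = x ∧ a z = w ∧ a w = z) ∧ (b x = z ∧ b z = x ∧ b y = w ∧ b w = y) ∧
    (d x = w ∧ d w = x ∧ d y = z ∧ d z = y) ∧
    ∀ t, t ≠ x → t ≠ y → t ≠ z → t ≠ w → a t = b t ∧ a t = d t

/-- pairwise commuting, different, and two of the three orders with `c` are always equal, if one of
them is `2` or `3` -/
def Good (m : ℕ) (a b d : Perm α) : Prop :=
  IsInv m a ∧ IsInv m b ∧ IsInv m d ∧
  orderOf (a * b) = 2 ∧ orderOf (a * d) = 2 ∧ orderOf (b * d) = 2 ∧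
  ∀ c : Perm α, IsInv m c →
    (orderOf (a * c) = 2 ∨ orderOf (a * c) = 3 ∨ orderOf (b * c) = 2 ∨ orderOf (b * c) = 3 ∨
      orderOf (d * c) = 2 ∨ orderOf (d * c) = 3) →
    TwoEq (orderOf (a * c)) (orderOf (b * c)) (orderOf (d * c))

/-- `1` if `b = a⁻¹` off the range of `ι`, and `2` otherwise -/
noncomputable def off {k : ℕ} (ι : Fin k → α) (a b : Perm α) : ℕ :=
  open scoped Classical in if ∀ x, x ∉ Set.range ι → b (a x) = x then 1 else 2

/-! ### Basic facts -/

theorem IsInv.sq {m : ℕ} {a : Perm α} (h : IsInv m a) (x : α) : a (a x) = x := by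
  have := congrArg (fun e : Perm α => e x) h.1
  simpa using this

theorem IsInv.eq_iff {m : ℕ} {a : Perm α} (h : IsInv m a) {x y : α} : a x = y ↔ x = a y := by
  constructor
  · rintro rfl; rw [h.sq]
  · rintro rfl; rw [h.sq]

theorem IsInv.inv {m : ℕ} {a : Perm α} (h : IsInv m a) : a⁻¹ = a := by
  exact inv_eq_of_mul_eq_one_left h.1

theorem IsInv.conj {m : ℕ} {a : Perm α} (h : IsInv m a) (s : Perm α) : IsInv m (s * a * s⁻¹) := by
  refine ⟨?_, ?_⟩
  · have := h.1
    calc s * a * s⁻¹ * (s * a * s⁻¹) = s * (a * a) * s⁻¹ := by group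
      _ = 1 := by rw [h.1]; group
  · rw [Perm.card_support_conj]
    exact h.2

theorem orderOf_two_iff {m : ℕ} {a b : Perm α} (ha : IsInv m a) (hb : IsInv m b) :
    orderOf (a * b) = 2 ↔ a ≠ b ∧ a * b = b * a := by
  have ha' := ha.1
  have hb' := hb.1
  constructor
  · intro h
    refine ⟨?_, ?_⟩
    · rintro rfl
      rw [ha', orderOf_one] at h
      omega
    · have h2 : (a * b) ^ 2 = 1 := by rw [← h]; exact pow_orderOf_eq_one _
      rw [sq] at h2
      have h3 : a * b = (a * b)⁻¹ := eq_inv_of_mul_eq_one_left h2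
      rw [h3, mul_inv_rev, ha.inv, hb.inv]
  · rintro ⟨h1, h2⟩
    refine orderOf_eq_prime ?_ ?_
    · rw [sq]
      calc a * b * (a * b) = a * b * (b * a) := by rw [h2]
        _ = a * (b * b) * a := by group
        _ = 1 := by rw [hb', mul_one, ha']
    · intro h
      apply h1
      calc a = a * (b * b) := by rw [hb', mul_one]
        _ = a * b * b := by group
        _ = b := by rw [h, one_mul]

theorem Good.symm12 {m : ℕ} {a b d : Perm α} (h : Good m a b d) : Good m b a d := by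
  obtain ⟨ha, hb, hd, hab, had, hbd, h⟩ := h
  have e : orderOf (b * a) = 2 := by
    rw [orderOf_two_iff hb ha]
    rw [orderOf_two_iff ha hb] at hab
    exact ⟨hab.1.symm, hab.2.symm⟩
  refine ⟨hb, ha, hd, e, hbd, had, fun c hc hh => ?_⟩
  have := h c hc (by tauto)
  unfold TwoEq at *
  tauto

theorem Good.symm23 {m : ℕ} {a b d : Perm α} (h : Good m a b d) : Good m a d b := by
  obtain ⟨ha, hb, hd, hab, had, hbd, h⟩ := h
  have e : orderOf (d * b) = 2 := by
    rw [orderOf_two_iff hd hb]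
    rw [orderOf_two_iff hb hd] at hbd
    exact ⟨hbd.1.symm, hbd.2.symm⟩
  refine ⟨ha, hd, hb, had, hab, e, fun c hc hh => ?_⟩
  have := h c hc (by tauto)
  unfold TwoEq at *
  tauto

theorem Klein.symm12 {a b d : Perm α} (h : Klein a b d) : Klein b a d := by
  obtain ⟨x, y, z, w, h1, h2, h3, h4, h5, h6, ⟨a1, a2, a3, a4⟩, ⟨b1, b2, b3, b4⟩,
    ⟨d1, d2, d3, d4⟩, h⟩ := h
  refine ⟨x, z, y, w, h2, h1, h3, h4.symm, h6, h5, ⟨b1, b2, b3, b4⟩, ⟨a1, a2, a3, a4⟩,
    ⟨d1, d2, d4, d3⟩, fun t e1 e2 e3 e4 => ?_⟩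
  obtain ⟨g1, g2⟩ := h t e1 e3 e2 e4
  exact ⟨g1.symm, g1.symm.trans g2⟩

theorem Klein.symm23 {a b d : Perm α} (h : Klein a b d) : Klein a d b := by
  obtain ⟨x, y, z, w, h1, h2, h3, h4, h5, h6, ⟨a1, a2, a3, a4⟩, ⟨b1, b2, b3, b4⟩,
    ⟨d1, d2, d3, d4⟩, h⟩ := h
  refine ⟨x, y, w, z, h1, h3, h2, h5, h4, h6.symm, ⟨a1, a2, a4, a3⟩, ⟨d1, d2, d3, d4⟩,
    ⟨b1, b2, b3, b4⟩, fun t e1 e2 e3 e4 => ?_⟩
  obtain ⟨g1, g2⟩ := h t e1 e2 e4 e3
  exact ⟨g2, g1⟩

end Pool.Agent.Helper2.AN
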