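import Pool.Agent.Helper2.AN.FTwo

/-!
# Block AN-FONE: colour automorphisms, exactly one fixed point
-/

namespace Pool.Agent.Helper2.AN

open Equiv

variable {α : Type*} [Fintype α] [DecidableEq α]

section

variable {m : ℕ} {τ : Perm (Vt α m)}

theorem fix_unique (hcard : Fintype.card α = 2 * m + 1) {e : Perm α} (he : IsInv m e) {u v : α}
    (hu : e u = u) (hv : e v = v) : u = v := by
  have h1 : e.supportᶜ.card = 1 := by
    rw [Finset.card_compl, hcard, he.2]
    omega
  obtain ⟨w, hw⟩ := Finset.card_eq_one.1 h1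
  have hu' : u ∈ e.supportᶜ := by rw [Finset.mem_compl, Perm.notMem_support]; exact hu
  have hv' : v ∈ e.supportᶜ := by rw [Finset.mem_compl, Perm.notMem_support]; exact hv
  rw [hw, Finset.mem_singleton] at hu' hv'
  rw [hu', hv']

theorem fix_exists (hcard : Fintype.card α = 2 * m + 1) {e : Perm α} (he : IsInv m e) :
    ∃ u, e u = u := by
  have h1 : e.supportᶜ.card = 1 := by
    rw [Finset.card_compl, hcard, he.2]
    omega
  obtain ⟨w, hw⟩ := Finset.card_eq_one.1 h1
  have hw' : w ∈ e.supportᶜ := by rw [hw]; exact Finset.mem_singleton_self w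
  rw [Finset.mem_compl, Perm.notMem_support] at hw'
  exact ⟨w, hw'⟩

theorem Col.same_fix (h : Col τ) (hcard : Fintype.card α = 2 * m + 1) {a b : Vt α m} {x y : α}
    (ha : (a : Perm α) x = x) (hb : (b : Perm α) x = x) (hy : (τ a : Perm α) y = y) :
    (τ b : Perm α) y = y := by
  have hS : (a : Perm α).support = (b : Perm α).support := by
    ext t
    rw [Perm.mem_support, Perm.mem_support, not_iff_not]
    constructor
    · intro ht
      rw [fix_unique hcard a.2 ht ha]
      exact hb
    · intro ht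
      rw [fix_unique hcard b.2 ht hb]
      exact ha
  have key : ∀ u v : Perm α, Relation.ReflTransGen (Step m) u v → ∀ (hu : IsInv m u) (hv : IsInv m v),
      (τ ⟨u, hu⟩ : Perm α) y = y → (τ ⟨v, hv⟩ : Perm α) y = y := by
    intro u v huv
    induction huv with
    | refl => intro hu hv h; exact h
    | tail h1 h2 ih =>
      intro hu hv h0
      obtain ⟨hb, hc, d, hd, hk⟩ := h2
      have h3 := ih hu hb h0
      have hg := hk.good hb hc hd
      have h4 : orderOf ((τ ⟨_, hb⟩ : Perm α) * (τ ⟨_, hc⟩ : Perm α)) = 2 := by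
        rw [h]
        exact hg.2.2.2.1
      have h5 := comm_apply (τ ⟨_, hb⟩).2 (τ ⟨_, hc⟩).2 h4 y
      rw [h3] at h5
      exact (fix_unique hcard (τ ⟨_, hb⟩).2 h3 h5).symm
  exact key a b (conn a.2 b.2 hS) a.2 b.2 hy

theorem exists_fix (hcard : Fintype.card α = 2 * m + 1) (x : α) : ∃ a : Vt α m, (a : Perm α) x = x := by
  obtain ⟨a, ha, haS⟩ := exists_inv m (Finset.univ.erase x) (by
    rw [Finset.card_erase_of_mem (Finset.mem_univ x), Finset.card_univ, hcard]
    omega)
  refine ⟨⟨a, ha⟩, ?_⟩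
  show a x = x
  rw [← Perm.notMem_support, haS]
  exact Finset.notMem_erase x _

theorem Col.exists_pt (h : Col τ) (hcard : Fintype.card α = 2 * m + 1) (x : α) :
    ∃ y, ∀ a : Vt α m, (a : Perm α) x = x → (τ a : Perm α) y = y := by
  obtain ⟨a, ha⟩ := exists_fix hcard x
  obtain ⟨y, hy⟩ := fix_exists hcard (τ a).2
  exact ⟨y, fun b hb => h.same_fix hcard ha hb hy⟩

/-- Colour automorphisms come from permutations of the points: exactly one fixed point. -/
theorem Col.exists_conj_one (h : Col τ) (hcard : Fintype.card α = 2 * m + 1) :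
    ∃ g : Perm α, ∀ a : Vt α m, (τ a : Perm α) = g * (a : Perm α) * g⁻¹ := by
  choose g hg using h.exists_pt hcard
  choose g' hg' using h.symm.exists_pt hcard
  have hgg : ∀ x, g' (g x) = x := by
    intro x
    obtain ⟨a, ha⟩ := exists_fix hcard x
    have h1 := hg' (g x) (τ a) (hg x a ha)
    rw [ias] at h1
    exact fix_unique hcard a.2 h1 ha
  have hinj : Function.Injective g := Function.LeftInverse.injective hgg
  let G : Perm α := Equiv.ofBijective g (Finite.injective_iff_bijective.1 hinj)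
  have hG : ∀ x, G x = g x := fun x => rfl
  have hfix : ∀ (a : Vt α m) (t : α), (τ a : Perm α) (G t) = G t → (a : Perm α) t = t := by
    intro a t ht
    obtain ⟨x, hx⟩ := fix_exists hcard a.2
    have h1 := hg x a hx
    have h2 := fix_unique hcard (τ a).2 ht h1
    rw [hG] at h2
    rw [hinj h2]
    exact hx
  refine ⟨G, fun a => ?_⟩
  have main : ∀ t, (τ a : Perm α) (G t) = G ((a : Perm α) t) := by
    intro y
    obtain ⟨x, hx⟩ := fix_exists hcard a.2
    by_cases hyx : y = x
    · rw [hyx, hx]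
      exact hg x a hx
    have hay : (a : Perm α) y ≠ y := fun h => hyx (fix_unique hcard a.2 h hx)
    have hzx : (a : Perm α) y ≠ x := by
      intro h
      apply hyx
      have := congrArg (a : Perm α) h
      rw [a.2.sq, hx] at this
      exact this
    have h1 := (edge_iff_one hcard a.2 hx hyx hzx hay.symm).2 rfl
    refine (edge_iff_one hcard (τ a).2 (hg x a hx) (G.injective.ne hyx) (G.injective.ne hzx)
      (G.injective.ne hay.symm)).1 ?_
    intro c' hc' hc'y h3
    obtain ⟨c, hc⟩ : ∃ c : Vt α m, (τ c : Perm α) = c' := ⟨τ⁻¹ ⟨c', hc'⟩, by rw [ais]⟩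
    rw [← hc] at hc'y h3
    rw [h] at h3
    obtain ⟨d, hd, hdz, h4, h5⟩ := h1 c c.2 (hfix c y hc'y) h3
    refine ⟨τ ⟨d, hd⟩, (τ ⟨d, hd⟩).2, hg _ ⟨d, hd⟩ hdz, ?_, ?_⟩
    · rw [h]
      exact h4
    · rw [← hc, h]
      exact h5
  ext t
  rw [Perm.mul_apply, Perm.mul_apply]
  have := main (G⁻¹ t)
  rw [ais] at this
  exact this

end

end Pool.Agent.Helper2.AN
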