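import Mathlib

/-!
# Block AN-JOHN: maps of `k`-subsets which preserve adjacency and triangles of the first type

Adjacent: `(S \ T).card = 1`. A triangle `S, T, U` is of the first type if `S ∩ T ⊆ U`. Such a bijection
of the `k`-subsets (`1 ≤ k < n`) comes from a permutation of the points: by induction on `k`, since it
induces a bijection of the `(k-1)`-subsets with the same properties.
-/

namespace Pool.Agent.Helper2.AN

variable {α : Type*} [DecidableEq α]

theorem sdiff_symm {k : ℕ} {A B : Finset α} (hA : A.card = k) (hB : B.card = k)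
    (h : (A \ B).card = 1) : (B \ A).card = 1 := by
  have h1 := Finset.card_sdiff_add_card_inter A B
  have h2 := Finset.card_sdiff_add_card_inter B A
  rw [Finset.inter_comm] at h2
  omega

theorem inter_card {k : ℕ} {A B : Finset α} (hA : A.card = k + 1) (h : (A \ B).card = 1) :
    (A ∩ B).card = k := by
  have h1 := Finset.card_sdiff_add_card_inter A B
  omega

theorem union_card {k : ℕ} {A B : Finset α} (hB : B.card = k) (h : (A \ B).card = 1) :
    (A ∪ B).card = k + 1 := by
  have h1 := Finset.card_sdiff_add_card A B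
  omega

theorem dicho {A B C : Finset α} (hAB : (A \ B).card = 1)
    (hAC : (A \ C).card = 1) (hCB : (C \ B).card = 1) (h : ¬ A ∩ B ⊆ C) :
    C ⊆ A ∪ B := by
  rw [Finset.not_subset] at h
  obtain ⟨x, hx, hxC⟩ := h
  rw [Finset.mem_inter] at hx
  intro y hy
  by_contra hyn
  rw [Finset.mem_union, not_or] at hyn
  obtain ⟨u, hu⟩ := Finset.card_eq_one.1 hAC
  obtain ⟨v, hv⟩ := Finset.card_eq_one.1 hCB
  have hxu : x = u := by
    have : x ∈ A \ C := Finset.mem_sdiff.2 ⟨hx.1, hxC⟩
    rw [hu, Finset.mem_singleton] at this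
    exact this
  have hyv : y = v := by
    have : y ∈ C \ B := Finset.mem_sdiff.2 ⟨hy, hyn.2⟩
    rw [hv, Finset.mem_singleton] at this
    exact this
  have hsub : A ⊆ B := by
    intro t ht
    by_cases htC : t ∈ C
    · by_contra htB
      have : t ∈ C \ B := Finset.mem_sdiff.2 ⟨htC, htB⟩
      rw [hv, Finset.mem_singleton, ← hyv] at this
      exact hyn.1 (this ▸ ht)
    · have : t ∈ A \ C := Finset.mem_sdiff.2 ⟨ht, htC⟩
      rw [hu, Finset.mem_singleton, ← hxu] at this
      rw [this]
      exact hx.2
  rw [Finset.sdiff_eq_empty_iff_subset.2 hsub, Finset.card_empty] at hAB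
  exact absurd hAB (by omega)

/-- two different sets of the same size in a set with one more element are adjacent -/
theorem adj_of_subset {k : ℕ} {A B S : Finset α} (hA : A.card = k) (hB : B.card = k)
    (hS : S.card = k + 1) (hAS : A ⊆ S) (hBS : B ⊆ S) (hne : A ≠ B) : (A \ B).card = 1 := by
  have h1 : (A \ B).card ≤ 1 := by
    have h2 : A \ B ⊆ S \ B := Finset.sdiff_subset_sdiff hAS (Finset.Subset.refl _)
    have h3 := Finset.card_le_card h2
    rw [Finset.card_sdiff_of_subset hBS] at h3
    omega
  have h2 : (A \ B).card ≠ 0 := by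
    rw [Finset.card_ne_zero]
    by_contra hc
    rw [Finset.not_nonempty_iff_eq_empty, Finset.sdiff_eq_empty_iff_subset] at hc
    exact hne (Finset.eq_of_subset_of_card_le hc (by omega))
  omega

/-- two different sets of the same size which contain a set with one element less are adjacent -/
theorem adj_of_superset {k : ℕ} {A B R : Finset α} (hA : A.card = k + 1) (hB : B.card = k + 1)
    (hR : R.card = k) (hAR : R ⊆ A) (hBR : R ⊆ B) (hne : A ≠ B) : (A \ B).card = 1 := by
  have h1 : (A \ B).card ≤ 1 := by
    have h2 : A \ B ⊆ A \ R := Finset.sdiff_subset_sdiff (Finset.Subset.refl _) hBR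
    have h3 := Finset.card_le_card h2
    rw [Finset.card_sdiff_of_subset hAR] at h3
    omega
  have h2 : (A \ B).card ≠ 0 := by
    rw [Finset.card_ne_zero]
    by_contra hc
    rw [Finset.not_nonempty_iff_eq_empty, Finset.sdiff_eq_empty_iff_subset] at hc
    exact hne (Finset.eq_of_subset_of_card_le hc (by omega))
  omega

/-- the hypotheses on `φ` with inverse `φ'` -/
structure Joh (k : ℕ) (φ φ' : Finset α → Finset α) : Prop where
  card : ∀ S, S.card = k → (φ S).card = k
  inv : ∀ S, S.card = k → φ' (φ S) = S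
  adj : ∀ S T, S.card = k → T.card = k → (S \ T).card = 1 → (φ S \ φ T).card = 1
  typ : ∀ S T U, S.card = k → T.card = k → U.card = k → (S \ T).card = 1 → (S \ U).card = 1 →
    (T \ U).card = 1 → S ∩ T ⊆ U → φ S ∩ φ T ⊆ φ U

variable [Fintype α]

section step

variable {k : ℕ} {φ φ' : Finset α → Finset α}

theorem Joh.two_super (hk : k + 2 ≤ Fintype.card α) {R : Finset α} (hR : R.card = k) :
    ∃ S T : Finset α, S.card = k + 1 ∧ T.card = k + 1 ∧ R ⊆ S ∧ R ⊆ T ∧ S ≠ T ∧ S ∩ T = R ∧
      (S \ T).card = 1 := by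
  have h1 : 1 < (Rᶜ).card := by
    rw [Finset.card_compl]
    omega
  obtain ⟨x, hx, y, hy, hne⟩ := Finset.one_lt_card.1 h1
  rw [Finset.mem_compl] at hx hy
  have hSc : (insert x R).card = k + 1 := by rw [Finset.card_insert_of_notMem hx, hR]
  have hTc : (insert y R).card = k + 1 := by rw [Finset.card_insert_of_notMem hy, hR]
  have hST : insert x R ≠ insert y R := by
    intro h
    have : x ∈ insert y R := h ▸ Finset.mem_insert_self x R
    rw [Finset.mem_insert] at this
    exact this.elim hne hx
  have hRS : R ⊆ insert x R := Finset.subset_insert _ _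
  have hRT : R ⊆ insert y R := Finset.subset_insert _ _
  have hadj := adj_of_superset hSc hTc hR hRS hRT hST
  refine ⟨insert x R, insert y R, hSc, hTc, hRS, hRT, hST, ?_, hadj⟩
  symm
  refine Finset.eq_of_subset_of_card_le (Finset.subset_inter hRS hRT) ?_
  rw [inter_card hSc hadj, hR]

/-- The image of a `k`-subset. -/
theorem Joh.exists_down (h : Joh (k + 1) φ φ') (hk : k + 2 ≤ Fintype.card α) {R : Finset α}
    (hR : R.card = k) : ∃ R' : Finset α, R'.card = k ∧ ∀ S : Finset α, S.card = k + 1 → R ⊆ S →
      R' ⊆ φ S := by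
  obtain ⟨S, T, hS, hT, hRS, hRT, hne, hint, hadj⟩ := Joh.two_super hk hR
  have hadj' := h.adj S T hS hT hadj
  refine ⟨φ S ∩ φ T, inter_card (h.card S hS) hadj', fun U hU hRU => ?_⟩
  by_cases e1 : S = U
  · rw [← e1]; exact Finset.inter_subset_left
  by_cases e2 : T = U
  · rw [← e2]; exact Finset.inter_subset_right
  refine h.typ S T U hS hT hU hadj (adj_of_superset hS hU hR hRS hRU e1)
    (adj_of_superset hT hU hR hRT hRU e2) ?_
  rw [hint]
  exact hRU

theorem Joh.unique_down (h : Joh (k + 1) φ φ') (hk : k + 2 ≤ Fintype.card α) {R R' R'' : Finset α}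
    (hR : R.card = k) (h1 : R'.card = k) (h2 : R''.card = k)
    (h1' : ∀ S : Finset α, S.card = k + 1 → R ⊆ S → R' ⊆ φ S)
    (h2' : ∀ S : Finset α, S.card = k + 1 → R ⊆ S → R'' ⊆ φ S) : R' = R'' := by
  obtain ⟨S, T, hS, hT, hRS, hRT, hne, hint, hadj⟩ := Joh.two_super hk hR
  have hadj' := h.adj S T hS hT hadj
  have hc := inter_card (h.card S hS) hadj'
  have e1 := Finset.eq_of_subset_of_card_le (Finset.subset_inter (h1' S hS hRS) (h1' T hT hRT))
    (by omega)
  have e2 := Finset.eq_of_subset_of_card_le (Finset.subset_inter (h2' S hS hRS) (h2' T hT hRT))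
    (by omega)
  rw [e1, e2]

open Classical in
/-- the induced map -/
noncomputable def down (k : ℕ) (φ : Finset α → Finset α) (R : Finset α) : Finset α :=
  if h : ∃ R' : Finset α, R'.card = k ∧ ∀ S : Finset α, S.card = k + 1 → R ⊆ S → R' ⊆ φ S
  then h.choose else ∅

theorem Joh.down_card (h : Joh (k + 1) φ φ') (hk : k + 2 ≤ Fintype.card α) {R : Finset α}
    (hR : R.card = k) : (down k φ R).card = k := by
  have hx := h.exists_down hk hR
  unfold down
  rw [dif_pos hx]
  exact hx.choose_spec.1

theorem Joh.down_subset (h : Joh (k + 1) φ φ') (hk : k + 2 ≤ Fintype.card α) {R S : Finset α}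
    (hR : R.card = k) (hS : S.card = k + 1) (hRS : R ⊆ S) : down k φ R ⊆ φ S := by
  have hx := h.exists_down hk hR
  unfold down
  rw [dif_pos hx]
  exact hx.choose_spec.2 S hS hRS

theorem Joh.down_inv (h : Joh (k + 1) φ φ') (h' : Joh (k + 1) φ' φ) (hk : k + 2 ≤ Fintype.card α)
    {R : Finset α} (hR : R.card = k) : down k φ' (down k φ R) = R := by
  have hR' := h.down_card hk hR
  refine h'.unique_down hk hR' (h'.down_card hk hR') hR
    (fun S hS hRS => h'.down_subset hk hR' hS hRS) fun U hU hRU => ?_
  obtain ⟨S, T, hS, hT, hRS, hRT, hne, hint, hadj⟩ := Joh.two_super hk hR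
  have hadj' := h.adj S T hS hT hadj
  have hcS := h.card S hS
  have hcT := h.card T hT
  have hsS := h.down_subset hk hR hS hRS
  have hsT := h.down_subset hk hR hT hRT
  by_cases e1 : φ S = U
  · rw [← e1, h.inv S hS]; exact hRS
  by_cases e2 : φ T = U
  · rw [← e2, h.inv T hT]; exact hRT
  have h3 := h'.typ (φ S) (φ T) U hcS hcT hU hadj' (adj_of_superset hcS hU hR' hsS hRU e1)
    (adj_of_superset hcT hU hR' hsT hRU e2) (by
      have : down k φ R = φ S ∩ φ T :=
        Finset.eq_of_subset_of_card_le (Finset.subset_inter hsS hsT) (by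
          rw [inter_card hcS hadj', hR'])
      rw [← this]
      exact hRU)
  rw [h.inv S hS, h.inv T hT, hint] at h3
  exact h3

theorem Joh.down_joh (h : Joh (k + 1) φ φ') (h' : Joh (k + 1) φ' φ) (hk : k + 2 ≤ Fintype.card α) :
    Joh k (down k φ) (down k φ') := by
  have hne : ∀ R R' : Finset α, R.card = k → R'.card = k → (R \ R').card = 1 →
      down k φ R ≠ down k φ R' := by
    intro R R' hR hR' hadj he
    have h1 := h.down_inv h' hk hR
    have h2 := h.down_inv h' hk hR'
    rw [he, h2] at h1
    rw [h1, Finset.sdiff_self, Finset.card_empty] at hadj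
    exact absurd hadj (by omega)
  have hadj : ∀ R R' : Finset α, R.card = k → R'.card = k → (R \ R').card = 1 →
      (down k φ R \ down k φ R').card = 1 := by
    intro R R' hR hR' hadj
    have hU : (R ∪ R').card = k + 1 := union_card hR' hadj
    exact adj_of_subset (h.down_card hk hR) (h.down_card hk hR') (h.card _ hU)
      (h.down_subset hk hR hU Finset.subset_union_left)
      (h.down_subset hk hR' hU Finset.subset_union_right) (hne R R' hR hR' hadj)
  refine ⟨fun R hR => h.down_card hk hR, fun R hR => h.down_inv h' hk hR, hadj, ?_⟩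
  intro A B C hA hB hC hAB hAC hBC hsub
  by_contra hcon
  have hA' := h.down_card hk hA
  have hB' := h.down_card hk hB
  have hC' := h.down_card hk hC
  have hCB := sdiff_symm hB hC hBC
  have h3 := dicho (hadj A B hA hB hAB) (hadj A C hA hC hAC) (hadj C B hC hB hCB) hcon
  have hU : (down k φ A ∪ down k φ B).card = k + 1 := union_card hB' (hadj A B hA hB hAB)
  have i1 := h'.down_subset hk hA' hU Finset.subset_union_left
  have i2 := h'.down_subset hk hB' hU Finset.subset_union_right
  have i3 := h'.down_subset hk hC' hU h3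
  rw [h.down_inv h' hk hA] at i1
  rw [h.down_inv h' hk hB] at i2
  rw [h.down_inv h' hk hC] at i3
  have hV : A ∪ B = φ' (down k φ A ∪ down k φ B) :=
    Finset.eq_of_subset_of_card_le (Finset.union_subset i1 i2) (by
      rw [h'.card _ hU, union_card hB hAB])
  rw [← hV] at i3
  obtain ⟨u, hu⟩ := Finset.card_eq_one.1 hAB
  obtain ⟨v, hv⟩ := Finset.card_eq_one.1 (sdiff_symm hA hB hAB)
  -- `A ∩ B ⊆ C ⊆ A ∪ B`
  by_cases huC : u ∈ C
  · have : A ⊆ C := by
      intro t ht
      by_cases htB : t ∈ B
      · exact hsub (Finset.mem_inter.2 ⟨ht, htB⟩)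
      · have : t ∈ A \ B := Finset.mem_sdiff.2 ⟨ht, htB⟩
        rw [hu, Finset.mem_singleton] at this
        rw [this]
        exact huC
    rw [Finset.sdiff_eq_empty_iff_subset.2 this, Finset.card_empty] at hAC
    exact absurd hAC (by omega)
  · have : C ⊆ B := by
      intro t ht
      rcases Finset.mem_union.1 (i3 ht) with h4 | h4
      · by_contra htB
        have : t ∈ A \ B := Finset.mem_sdiff.2 ⟨h4, htB⟩
        rw [hu, Finset.mem_singleton] at this
        exact huC (this ▸ ht)
      · exact h4
    rw [Finset.sdiff_eq_empty_iff_subset.2 this, Finset.card_empty] at hCB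
    exact absurd hCB (by omega)

end step

theorem Joh.exists_perm (k : ℕ) (hk : k + 2 ≤ Fintype.card α) : ∀ {φ φ' : Finset α → Finset α},
    Joh (k + 1) φ φ' → Joh (k + 1) φ' φ → ∃ g : Equiv.Perm α, ∀ S : Finset α, S.card = k + 1 →
      φ S = S.map g.toEmbedding := by
  induction k with
  | zero =>
    intro φ φ' h h'
    have h1 : ∀ x : α, ∃ y, φ {x} = {y} := fun x =>
      Finset.card_eq_one.1 (h.card {x} (Finset.card_singleton x))
    choose g hg using h1
    have hinj : Function.Injective g := by
      intro x y hxy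
      have e1 := h.inv {x} (Finset.card_singleton x)
      have e2 := h.inv {y} (Finset.card_singleton y)
      rw [hg, hxy, ← hg, e2] at e1
      exact (Finset.singleton_injective e1).symm
    refine ⟨Equiv.ofBijective g (Finite.injective_iff_bijective.1 hinj), fun S hS => ?_⟩
    obtain ⟨x, rfl⟩ := Finset.card_eq_one.1 hS
    rw [hg, Finset.map_singleton]
    rfl
  | succ k ih =>
    intro φ φ' h h'
    obtain ⟨g, hg⟩ := ih (by omega) (h.down_joh h' hk) (h'.down_joh h hk)
    refine ⟨g, fun S hS => ?_⟩
    symm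
    refine Finset.eq_of_subset_of_card_le ?_ (by rw [h.card S hS, Finset.card_map, hS])
    intro t ht
    obtain ⟨y, hy, rfl⟩ := Finset.mem_map.1 ht
    obtain ⟨x, hx, hne⟩ := Finset.exists_mem_ne (show 1 < S.card by omega) y
    have hc : (S.erase x).card = k + 1 := by
      rw [Finset.card_erase_of_mem hx, hS]
      omega
    have h1 := h.down_subset hk hc hS (Finset.erase_subset x S)
    rw [hg _ hc] at h1
    exact h1 (Finset.mem_map.2 ⟨y, Finset.mem_erase.2 ⟨hne.symm, hy⟩, rfl⟩)

end Pool.Agent.Helper2.AN
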