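import Pool.Agent.Helper2.AN.Defs

/-!
# Block AN-KL: Klein triples are good
-/

namespace Pool.Agent.Helper2.AN

open Equiv

variable {α : Type*} [Fintype α] [DecidableEq α]

section

variable {m : ℕ} {a b c d : Perm α} {x y z w : α}

omit [Fintype α] in
/-- `ρ` commutes with `a`, `c` and moves `b` to `d`. -/
private theorem order_of_rho
    (hxy : x ≠ y) (hxz : x ≠ z) (hxw : x ≠ w) (hyz : y ≠ z) (hyw : y ≠ w) (hzw : z ≠ w)
    (hb1 : b x = z) (hb2 : b z = x) (hb3 : b y = w) (hb4 : b w = y)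
    (hd1 : d x = w) (hd2 : d w = x) (hd3 : d y = z) (hd4 : d z = y)
    (hoff : ∀ t, t ≠ x → t ≠ y → t ≠ z → t ≠ w → a t = b t ∧ a t = d t)
    (ρ : Perm α) (h1 : ∀ t, ρ (a t) = a (ρ t)) (h2 : ∀ t, ρ (c t) = c (ρ t))
    (hx : ρ x = y) (hy : ρ y = x) (hz : ρ z = z) (hw : ρ w = w) :
    orderOf (b * c) = orderOf (d * c) := by
  have key : ∀ t, ρ (b t) = d (ρ t) := by
    intro t
    by_cases e1 : t = x
    · rw [e1, hb1, hz, hx, hd3]
    by_cases e2 : t = y
    · rw [e2, hb3, hw, hy, hd1]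
    by_cases e3 : t = z
    · rw [e3, hb2, hx, hz, hd4]
    by_cases e4 : t = w
    · rw [e4, hb4, hy, hw, hd2]
    have f1 : ρ t ≠ x := fun h => e2 (ρ.injective (h.trans hy.symm))
    have f2 : ρ t ≠ y := fun h => e1 (ρ.injective (h.trans hx.symm))
    have f3 : ρ t ≠ z := fun h => e3 (ρ.injective (h.trans hz.symm))
    have f4 : ρ t ≠ w := fun h => e4 (ρ.injective (h.trans hw.symm))
    rw [← (hoff t e1 e2 e3 e4).1, h1, (hoff _ f1 f2 f3 f4).2]
  have h3 : (MulAut.conj ρ) (b * c) = d * c := by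
    rw [MulAut.conj_apply, mul_inv_eq_iff_eq_mul]
    ext1 t
    show ρ (b (c t)) = d (c (ρ t))
    rw [key, h2]
  rw [← h3]
  exact (orderOf_injective (MulAut.conj ρ).toMonoidHom (MulAut.conj ρ).injective (b * c)).symm

/-- The permutation exchanging `x` and `a x` and commuting with `a` and `c`. -/
private theorem exists_rho (ha : ∀ t, a (a t) = t) (hc : ∀ t, c (c t) = t)
    (hac : ∀ t, a (c (a t)) = c (a (c t))) (hx : a x ≠ x) (h1 : c x ≠ x) (h2 : c (a x) ≠ a x) :
    ∃ ρ : Perm α, (∀ t, ρ (a t) = a (ρ t)) ∧ (∀ t, ρ (c t) = c (ρ t)) ∧ ρ x = a x ∧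
      ρ (a x) = x ∧ ∀ t, t ≠ x → t ≠ a x → t ≠ c x → t ≠ c (a x) → a t ≠ c x → a t ≠ c (a x) →
        ρ t = t := by
  have of : ∀ ρ : Perm α, a * ρ = ρ * a → ∀ t, ρ (a t) = a (ρ t) := by
    intro ρ h t
    have := congrArg (fun e : Perm α => e t) h
    simpa using this.symm
  have of' : ∀ ρ : Perm α, c * ρ = ρ * c → ∀ t, ρ (c t) = c (ρ t) := by
    intro ρ h t
    have := congrArg (fun e : Perm α => e t) h
    simpa using this.symm
  by_cases h3 : c x = a x
  · have h4 : c (a x) = x := by rw [← h3, hc]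
    refine ⟨swap x (a x), of _ ?_, of' _ ?_, swap_apply_left _ _, swap_apply_right _ _, ?_⟩
    · rw [mul_swap_eq_swap_mul, ha, swap_comm]
    · rw [mul_swap_eq_swap_mul, h3, h4, swap_comm]
    · intro t t1 t2 _ _ _ _
      exact swap_apply_of_ne_of_ne t1 t2
  · -- six points
    have h4 : c (a x) ≠ x := fun h => h3 (by have := hc (a x); rw [h] at this; exact this)
    have h5 : c x ≠ c (a x) := fun h => hx (c.injective h).symm
    have h6 : a (c x) ≠ x := fun h => h3 (by have := ha (c x); rw [h] at this; exact this.symm)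
    have h7 : a (c x) ≠ a x := fun h => h1 (a.injective h)
    have h8 : a (c (a x)) ≠ x := fun h => h2 (by conv_rhs => rw [← h, ha])
    have h9 : a (c (a x)) ≠ a x := fun h => h4 (a.injective h)
    have h10 : a (c x) ≠ a (c (a x)) := fun h => h5 (a.injective h)
    have e1 : c (a (c x)) = a (c (a x)) := (hac x).symm
    have e2 : c (a (c (a x))) = a (c x) := by rw [← e1, hc]
    have h11 : a (c x) ≠ c x := by
      intro h
      have := e1
      rw [h, hc] at this
      exact h2 (by conv_rhs => rw [this, ha])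
    have h12 : a (c (a x)) ≠ c (a x) := by
      intro h
      have := e2
      rw [h, hc] at this
      exact h1 (by conv_rhs => rw [← ha x, this, ha])
    have h13 : a (c x) ≠ c (a x) := by
      intro h
      have := e1
      rw [h, hc] at this
      have h14 : c (a x) = x := by
        apply a.injective
        rw [← this]
      exact h4 h14
    have h14 : a (c (a x)) ≠ c x := by
      intro h
      have := e2
      rw [h, hc] at this
      exact h6 this.symm
    refine ⟨swap x (a x) * (swap (c x) (c (a x)) * swap (a (c x)) (a (c (a x)))),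
      of _ ?_, of' _ ?_, ?_, ?_, ?_⟩
    · have hd : Perm.Disjoint (swap (a (c x)) (a (c (a x)))) (swap (c x) (c (a x))) := by
        apply Perm.disjoint_swap_swap
        simp [h11, h13, h14, h12, h5, -EmbeddingLike.apply_eq_iff_eq, h10]
      have A1 : a * swap x (a x) = swap x (a x) * a := by
        rw [mul_swap_eq_swap_mul, ha, swap_comm]
      have A2 : a * swap (c x) (c (a x)) = swap (a (c x)) (a (c (a x))) * a :=
        mul_swap_eq_swap_mul _ _ _
      have A3 : a * swap (a (c x)) (a (c (a x))) = swap (c x) (c (a x)) * a := by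
        rw [mul_swap_eq_swap_mul, ha, ha]
      generalize swap x (a x) = s1 at *
      generalize swap (c x) (c (a x)) = s2 at *
      generalize swap (a (c x)) (a (c (a x))) = s3 at *
      calc a * (s1 * (s2 * s3)) = (a * s1) * s2 * s3 := by simp only [mul_assoc]
        _ = s1 * (a * s2) * s3 := by rw [A1]; simp only [mul_assoc]
        _ = s1 * s3 * (a * s3) := by rw [A2]; simp only [mul_assoc]
        _ = s1 * (s3 * s2) * a := by rw [A3]; simp only [mul_assoc]
        _ = s1 * (s2 * s3) * a := by rw [hd.commute.eq]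
    · have hd : Perm.Disjoint (swap (c x) (c (a x))) (swap x (a x)) := by
        apply Perm.disjoint_swap_swap
        simp [h1, h3, h4, h2, hx.symm, -EmbeddingLike.apply_eq_iff_eq, h5]
      have A1 : c * swap x (a x) = swap (c x) (c (a x)) * c := mul_swap_eq_swap_mul _ _ _
      have A2 : c * swap (c x) (c (a x)) = swap x (a x) * c := by
        rw [mul_swap_eq_swap_mul, hc, hc]
      have A3 : c * swap (a (c x)) (a (c (a x))) = swap (a (c x)) (a (c (a x))) * c := by
        rw [mul_swap_eq_swap_mul, e1, e2, swap_comm]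
      generalize swap x (a x) = s1 at *
      generalize swap (c x) (c (a x)) = s2 at *
      generalize swap (a (c x)) (a (c (a x))) = s3 at *
      calc c * (s1 * (s2 * s3)) = (c * s1) * s2 * s3 := by simp only [mul_assoc]
        _ = s2 * (c * s2) * s3 := by rw [A1]; simp only [mul_assoc]
        _ = s2 * s1 * (c * s3) := by rw [A2]; simp only [mul_assoc]
        _ = (s2 * s1) * s3 * c := by rw [A3]; simp only [mul_assoc]
        _ = s1 * (s2 * s3) * c := by rw [hd.commute.eq]; simp only [mul_assoc]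
    · rw [Perm.mul_apply, Perm.mul_apply, swap_apply_of_ne_of_ne h6.symm h8.symm,
        swap_apply_of_ne_of_ne h1.symm h4.symm, swap_apply_left]
    · rw [Perm.mul_apply, Perm.mul_apply, swap_apply_of_ne_of_ne h7.symm h9.symm,
        swap_apply_of_ne_of_ne (Ne.symm h3) h2.symm, swap_apply_right]
    · intro t t1 t2 t3 t4 t5 t6
      have t7 : t ≠ a (c x) := fun h => t5 (by rw [h, ha])
      have t8 : t ≠ a (c (a x)) := fun h => t6 (by rw [h, ha])
      rw [Perm.mul_apply, Perm.mul_apply, swap_apply_of_ne_of_ne t7 t8,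
        swap_apply_of_ne_of_ne t3 t4, swap_apply_of_ne_of_ne t1 t2]

/-- The same for commuting `a`, `c`. -/
private theorem exists_rho2 (ha : ∀ t, a (a t) = t) (hc : ∀ t, c (c t) = t)
    (hac : ∀ t, a (c t) = c (a t)) (hx : a x ≠ x) :
    ∃ ρ : Perm α, (∀ t, ρ (a t) = a (ρ t)) ∧ (∀ t, ρ (c t) = c (ρ t)) ∧ ρ x = a x ∧
      ρ (a x) = x ∧ ∀ t, t ≠ x → t ≠ a x → t ≠ c x → a t ≠ c x → ρ t = t := by
  have of : ∀ ρ : Perm α, a * ρ = ρ * a → ∀ t, ρ (a t) = a (ρ t) := by
    intro ρ h t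
    have := congrArg (fun e : Perm α => e t) h
    simpa using this.symm
  have of' : ∀ ρ : Perm α, c * ρ = ρ * c → ∀ t, ρ (c t) = c (ρ t) := by
    intro ρ h t
    have := congrArg (fun e : Perm α => e t) h
    simpa using this.symm
  by_cases h0 : c x = x
  · have h4 : c (a x) = a x := by rw [← hac, h0]
    refine ⟨swap x (a x), of _ ?_, of' _ ?_, swap_apply_left _ _, swap_apply_right _ _, ?_⟩
    · rw [mul_swap_eq_swap_mul, ha, swap_comm]
    · rw [mul_swap_eq_swap_mul, h0, h4]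
    · intro t t1 t2 _ _
      exact swap_apply_of_ne_of_ne t1 t2
  by_cases h3 : c x = a x
  · have h4 : c (a x) = x := by rw [← h3, hc]
    refine ⟨swap x (a x), of _ ?_, of' _ ?_, swap_apply_left _ _, swap_apply_right _ _, ?_⟩
    · rw [mul_swap_eq_swap_mul, ha, swap_comm]
    · rw [mul_swap_eq_swap_mul, h3, h4, swap_comm]
    · intro t t1 t2 _ _
      exact swap_apply_of_ne_of_ne t1 t2
  · have h6 : a (c x) ≠ x := fun h => h3 (by have := ha (c x); rw [h] at this; exact this.symm)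
    have h7 : a (c x) ≠ a x := fun h => h0 (a.injective h)
    have h8 : a (c x) ≠ c x := by
      rw [hac]
      exact fun h => hx (c.injective h)
    have hd : Perm.Disjoint (swap (c x) (a (c x))) (swap x (a x)) := by
      apply Perm.disjoint_swap_swap
      simp [h8.symm, h0, h3, h6, h7, hx.symm]
    refine ⟨swap x (a x) * swap (c x) (a (c x)), of _ ?_, of' _ ?_, ?_, ?_, ?_⟩
    · have A1 : a * swap x (a x) = swap x (a x) * a := by
        rw [mul_swap_eq_swap_mul, ha, swap_comm]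
      have A2 : a * swap (c x) (a (c x)) = swap (c x) (a (c x)) * a := by
        rw [mul_swap_eq_swap_mul, ha, swap_comm]
      rw [← mul_assoc, A1, mul_assoc, A2, mul_assoc]
    · have A1 : c * swap x (a x) = swap (c x) (a (c x)) * c := by
        rw [mul_swap_eq_swap_mul, hac]
      have A2 : c * swap (c x) (a (c x)) = swap x (a x) * c := by
        rw [mul_swap_eq_swap_mul, hc, ← hac, hc]
      rw [← mul_assoc, A1, mul_assoc, A2, ← mul_assoc, hd.commute.eq]
    · rw [Perm.mul_apply, swap_apply_of_ne_of_ne (Ne.symm h0) h6.symm, swap_apply_left]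
    · rw [Perm.mul_apply, swap_apply_of_ne_of_ne (Ne.symm h3) h7.symm, swap_apply_right]
    · intro t t1 t2 t3 t4
      have t7 : t ≠ a (c x) := fun h => t4 (by rw [h, ha])
      rw [Perm.mul_apply, swap_apply_of_ne_of_ne t3 t7, swap_apply_of_ne_of_ne t1 t2]

/-- A Klein triple with its four points. -/
private structure K4 (a b d : Perm α) (x y z w : α) : Prop where
  xy : x ≠ y
  xz : x ≠ z
  xw : x ≠ w
  yz : y ≠ z
  yw : y ≠ w
  zw : z ≠ w
  a1 : a x = y
  a2 : a y = x
  a3 : a z = w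
  a4 : a w = z
  b1 : b x = z
  b2 : b z = x
  b3 : b y = w
  b4 : b w = y
  d1 : d x = w
  d2 : d w = x
  d3 : d y = z
  d4 : d z = y
  off : ∀ t, t ≠ x → t ≠ y → t ≠ z → t ≠ w → a t = b t ∧ a t = d t

omit [Fintype α] [DecidableEq α] in
private theorem K4.flip1 (h : K4 a b d x y z w) : K4 a b d y x w z :=
  ⟨h.xy.symm, h.yw, h.yz, h.xw, h.xz, h.zw.symm, h.a2, h.a1, h.a4, h.a3, h.b3, h.b4, h.b1, h.b2,
    h.d3, h.d4, h.d1, h.d2, fun t t1 t2 t3 t4 => h.off t t2 t1 t4 t3⟩

omit [Fintype α] [DecidableEq α] in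
private theorem K4.flip2 (h : K4 a b d x y z w) : K4 a d b x y w z :=
  ⟨h.xy, h.xw, h.xz, h.yw, h.yz, h.zw.symm, h.a1, h.a2, h.a4, h.a3, h.d1, h.d2, h.d3, h.d4,
    h.b1, h.b2, h.b3, h.b4, fun t t1 t2 t3 t4 => (h.off t t1 t2 t4 t3).symm⟩

omit [Fintype α] [DecidableEq α] in
private theorem K4.rot (h : K4 a b d x y z w) : K4 a b d z w x y :=
  ⟨h.zw, h.xz.symm, h.yz.symm, h.xw.symm, h.yw.symm, h.xy, h.a3, h.a4, h.a1, h.a2, h.b2, h.b1,
    h.b4, h.b3, h.d4, h.d3, h.d2, h.d1, fun t t1 t2 t3 t4 => h.off t t3 t4 t1 t2⟩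

omit [DecidableEq α] in
private theorem pow3 {e : Perm α} (h : orderOf e = 3) (t : α) : e (e (e t)) = t := by
  have h1 : e ^ 3 = 1 := by rw [← h]; exact pow_orderOf_eq_one _
  have := congrArg (fun f : Perm α => f t) h1
  simpa [pow_succ] using this

omit [Fintype α] in
private theorem braid {a c : Perm α} (ha : ∀ t, a (a t) = t) (hc : ∀ t, c (c t) = t)
    (h : ∀ t, (a * c) ((a * c) ((a * c) t)) = t) (t : α) : a (c (a t)) = c (a (c t)) := by
  have h1 := h (c (a (c (a t))))
  simp only [Perm.mul_apply, hc, ha] at h1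
  have h2 := congrArg (fun u => c u) h1
  simp only [hc] at h2
  have h3 := congrArg (fun u => a u) h2
  simp only [ha, hc] at h3
  have h4 := congrArg (fun u => a u) h3
  simp only [ha, hc] at h4
  have h5 := h (c t)
  simp only [Perm.mul_apply, hc] at h5
  -- `a c a t = c a c t`
  have h6 := congrArg (fun u => c (a u)) h5
  simp only [hc, ha] at h6
  exact h6

private theorem order3 {m : ℕ} {a c d : Perm α} (ha : IsInv m a) (hc : IsInv m c)
    (h3 : orderOf (a * c) = 3) (P : α → Prop) (hP : ∀ t, ¬ P t → ¬ P (c t))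
    (hPa : ∀ t, ¬ P t → ¬ P (a t)) (hd : ∀ t, ¬ P t → d t = a t)
    (hin : ∀ t, P t → d (c (d (c (d (c t))))) = t) {x : α} (hx : d (c x) ≠ x) :
    orderOf (d * c) = 3 := by
  refine orderOf_eq_prime ?_ ?_
  · ext1 t
    show ((d * c) ^ 3) t = t
    have e : ((d * c) ^ 3) t = d (c (d (c (d (c t))))) := by simp [pow_succ]
    rw [e]
    by_cases ht : P t
    · exact hin t ht
    · have t1 := hP t ht
      have t2 := hPa _ t1
      have t3 := hP _ t2
      have t4 := hPa _ t3
      have t5 := hP _ t4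
      rw [hd _ t1, hd _ t3, hd _ t5]
      exact pow3 h3 t
  · intro h
    apply hx
    have := congrArg (fun f : Perm α => f x) h
    simpa using this

private theorem caseV3 (ha : IsInv m a) (hc : IsInv m c) (h : K4 a b d x y z w)
    (h3 : orderOf (a * c) = 3) (hcx : c x = z) : orderOf (d * c) = 3 := by
  have hbr := braid ha.sq hc.sq (fun t => pow3 h3 t)
  have hcz : c z = x := by rw [← hcx, hc.sq]
  have hcw : c w = a (c y) := by
    have := hbr x
    rw [h.a1, hcx, h.a3] at this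
    exact this.symm
  have hcaq : c (a (c y)) = w := by rw [← hcw, hc.sq]
  have q1 : c y ≠ y := by
    intro e
    rw [e, h.a2] at hcw
    have : w = z := by rw [← hcx, ← hcw, hc.sq]
    exact h.zw this.symm
  have q2 : c y ≠ x := by
    intro e
    have : c x = y := by rw [← e, hc.sq]
    rw [hcx] at this
    exact h.yz this.symm
  have q3 : c y ≠ z := fun e => h.xy (c.injective (hcx.trans e.symm))
  have q4 : c y ≠ w := by
    intro e
    rw [e, h.a4] at hcw
    have : y = z := by rw [← hcw, ← e, hc.sq]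
    exact h.yz this
  have r1 : a (c y) ≠ x := fun e => q1 (by rw [← ha.sq (c y), e, h.a1])
  have r2 : a (c y) ≠ y := fun e => q2 (by rw [← ha.sq (c y), e, h.a2])
  have r3 : a (c y) ≠ z := fun e => q4 (by rw [← ha.sq (c y), e, h.a3])
  have r4 : a (c y) ≠ w := fun e => q3 (by rw [← ha.sq (c y), e, h.a4])
  have dq : d (c y) = a (c y) := (h.off _ q2 q1 q3 q4).2.symm
  have daq : d (a (c y)) = c y := by rw [← (h.off _ r1 r2 r3 r4).2, ha.sq]
  refine order3 ha hc h3 (fun t => t = x ∨ t = y ∨ t = z ∨ t = w ∨ t = c y ∨ t = a (c y)) ?_ ?_ ?_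
    ?_ (x := x) ?_
  · intro t ht ht'
    apply ht
    rcases ht' with e | e | e | e | e | e
    · have : t = z := by rw [← hc.sq t, e, hcx]
      exact Or.inr (Or.inr (Or.inl this))
    · have : t = c y := by rw [← hc.sq t, e]
      exact Or.inr (Or.inr (Or.inr (Or.inr (Or.inl this))))
    · have : t = x := by rw [← hc.sq t, e, hcz]
      exact Or.inl this
    · have : t = a (c y) := by rw [← hc.sq t, e, hcw]
      exact Or.inr (Or.inr (Or.inr (Or.inr (Or.inr (this)))))
    · have : t = y := c.injective e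
      exact Or.inr (Or.inl this)
    · have : t = w := by rw [← hc.sq t, e, hcaq]
      exact Or.inr (Or.inr (Or.inr (Or.inl this)))
  · intro t ht ht'
    apply ht
    rcases ht' with e | e | e | e | e | e
    · have : t = y := by rw [← ha.sq t, e, h.a1]
      exact Or.inr (Or.inl this)
    · have : t = x := by rw [← ha.sq t, e, h.a2]
      exact Or.inl this
    · have : t = w := by rw [← ha.sq t, e, h.a3]
      exact Or.inr (Or.inr (Or.inr (Or.inl this)))
    · have : t = z := by rw [← ha.sq t, e, h.a4]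
      exact Or.inr (Or.inr (Or.inl this))
    · have : t = a (c y) := by rw [← ha.sq t, e]
      exact Or.inr (Or.inr (Or.inr (Or.inr (Or.inr (this)))))
    · have : t = c y := a.injective e
      exact Or.inr (Or.inr (Or.inr (Or.inr (Or.inl this))))
  · intro t ht
    simp only [not_or] at ht
    exact (h.off t ht.1 ht.2.1 ht.2.2.1 ht.2.2.2.1).2.symm
  · rintro t (rfl | rfl | rfl | rfl | rfl | rfl)
    · rw [hcx, h.d4, dq, hcaq, h.d2]
    · rw [dq, hcaq, h.d2, hcx, h.d4]
    · rw [hcz, h.d1, hcw, daq, hc.sq, h.d3]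
    · rw [hcw, daq, hc.sq, h.d3, hcz, h.d1]
    · rw [hc.sq, h.d3, hcz, h.d1, hcw, daq]
    · rw [hcaq, h.d2, hcx, h.d4, dq]
  · rw [hcx, h.d4]
    exact h.xy.symm

private theorem casePath (ha : IsInv m a) (hc : IsInv m c) (h : K4 a b d x y z w)
    (h3 : orderOf (a * c) = 3) (hcx : c x = x) (hcz : c z = z) : orderOf (d * c) = 3 := by
  have hbr := braid ha.sq hc.sq (fun t => pow3 h3 t)
  have s1 : a (c y) = c y := by
    have := hbr x
    rw [h.a1, hcx, h.a1] at this
    exact this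
  have s2 : a (c w) = c w := by
    have := hbr z
    rw [h.a3, hcz, h.a3] at this
    exact this
  have n : ∀ t, a t = t → t ≠ x ∧ t ≠ y ∧ t ≠ z ∧ t ≠ w := by
    intro t ht
    refine ⟨?_, ?_, ?_, ?_⟩
    · rintro rfl; exact h.xy (by rw [← h.a1, ht])
    · rintro rfl; exact h.xy (by rw [← h.a2, ht])
    · rintro rfl; exact h.zw (by rw [← h.a3, ht])
    · rintro rfl; exact h.zw (by rw [← h.a4, ht])
  obtain ⟨u1, u2, u3, u4⟩ := n _ s1
  obtain ⟨v1, v2, v3, v4⟩ := n _ s2
  have d5 : d (c y) = c y := by rw [← (h.off _ u1 u2 u3 u4).2, s1]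
  have d6 : d (c w) = c w := by rw [← (h.off _ v1 v2 v3 v4).2, s2]
  refine order3 ha hc h3 (fun t => t = x ∨ t = y ∨ t = z ∨ t = w ∨ t = c y ∨ t = c w) ?_ ?_ ?_
    ?_ (x := x) ?_
  · intro t ht ht'
    apply ht
    rcases ht' with e | e | e | e | e | e
    · have : t = x := by rw [← hc.sq t, e, hcx]
      exact Or.inl this
    · have : t = c y := by rw [← hc.sq t, e]
      exact Or.inr (Or.inr (Or.inr (Or.inr (Or.inl this))))
    · have : t = z := by rw [← hc.sq t, e, hcz]
      exact Or.inr (Or.inr (Or.inl this))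
    · have : t = c w := by rw [← hc.sq t, e]
      exact Or.inr (Or.inr (Or.inr (Or.inr (Or.inr (this)))))
    · have : t = y := c.injective e
      exact Or.inr (Or.inl this)
    · have : t = w := c.injective e
      exact Or.inr (Or.inr (Or.inr (Or.inl this)))
  · intro t ht ht'
    apply ht
    rcases ht' with e | e | e | e | e | e
    · have : t = y := by rw [← ha.sq t, e, h.a1]
      exact Or.inr (Or.inl this)
    · have : t = x := by rw [← ha.sq t, e, h.a2]
      exact Or.inl this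
    · have : t = w := by rw [← ha.sq t, e, h.a3]
      exact Or.inr (Or.inr (Or.inr (Or.inl this)))
    · have : t = z := by rw [← ha.sq t, e, h.a4]
      exact Or.inr (Or.inr (Or.inl this))
    · have : t = c y := by rw [← ha.sq t, e, s1]
      exact Or.inr (Or.inr (Or.inr (Or.inr (Or.inl this))))
    · have : t = c w := by rw [← ha.sq t, e, s2]
      exact Or.inr (Or.inr (Or.inr (Or.inr (Or.inr (this)))))
  · intro t ht
    simp only [not_or] at ht
    exact (h.off t ht.1 ht.2.1 ht.2.2.1 ht.2.2.2.1).2.symm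
  · rintro t (rfl | rfl | rfl | rfl | rfl | rfl)
    · rw [hcx, h.d1, d6, hc.sq, h.d2]
    · rw [d5, hc.sq, h.d3, hcz, h.d4]
    · rw [hcz, h.d4, d5, hc.sq, h.d3]
    · rw [d6, hc.sq, h.d2, hcx, h.d1]
    · rw [hc.sq, h.d3, hcz, h.d4, d5]
    · rw [hc.sq, h.d2, hcx, h.d1, d6]
  · rw [hcx, h.d1]
    exact h.xw.symm

private theorem main3 (ha : IsInv m a) (hc : IsInv m c) (h : K4 a b d x y z w)
    (h3 : orderOf (a * c) = 3) :
    orderOf (b * c) = 3 ∨ orderOf (d * c) = 3 ∨ orderOf (b * c) = orderOf (d * c) := by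
  by_cases g1 : c x = z
  · exact Or.inr (Or.inl (caseV3 ha hc h h3 g1))
  by_cases g2 : c x = w
  · exact Or.inl (caseV3 ha hc h.flip2 h3 g2)
  by_cases g3 : c y = w
  · exact Or.inr (Or.inl (caseV3 ha hc h.flip1 h3 g3))
  by_cases g4 : c y = z
  · exact Or.inl (caseV3 ha hc h.flip2.flip1 h3 g4)
  have hbr := braid ha.sq hc.sq (fun t => pow3 h3 t)
  have hx : a x ≠ x := by rw [h.a1]; exact h.xy.symm
  have hz : a z ≠ z := by rw [h.a3]; exact h.zw.symm
  by_cases k1 : c x ≠ x ∧ c y ≠ y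
  · obtain ⟨ρ, r1, r2, r3, r4, r5⟩ := exists_rho ha.sq hc.sq hbr hx k1.1 (by rw [h.a1]; exact k1.2)
    rw [h.a1] at r3 r4 r5
    refine Or.inr (Or.inr (order_of_rho h.xy h.xz h.xw h.yz h.yw h.zw h.b1 h.b2 h.b3 h.b4 h.d1 h.d2
      h.d3 h.d4 h.off ρ r1 r2 r3 r4 ?_ ?_))
    · exact r5 z h.xz.symm h.yz.symm (Ne.symm g1) (Ne.symm g4) (by rw [h.a3]; exact Ne.symm g2)
        (by rw [h.a3]; exact Ne.symm g3)
    · exact r5 w h.xw.symm h.yw.symm (Ne.symm g2) (Ne.symm g3) (by rw [h.a4]; exact Ne.symm g1)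
        (by rw [h.a4]; exact Ne.symm g4)
  have i1 : c z ≠ x := fun e => g1 (by rw [← e, hc.sq])
  have i2 : c w ≠ x := fun e => g2 (by rw [← e, hc.sq])
  have i3 : c w ≠ y := fun e => g3 (by rw [← e, hc.sq])
  have i4 : c z ≠ y := fun e => g4 (by rw [← e, hc.sq])
  by_cases k2 : c z ≠ z ∧ c w ≠ w
  · obtain ⟨ρ, r1, r2, r3, r4, r5⟩ := exists_rho ha.sq hc.sq hbr hz k2.1 (by rw [h.a3]; exact k2.2)
    rw [h.a3] at r3 r4 r5
    have h' := h.rot
    refine Or.inr (Or.inr (order_of_rho h'.xy h'.xz h'.xw h'.yz h'.yw h'.zw h'.b1 h'.b2 h'.b3 h'.b4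
      h'.d1 h'.d2 h'.d3 h'.d4 h'.off ρ r1 r2 r3 r4 ?_ ?_))
    · exact r5 x h.xz h.xw (Ne.symm i1) (Ne.symm i2) (by rw [h.a1]; exact Ne.symm i4)
        (by rw [h.a1]; exact Ne.symm i3)
    · exact r5 y h.yz h.yw (Ne.symm i4) (Ne.symm i3) (by rw [h.a2]; exact Ne.symm i1)
        (by rw [h.a2]; exact Ne.symm i2)
  rw [not_and_or, not_not, not_not] at k1 k2
  rcases k1 with k1 | k1 <;> rcases k2 with k2 | k2
  · exact Or.inr (Or.inl (casePath ha hc h h3 k1 k2))
  · exact Or.inl (casePath ha hc h.flip2 h3 k1 k2)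
  · exact Or.inl (casePath ha hc h.flip2.flip1 h3 k1 k2)
  · exact Or.inr (Or.inl (casePath ha hc h.flip1 h3 k1 k2))

private theorem caseV2 (ha : IsInv m a) (hc : IsInv m c) (h : K4 a b d x y z w)
    (hac : ∀ t, a (c t) = c (a t)) (hcx : c x = z) : orderOf (d * c) = 2 := by
  have hcz : c z = x := by rw [← hcx, hc.sq]
  have hcy : c y = w := by rw [← h.a1, ← hac, hcx, h.a3]
  have hcw : c w = y := by rw [← hcy, hc.sq]
  refine orderOf_eq_prime ?_ ?_
  · ext1 t
    show ((d * c) ^ 2) t = t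
    have e : ((d * c) ^ 2) t = d (c (d (c t))) := by simp [pow_succ]
    rw [e]
    by_cases e1 : t = x
    · rw [e1, hcx, h.d4, hcy, h.d2]
    by_cases e2 : t = y
    · rw [e2, hcy, h.d2, hcx, h.d4]
    by_cases e3 : t = z
    · rw [e3, hcz, h.d1, hcw, h.d3]
    by_cases e4 : t = w
    · rw [e4, hcw, h.d3, hcz, h.d1]
    have f1 : c t ≠ x := fun f => e3 (by rw [← hc.sq t, f, hcx])
    have f2 : c t ≠ y := fun f => e4 (by rw [← hc.sq t, f, hcy])
    have f3 : c t ≠ z := fun f => e1 (by rw [← hc.sq t, f, hcz])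
    have f4 : c t ≠ w := fun f => e2 (by rw [← hc.sq t, f, hcw])
    have g1 : a t ≠ x := fun f => e2 (by rw [← ha.sq t, f, h.a1])
    have g2 : a t ≠ y := fun f => e1 (by rw [← ha.sq t, f, h.a2])
    have g3 : a t ≠ z := fun f => e4 (by rw [← ha.sq t, f, h.a3])
    have g4 : a t ≠ w := fun f => e3 (by rw [← ha.sq t, f, h.a4])
    rw [← (h.off _ f1 f2 f3 f4).2, ← hac, hc.sq, ← (h.off _ g1 g2 g3 g4).2, ha.sq]
  · intro e
    have := congrArg (fun f : Perm α => f x) e
    simp only [Perm.mul_apply, hcx, h.d4, Perm.one_apply] at this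
    exact h.xy this.symm

private theorem main2 (ha : IsInv m a) (hc : IsInv m c) (h : K4 a b d x y z w)
    (h2 : orderOf (a * c) = 2) :
    orderOf (b * c) = 2 ∨ orderOf (d * c) = 2 ∨ orderOf (b * c) = orderOf (d * c) := by
  have hac : ∀ t, a (c t) = c (a t) := by
    intro t
    have := ((orderOf_two_iff ha hc).1 h2).2
    have := congrArg (fun f : Perm α => f t) this
    simpa using this
  by_cases g1 : c x = z
  · exact Or.inr (Or.inl (caseV2 ha hc h hac g1))
  by_cases g2 : c x = w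
  · exact Or.inl (caseV2 ha hc h.flip2 hac g2)
  have hx : a x ≠ x := by rw [h.a1]; exact h.xy.symm
  obtain ⟨ρ, r1, r2, r3, r4, r5⟩ := exists_rho2 ha.sq hc.sq hac hx
  rw [h.a1] at r3 r4 r5
  refine Or.inr (Or.inr (order_of_rho h.xy h.xz h.xw h.yz h.yw h.zw h.b1 h.b2 h.b3 h.b4 h.d1 h.d2
    h.d3 h.d4 h.off ρ r1 r2 r3 r4 ?_ ?_))
  · exact r5 z h.xz.symm h.yz.symm (Ne.symm g1) (by rw [h.a3]; exact Ne.symm g2)
  · exact r5 w h.xw.symm h.yw.symm (Ne.symm g2) (by rw [h.a4]; exact Ne.symm g1)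

private theorem K4.two (ha : IsInv m a) (hb : IsInv m b) (h : K4 a b d x y z w) :
    orderOf (a * b) = 2 := by
  rw [orderOf_two_iff ha hb]
  refine ⟨?_, ?_⟩
  · rintro rfl
    exact h.yz (by rw [← h.a1, h.b1])
  · ext1 t
    show a (b t) = b (a t)
    by_cases e1 : t = x
    · rw [e1, h.b1, h.a1, h.a3, h.b3]
    by_cases e2 : t = y
    · rw [e2, h.b3, h.a2, h.a4, h.b1]
    by_cases e3 : t = z
    · rw [e3, h.b2, h.a3, h.a1, h.b4]
    by_cases e4 : t = w
    · rw [e4, h.b4, h.a4, h.a2, h.b2]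
    have f1 : a t ≠ x := fun f => e2 (by rw [← ha.sq t, f, h.a1])
    have f2 : a t ≠ y := fun f => e1 (by rw [← ha.sq t, f, h.a2])
    have f3 : a t ≠ z := fun f => e4 (by rw [← ha.sq t, f, h.a3])
    have f4 : a t ≠ w := fun f => e3 (by rw [← ha.sq t, f, h.a4])
    rw [← (h.off _ e1 e2 e3 e4).1, ← (h.off _ f1 f2 f3 f4).1]

private theorem K4.half (ha : IsInv m a) (hc : IsInv m c) (h : K4 a b d x y z w)
    (h2 : orderOf (a * c) = 2 ∨ orderOf (a * c) = 3) :
    TwoEq (orderOf (a * c)) (orderOf (b * c)) (orderOf (d * c)) := by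
  unfold TwoEq
  rcases h2 with h2 | h2
  · rcases main2 ha hc h h2 with h' | h' | h'
    · exact Or.inl (by rw [h2, h'])
    · exact Or.inr (Or.inr (by rw [h2, h']))
    · exact Or.inr (Or.inl h')
  · rcases main3 ha hc h h2 with h' | h' | h'
    · exact Or.inl (by rw [h2, h'])
    · exact Or.inr (Or.inr (by rw [h2, h']))
    · exact Or.inr (Or.inl h')

omit [Fintype α] [DecidableEq α] in
private theorem Klein.k4 (h : Klein a b d) : ∃ x y z w, K4 a b d x y z w := by
  obtain ⟨x, y, z, w, h1, h2, h3, h4, h5, h6, ⟨a1, a2, a3, a4⟩, ⟨b1, b2, b3, b4⟩,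
    ⟨d1, d2, d3, d4⟩, h⟩ := h
  exact ⟨x, y, z, w, h1, h2, h3, h4, h5, h6, a1, a2, a3, a4, b1, b2, b3, b4, d1, d2, d3, d4, h⟩

theorem Klein.good (h : Klein a b d) (ha : IsInv m a) (hb : IsInv m b) (hd : IsInv m d) :
    Good m a b d := by
  obtain ⟨x, y, z, w, h1⟩ := h.k4
  obtain ⟨x', y', z', w', h2⟩ := h.symm12.k4
  obtain ⟨x'', y'', z'', w'', h3⟩ := h.symm23.symm12.k4
  refine ⟨ha, hb, hd, h1.two ha hb, h1.flip2.two ha hd, ?_, ?_⟩
  · obtain ⟨x3, y3, z3, w3, h4⟩ := h.symm12.symm23.k4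
    exact h4.two hb hd
  · intro c hc hh
    have e1 := h1.half ha hc
    have e2 := h2.half hb hc
    have e3 := h3.half hd hc
    unfold TwoEq at *
    rcases hh with h | h | h | h | h | h
    · exact e1 (Or.inl h)
    · exact e1 (Or.inr h)
    · have := e2 (Or.inl h); tauto
    · have := e2 (Or.inr h); tauto
    · have := e3 (Or.inl h); tauto
    · have := e3 (Or.inr h); tauto

end

end Pool.Agent.Helper2.AN
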