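import Pool.Agent.Helper2.AN.Supp
import Pool.Agent.Helper2.AN.Kl
import Pool.Agent.Helper2.AN.Conn
import Pool.Agent.Helper2.AN.Crit
import Pool.Agent.Helper2.AN.John

/-!
# Block AN-FTWO: colour automorphisms, at least two fixed points
-/

namespace Pool.Agent.Helper2.AN

open Equiv

variable {α : Type*} [Fintype α] [DecidableEq α]

theorem ais {β : Type*} (e : Perm β) (x : β) : e (e⁻¹ x) = x := e.apply_symm_apply x

theorem ias {β : Type*} (e : Perm β) (x : β) : e⁻¹ (e x) = x := e.symm_apply_apply x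

/-- the vertices -/
abbrev Vt (α : Type*) [Fintype α] [DecidableEq α] (m : ℕ) := {a : Perm α // IsInv m a}

section

variable {m : ℕ} {τ : Perm (Vt α m)}

/-- preserves all colours -/
def Col (τ : Perm (Vt α m)) : Prop :=
  ∀ a b : Vt α m, orderOf ((τ a : Perm α) * (τ b : Perm α)) = orderOf ((a : Perm α) * (b : Perm α))

theorem Col.symm (h : Col τ) : Col τ⁻¹ := by
  intro a b
  have := h (τ⁻¹ a) (τ⁻¹ b)
  rw [ais, ais] at this
  exact this.symm

theorem Col.good (h : Col τ) {a b d : Vt α m} (hg : Good m (a : Perm α) b d) :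
    Good m (τ a : Perm α) (τ b) (τ d) := by
  obtain ⟨ha, hb, hd, hab, had, hbd, hc⟩ := hg
  refine ⟨(τ a).2, (τ b).2, (τ d).2, ?_, ?_, ?_, ?_⟩
  · rw [h]; exact hab
  · rw [h]; exact had
  · rw [h]; exact hbd
  · intro c hc' hor
    have e : c = (τ (τ⁻¹ ⟨c, hc'⟩) : Perm α) := by rw [ais]
    rw [e] at hor ⊢
    rw [h, h, h] at hor ⊢
    exact hc _ (τ⁻¹ ⟨c, hc'⟩).2 hor

theorem Col.supp (h : Col τ) (hm : 2 ≤ m) (hf : 2 * m + 2 ≤ Fintype.card α)
    (hne : ¬ (m = 2 ∧ Fintype.card α = 6)) {a b : Vt α m}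
    (hS : (a : Perm α).support = (b : Perm α).support) :
    (τ a : Perm α).support = (τ b : Perm α).support := by
  have key : ∀ u v : Perm α, Relation.ReflTransGen (Step m) u v → ∀ (hu : IsInv m u) (hv : IsInv m v),
      (τ ⟨u, hu⟩ : Perm α).support = (τ ⟨v, hv⟩ : Perm α).support := by
    intro u v huv
    induction huv with
    | refl => intro hu hv; rfl
    | tail h1 h2 ih =>
      intro hu hv
      obtain ⟨hb, hc, d, hd, hk⟩ := h2
      rw [ih hu hb]
      have hg : Good m ((⟨_, hb⟩ : Vt α m) : Perm α) (⟨_, hc⟩ : Vt α m) (⟨d, hd⟩ : Vt α m) :=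
        hk.good hb hc hd
      exact (h.good hg).support_eq hm hf hne
  exact key a b (conn a.2 b.2 hS) a.2 b.2

open Classical in
/-- the induced map of the supports -/
noncomputable def sup (τ : Perm (Vt α m)) (S : Finset α) : Finset α :=
  if h : ∃ a : Perm α, IsInv m a ∧ a.support = S then
    (τ ⟨h.choose, h.choose_spec.1⟩ : Perm α).support else ∅

theorem Col.sup_eq (h : Col τ) (hm : 2 ≤ m) (hf : 2 * m + 2 ≤ Fintype.card α)
    (hne : ¬ (m = 2 ∧ Fintype.card α = 6)) (a : Vt α m) :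
    sup τ (a : Perm α).support = (τ a : Perm α).support := by
  have hx : ∃ b : Perm α, IsInv m b ∧ b.support = (a : Perm α).support := ⟨a, a.2, rfl⟩
  unfold sup
  rw [dif_pos hx]
  exact h.supp hm hf hne hx.choose_spec.2

theorem Col.joh (h : Col τ) (hm : 2 ≤ m) (hf : 2 * m + 2 ≤ Fintype.card α)
    (hne : ¬ (m = 2 ∧ Fintype.card α = 6)) : Joh (2 * m) (sup τ) (sup τ⁻¹) := by
  have hsup := h.sup_eq hm hf hne
  have hsup' := h.symm.sup_eq hm hf hne
  have hcard : ∀ S : Finset α, S.card = 2 * m → (sup τ S).card = 2 * m := by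
    intro S hS
    obtain ⟨a, ha, rfl⟩ := exists_inv m S hS
    rw [hsup ⟨a, ha⟩]
    exact (τ ⟨a, ha⟩).2.2
  have hinv : ∀ S : Finset α, S.card = 2 * m → sup τ⁻¹ (sup τ S) = S := by
    intro S hS
    obtain ⟨a, ha, rfl⟩ := exists_inv m S hS
    rw [hsup ⟨a, ha⟩, hsup', ias]
  -- transfer of statements
  have hpull : ∀ S : Finset α, S.card = 2 * m → ∀ a' : Perm α, IsInv m a' → a'.support = sup τ S →
      ∃ a : Vt α m, (a : Perm α).support = S ∧ (τ a : Perm α) = a' := by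
    intro S hS a' ha' haS
    refine ⟨τ⁻¹ ⟨a', ha'⟩, ?_, by rw [ais]⟩
    have := hsup' ⟨a', ha'⟩
    rw [← this]
    show sup τ⁻¹ a'.support = S
    rw [haS, hinv S hS]
  have hadj : ∀ S T : Finset α, S.card = 2 * m → T.card = 2 * m → (S \ T).card = 1 →
      (sup τ S \ sup τ T).card = 1 := by
    intro S T hS hT hST
    have hneST : S ≠ T := by
      rintro rfl
      rw [Finset.sdiff_self, Finset.card_empty] at hST
      exact absurd hST (by omega)
    have hneST' : sup τ S ≠ sup τ T := by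
      intro he
      have := hinv S hS
      rw [he, hinv T hT] at this
      exact hneST this.symm
    rw [← adj_iff (hcard S hS) (hcard T hT) hneST']
    intro a' ha' haS'
    obtain ⟨a, haS, rfl⟩ := hpull S hS a' ha' haS'
    obtain ⟨b, hb, hbT, h3⟩ := (adj_iff hS hT hneST).2 hST a a.2 haS
    refine ⟨τ ⟨b, hb⟩, (τ ⟨b, hb⟩).2, ?_, ?_⟩
    · rw [← hbT]
      exact (hsup ⟨b, hb⟩).symm
    · rw [h]
      exact h3
  refine ⟨hcard, hinv, hadj, ?_⟩
  intro S T U hS hT hU hST hSU hTU hsub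
  rw [← type_iff hm (hcard S hS) (hcard T hT) (hcard U hU) (hadj S T hS hT hST)
    (hadj S U hS hU hSU) (hadj T U hT hU hTU)]
  intro a' b' ha' haS' hb' hbT' h3
  obtain ⟨a, haS, rfl⟩ := hpull S hS a' ha' haS'
  obtain ⟨b, hbT, rfl⟩ := hpull T hT b' hb' hbT'
  rw [h] at h3
  obtain ⟨c, hc, hcU, h4, h5⟩ := (type_iff hm hS hT hU hST hSU hTU).2 hsub a b a.2 haS b.2 hbT h3
  refine ⟨τ ⟨c, hc⟩, (τ ⟨c, hc⟩).2, ?_, ?_, ?_⟩
  · rw [← hcU]
    exact (hsup ⟨c, hc⟩).symm
  · rw [h]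
    exact h4
  · rw [h]
    exact h5

/-- Colour automorphisms come from permutations of the points: at least two fixed points. -/
theorem Col.exists_conj_two (h : Col τ) (hm : 2 ≤ m) (hf : 2 * m + 2 ≤ Fintype.card α)
    (hne : ¬ (m = 2 ∧ Fintype.card α = 6)) :
    ∃ g : Perm α, ∀ a : Vt α m, (τ a : Perm α) = g * (a : Perm α) * g⁻¹ := by
  obtain ⟨k, hk⟩ : ∃ k, 2 * m = k + 1 := ⟨2 * m - 1, by omega⟩
  have h1 : Joh (k + 1) (sup τ) (sup τ⁻¹) := hk ▸ h.joh hm hf hne
  have h2 : Joh (k + 1) (sup τ⁻¹) (sup τ) := by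
    have := h.symm.joh hm hf hne
    rw [inv_inv] at this
    exact hk ▸ this
  obtain ⟨g, hg⟩ := Joh.exists_perm k (by omega) h1 h2
  have hsupp : ∀ a : Vt α m, (τ a : Perm α).support = (a : Perm α).support.map g.toEmbedding := by
    intro a
    rw [← h.sup_eq hm hf hne, hg _ (a.2.2.trans hk)]
  have hfix : ∀ (a : Vt α m) (t : α), (τ a : Perm α) (g t) = g t ↔ (a : Perm α) t = t := by
    intro a t
    rw [← Perm.notMem_support, ← Perm.notMem_support, hsupp]
    simp
  refine ⟨g, fun a => ?_⟩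
  have main : ∀ t, (τ a : Perm α) (g t) = g ((a : Perm α) t) := by
    intro i
    by_cases hi : (a : Perm α) i = i
    · rw [hi]
      exact (hfix a i).2 hi
    have hc : 1 < ((a : Perm α).supportᶜ).card := by
      rw [Finset.card_compl, a.2.2]
      omega
    obtain ⟨k', hk', l', hl', hkl⟩ := Finset.one_lt_card.1 hc
    rw [Finset.mem_compl, Perm.notMem_support] at hk' hl'
    have hj : (a : Perm α) ((a : Perm α) i) ≠ (a : Perm α) i := by
      rw [a.2.sq]
      exact fun h => hi h.symm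
    have hij : i ≠ (a : Perm α) i := fun h => hi h.symm
    obtain ⟨b, hb, hbs, h2⟩ := (edge_iff a.2 hi hj hij hk' hl' hkl).2 rfl
    refine (edge_iff (τ a).2 (mt (hfix a i).1 hi) (mt (hfix a _).1 hj) (g.injective.ne hij)
      ((hfix a k').2 hk') ((hfix a l').2 hl') (g.injective.ne hkl)).1
      ⟨τ ⟨b, hb⟩, (τ ⟨b, hb⟩).2, ?_, by rw [h]; exact h2⟩
    rw [hsupp, hsupp]
    show b.support.map g.toEmbedding = _
    rw [hbs]
    ext t
    obtain ⟨u, rfl⟩ := g.surjective t
    simp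
  ext t
  rw [Perm.mul_apply, Perm.mul_apply]
  have := main (g⁻¹ t)
  rw [ais] at this
  exact this

end

end Pool.Agent.Helper2.AN
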