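import Pool.Agent.Helper2.AN.N8

/-!
# Block AN-N8b: the fixed point free class of degree eight
-/

namespace Pool.Agent.Helper2.AN

open Equiv

theorem mem_C8 (x : Vt (Fin 8) 4) : lv x ∈ C8 := by
  unfold C8
  rw [List.mem_filter]
  refine ⟨mem_allL x.2.sq, ?_⟩
  rw [List.all_eq_true]
  rintro ⟨p, i⟩ hp
  rw [List.mem_zipIdx_iff_getElem?] at hp
  have hs : (x : Perm (Fin 8)).support = Finset.univ := by
    rw [← Finset.card_eq_iff_eq_univ, x.2.2]
    rfl
  unfold lv toL at hp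
  rw [List.getElem?_ofFn] at hp
  simp only at hp
  split_ifs at hp with h1
  have h2 : (⟨i, h1⟩ : Fin 8) ∈ (x : Perm (Fin 8)).support := by rw [hs]; exact Finset.mem_univ _
  rw [Perm.mem_support] at h2
  simp only [Option.some.injEq] at hp
  simp only [bne_iff_ne, ne_eq]
  intro h3
  apply h2
  ext
  exact hp.trans h3

/-- the colour automorphisms of the fixed point free class of degree eight are conjugations -/
theorem Col.exists_conj_eight {τ : Perm (Vt (Fin 8) 4)} (h : Col τ) :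
    ∃ g : Perm (Fin 8), ∀ a : Vt (Fin 8) 4, (τ a : Perm (Fin 8)) = g * (a : Perm (Fin 8)) * g⁻¹ := by
  obtain ⟨B1, hB1⟩ := exists_vt (n := 8) (m := 4) (l := b1) (by decide) (by decide) (by decide)
  obtain ⟨B2, hB2⟩ := exists_vt (n := 8) (m := 4) (l := b2) (by decide) (by decide) (by decide)
  obtain ⟨B3, hB3⟩ := exists_vt (n := 8) (m := 4) (l := b3) (by decide) (by decide) (by decide)
  obtain ⟨R1, hR1⟩ := exists_vt (n := 8) (m := 4) (l := r1) (by decide) (by decide) (by decide)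
  obtain ⟨R2, hR2⟩ := exists_vt (n := 8) (m := 4) (l := r2) (by decide) (by decide) (by decide)
  obtain ⟨S1, hS1⟩ := exists_vt (n := 8) (m := 4) (l := s1) (by decide) (by decide) (by decide)
  obtain ⟨S2, hS2⟩ := exists_vt (n := 8) (m := 4) (l := s2) (by decide) (by decide) (by decide)
  obtain ⟨S3, hS3⟩ := exists_vt (n := 8) (m := 4) (l := s3) (by decide) (by decide) (by decide)
  obtain ⟨S4, hS4⟩ := exists_vt (n := 8) (m := 4) (l := s4) (by decide) (by decide) (by decide)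
  let P : Perm (Vt (Fin 8) 4) → Prop := fun τ =>
    ∃ g : Perm (Fin 8), ∀ a : Vt (Fin 8) 4, (τ a : Perm (Fin 8)) = g * (a : Perm (Fin 8)) * g⁻¹
  have hP : ∀ (g : Perm (Fin 8)) (σ : Perm (Vt (Fin 8) 4)), P (cjV g * σ) → P σ := by
    rintro g σ ⟨k, hk⟩
    refine ⟨g⁻¹ * k, fun a => ?_⟩
    have h1 := hk a
    rw [Perm.mul_apply, cjV_apply] at h1
    calc (σ a : Perm (Fin 8)) = g⁻¹ * (g * (σ a : Perm (Fin 8)) * g⁻¹) * g := by group
      _ = g⁻¹ * k * (a : Perm (Fin 8)) * (g⁻¹ * k)⁻¹ := by rw [h1]; group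
  change P τ
  -- first stage
  obtain ⟨g, hg⟩ := IsInv.exists_conj (τ B1).2 B1.2
  apply hP g
  have h1 : Col (cjV g * τ) := (col_cjV g).mul h
  have hf1 : (cjV g * τ : Perm (Vt (Fin 8) 4)) B1 = B1 := Subtype.ext (by rw [Perm.mul_apply, cjV_apply, hg])
  generalize cjV g * τ = τ₁ at h1 hf1 ⊢
  -- second stage
  obtain ⟨τ₂, h2, hf2, hb2, hP2⟩ := h1.stage hP mem_C8 (G := G2) (F := [B1]) (B := B2)
    (by simpa using hf1) (by
      simp only [List.map_cons, List.map_nil, hB1, hB2, List.mem_cons, List.not_mem_nil, or_false,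
        forall_eq]
      exact chk2)
  apply hP2
  have hb1 : τ₂ B1 = B1 := hf2 B1 (by simp)
  -- third stage
  obtain ⟨τ₃, h3, hf3, hb3, hP3⟩ := h2.stage hP mem_C8 (G := G3) (F := [B1, B2]) (B := B3)
    (by simpa using ⟨hb1, hb2⟩) (by
      simp only [List.map_cons, List.map_nil, hB1, hB2, hB3, List.mem_cons, List.not_mem_nil,
        or_false, forall_eq_or_imp, forall_eq]
      intro x hx hs
      obtain ⟨g, hg, k1, k2, k3, k4⟩ := chk3 x hx hs
      exact ⟨g, hg, k1, ⟨k2, k3⟩, k4⟩)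
  apply hP3
  have hc1 : τ₃ B1 = B1 := hf3 B1 (by simp)
  have hc2 : τ₃ B2 = B2 := hf3 B2 (by simp)
  -- fourth stage
  have hr : ∀ R : Vt (Fin 8) 4, lv R ∈ [r1, r2] → τ₃ R = R := by
    intro R hR
    refine h3.fixes mem_C8 (F := [B1, B2, B3]) (by simpa using ⟨hc1, hc2, hb3⟩) ?_
    simp only [List.map_cons, List.map_nil, hB1, hB2, hB3]
    exact fun x hx => chk4 x hx _ hR
  have hs : ∀ S : Vt (Fin 8) 4, lv S ∈ [s1, s2, s3, s4] → τ₃ S = S := by
    intro S hS
    refine h3.fixes mem_C8 (F := [B1, B2, B3, R1, R2])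
      (by simpa using ⟨hc1, hc2, hb3, hr R1 (by simp [hR1]), hr R2 (by simp [hR2])⟩) ?_
    simp only [List.map_cons, List.map_nil, hB1, hB2, hB3, hR1, hR2]
    exact fun x hx => chk5 x hx _ hS
  have h1 : τ₃ = 1 := by
    refine h3.eq_one mem_C8 (F := [B1, B2, S1, S2, B3, S3, S4])
      (by simpa using ⟨hc1, hc2, hs S1 (by simp [hS1]), hs S2 (by simp [hS2]), hb3,
        hs S3 (by simp [hS3]), hs S4 (by simp [hS4])⟩) ?_
    simp only [List.map_cons, List.map_nil, hB1, hB2, hB3, hS1, hS2, hS3, hS4]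
    exact chk6
  exact ⟨1, fun a => by rw [h1]; simp⟩

end Pool.Agent.Helper2.AN
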