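import Pool.Agent.Helper2.AN.N6b
import Pool.Agent.Helper2.AN.N8b

/-!
# Block AN-FINAL: all conjugacy classes of involutions of all alternating groups
-/

namespace Pool.Agent.Helper2.AN

open Equiv

theorem alt_six {a₀ : alternatingGroup (Fin 6)} (h₀ : IsInv 2 (a₀ : Perm (Fin 6)))
    (τ : Perm {a : alternatingGroup (Fin 6) // IsConj a₀ a})
    (hτ : ∀ a b, orderOf ((τ a : alternatingGroup (Fin 6)) * (τ b : alternatingGroup (Fin 6))) =
      orderOf ((a : alternatingGroup (Fin 6)) * (b : alternatingGroup (Fin 6)))) :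
    ∃ φ : MulAut (alternatingGroup (Fin 6)), ∀ a, (τ a : alternatingGroup (Fin 6)) = φ a := by
  let e := clsEquiv h₀ (by norm_num)
  let τ' : Perm (Vt (Fin 6) 2) := (e.symm.trans τ).trans e
  have hord : ∀ u v : alternatingGroup (Fin 6),
      orderOf ((u : Perm (Fin 6)) * (v : Perm (Fin 6))) = orderOf (u * v) := by
    intro u v
    rw [← Subgroup.orderOf_coe]
    rfl
  have hcol : Col τ' := by
    intro a b
    have h1 := hτ (e.symm a) (e.symm b)
    rw [← hord, ← hord] at h1
    exact h1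
  obtain ⟨φ, hφ⟩ := hcol.exists_aut_six
  exact ⟨φ, fun a => hφ (e a)⟩

theorem alt_all {n : ℕ} (hn : 5 ≤ n) {a₀ : alternatingGroup (Fin n)} (h₀ : orderOf a₀ = 2)
    (τ : Perm {a : alternatingGroup (Fin n) // IsConj a₀ a})
    (hτ : ∀ a b, orderOf ((τ a : alternatingGroup (Fin n)) * (τ b : alternatingGroup (Fin n))) =
      orderOf ((a : alternatingGroup (Fin n)) * (b : alternatingGroup (Fin n)))) :
    ∃ φ : MulAut (alternatingGroup (Fin n)), ∀ a, (τ a : alternatingGroup (Fin n)) = φ a := by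
  have h1 : orderOf (a₀ : Perm (Fin n)) = 2 := by rw [Subgroup.orderOf_coe, h₀]
  obtain ⟨m, hm⟩ := exists_isInv h1
  have hsgn : (-1 : ℤˣ) ^ m = 1 := by
    rw [← hm.sign]
    exact Perm.mem_alternatingGroup.1 a₀.2
  have heven : Even m := by
    by_contra h
    rw [Nat.not_even_iff_odd] at h
    rw [h.neg_one_pow] at hsgn
    exact absurd hsgn (by decide)
  obtain ⟨k, hk⟩ := heven
  have hm0 : m ≠ 0 := by
    rintro rfl
    have h2 : (a₀ : Perm (Fin n)).support = ∅ := by
      rw [← Finset.card_eq_zero, hm.2]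
    rw [Perm.support_eq_empty_iff] at h2
    rw [h2, orderOf_one] at h1
    exact absurd h1 (by norm_num)
  have hle : 2 * m ≤ n := by
    rw [← hm.2]
    exact (Finset.card_le_univ _).trans_eq (Fintype.card_fin n)
  by_cases h6 : m = 2 ∧ n = 6
  · obtain ⟨rfl, rfl⟩ := h6
    exact alt_six hm τ hτ
  by_cases h8 : m = 4 ∧ n = 8
  · obtain ⟨rfl, rfl⟩ := h8
    exact alt_core hm (by norm_num) (fun τ h => h.exists_conj_eight) τ hτ
  · refine alt_core hm (by omega) (fun τ h => ?_) τ hτ
    refine col_general h (by omega) (by rw [Fintype.card_fin]; exact hle) ?_ ?_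
    · rw [Fintype.card_fin]
      exact h6
    · rw [Fintype.card_fin]
      omega

end Pool.Agent.Helper2.AN
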