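import Pool.Agent.Helper2.AN.Stage

/-!
# Block AN-N6: data for the double transpositions of degree six
-/

namespace Pool.Agent.Helper2.AN

open Equiv

/-- double transpositions of six points -/
def C6 : List (List ℕ) := (allL 6).filter fun l =>
  ((List.finRange 6).filter fun i => l.getD i.val 0 ≠ i.val).length = 2 * 2

/-- one of the reference involutions -/
def d1 : List ℕ := [0, 1, 3, 2, 5, 4]

/-- one of the reference involutions -/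
def d2 : List ℕ := [0, 2, 1, 4, 3, 5]

/-- one of the reference involutions -/
def d3 : List ℕ := [0, 1, 4, 5, 2, 3]

/-- one of the reference involutions -/
def d4 : List ℕ := [1, 0, 3, 2, 4, 5]

/-- one of the reference involutions -/
def e1 : List ℕ := [1, 0, 2, 3, 5, 4]

/-- one of the reference involutions -/
def e2 : List ℕ := [2, 4, 0, 3, 1, 5]

/-- coset representatives -/
def H2 : List (List ℕ) := [[0, 1, 2, 3, 4, 5],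
  [0, 1, 2, 3, 5, 4],
  [0, 1, 3, 2, 4, 5],
  [0, 1, 3, 2, 5, 4],
  [0, 1, 4, 5, 2, 3],
  [0, 1, 4, 5, 3, 2],
  [0, 1, 5, 4, 2, 3],
  [0, 1, 5, 4, 3, 2],
  [1, 0, 2, 3, 4, 5],
  [1, 0, 2, 3, 5, 4],
  [1, 0, 3, 2, 4, 5],
  [1, 0, 3, 2, 5, 4],
  [1, 0, 4, 5, 2, 3],
  [1, 0, 4, 5, 3, 2],
  [1, 0, 5, 4, 2, 3],
  [1, 0, 5, 4, 3, 2]]

/-- the pairs exchanged by the exceptional automorphism -/
def tb : List (List ℕ × List ℕ) := [([0, 1, 4, 5, 2, 3], [1, 0, 3, 2, 4, 5]),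
  ([0, 1, 5, 4, 3, 2], [1, 0, 2, 3, 5, 4]),
  ([0, 2, 1, 3, 5, 4], [3, 5, 2, 0, 4, 1]),
  ([0, 2, 1, 5, 4, 3], [4, 1, 5, 3, 0, 2]),
  ([0, 3, 2, 1, 5, 4], [2, 4, 0, 3, 1, 5]),
  ([0, 3, 4, 1, 2, 5], [5, 1, 2, 4, 3, 0]),
  ([0, 4, 3, 2, 1, 5], [5, 2, 1, 3, 4, 0]),
  ([0, 4, 5, 3, 1, 2], [3, 1, 4, 0, 2, 5]),
  ([0, 5, 2, 4, 3, 1], [2, 1, 0, 5, 4, 3]),
  ([0, 5, 3, 2, 4, 1], [4, 3, 2, 1, 0, 5]),
  ([1, 0, 2, 4, 3, 5], [4, 5, 2, 3, 0, 1]),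
  ([1, 0, 2, 5, 4, 3], [3, 2, 1, 0, 4, 5]),
  ([1, 0, 4, 3, 2, 5], [2, 3, 0, 1, 4, 5]),
  ([1, 0, 5, 3, 4, 2], [5, 4, 2, 3, 1, 0]),
  ([2, 1, 0, 3, 5, 4], [4, 2, 1, 3, 0, 5]),
  ([2, 1, 0, 4, 3, 5], [3, 1, 5, 0, 4, 2]),
  ([2, 5, 0, 3, 4, 1], [5, 1, 3, 2, 4, 0]),
  ([3, 1, 2, 0, 5, 4], [5, 3, 2, 1, 4, 0]),
  ([3, 4, 2, 0, 1, 5], [4, 1, 3, 2, 0, 5]),
  ([4, 1, 2, 5, 0, 3], [5, 1, 4, 3, 2, 0])]

/-- the exceptional automorphism -/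
def tbl (l : List ℕ) : List ℕ :=
  match tb.find? fun p => p.1 = l ∨ p.2 = l with
  | some p => if p.1 = l then p.2 else p.1
  | none => l

theorem kh2 : ∀ x ∈ C6, sg 6 [d1] x = sg 6 [d1] d2 → ∃ g ∈ H2, okL 6 g = true ∧ cmp g d1 = cmp d1 g ∧
    cmp g d2 = cmp x g := by
  decide +kernel

theorem kh3 : ∀ x ∈ C6, sg 6 [d1, d2] x = sg 6 [d1, d2] d3 → x = d3 ∨ x = d4 := by
  decide +kernel

theorem kh4 : ∀ x ∈ C6, ∀ r ∈ [e1, e2], sg 6 [d1, d2, d3] x = sg 6 [d1, d2, d3] r → x = r := by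
  decide +kernel

theorem kh5 : (C6.map (sg 6 [d1, d2, d3, e1, e2])).Nodup := by
  decide +kernel

theorem kt1 : ∀ x ∈ C6, okL 6 (tbl x) = true ∧ cmp (tbl x) (tbl x) = idL 6 ∧
    ((List.finRange 6).filter fun i => (tbl x).getD i.val 0 ≠ i.val).length = 2 * 2 ∧
    tbl (tbl x) = x := by
  decide +kernel

theorem kt2 : ∀ x ∈ C6, ∀ y ∈ C6, tbl (cmp x (cmp y x)) = cmp (tbl x) (cmp (tbl y) (tbl x)) := by
  decide +kernel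

theorem kt3 : tbl d1 = d1 ∧ tbl d2 = d2 ∧ tbl d4 = d3 := by
  decide +kernel

end Pool.Agent.Helper2.AN
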