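import Mathlib

/-!
# Block AN-QD: permutations of a class which respect conjugation are restrictions of automorphisms
-/

namespace Pool.Agent.Helper2.AN

variable {L : Type*} [Group L] {D : Set L}

/-- the action of the group on a conjugation invariant set -/
noncomputable def cj (hD : ∀ g : L, ∀ a ∈ D, g * a * g⁻¹ ∈ D) : L →* Equiv.Perm D where
  toFun g :=
    { toFun := fun a => ⟨g * a * g⁻¹, hD g a a.2⟩
      invFun := fun a => ⟨g⁻¹ * a * g, by
        have := hD g⁻¹ a a.2
        rwa [inv_inv] at this⟩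
      left_inv := fun a => by
        apply Subtype.ext
        show g⁻¹ * (g * a * g⁻¹) * g = a
        group
      right_inv := fun a => by
        apply Subtype.ext
        show g * (g⁻¹ * a * g) * g⁻¹ = a
        group }
  map_one' := by
    ext a
    show (1 : L) * a * 1⁻¹ = a
    simp
  map_mul' g h := by
    ext a
    show g * h * a * (g * h)⁻¹ = g * (h * a * h⁻¹) * g⁻¹
    group

theorem cj_apply (hD : ∀ g : L, ∀ a ∈ D, g * a * g⁻¹ ∈ D) (g : L) (a : D) :
    (cj hD g a : L) = g * a * g⁻¹ := rfl

theorem closure_top [IsSimpleGroup L] (hD : ∀ g : L, ∀ a ∈ D, g * a * g⁻¹ ∈ D)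
    (hne : ∃ a ∈ D, a ≠ 1) : Subgroup.closure D = ⊤ := by
  have hn : (Subgroup.closure D).Normal := by
    refine ⟨fun x hx g => ?_⟩
    induction hx using Subgroup.closure_induction with
    | mem x hx => exact Subgroup.subset_closure (hD g x hx)
    | one => simp
    | mul x y _ _ h1 h2 =>
      have : g * (x * y) * g⁻¹ = (g * x * g⁻¹) * (g * y * g⁻¹) := by group
      rw [this]
      exact mul_mem h1 h2
    | inv x _ h1 =>
      have : g * x⁻¹ * g⁻¹ = (g * x * g⁻¹)⁻¹ := by group
      rw [this]
      exact inv_mem h1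
  obtain ⟨a, ha, ha1⟩ := hne
  rcases hn.eq_bot_or_eq_top with h | h
  · exfalso
    have : a ∈ Subgroup.closure D := Subgroup.subset_closure ha
    rw [h, Subgroup.mem_bot] at this
    exact ha1 this
  · exact h

theorem cj_injective [IsSimpleGroup L] (hD : ∀ g : L, ∀ a ∈ D, g * a * g⁻¹ ∈ D)
    (hne : ∃ a ∈ D, a ≠ 1) (hnc : ∃ x y : L, x * y ≠ y * x) : Function.Injective (cj hD) := by
  rw [← MonoidHom.ker_eq_bot_iff]
  rcases (cj hD).normal_ker.eq_bot_or_eq_top with h | h
  · exact h
  · exfalso
    obtain ⟨x, y, hxy⟩ := hnc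
    have hcen : ∀ g : L, ∀ a ∈ D, g * a = a * g := by
      intro g a ha
      have h1 : g ∈ (cj hD).ker := by rw [h]; exact Subgroup.mem_top g
      have h2 : (cj hD g) ⟨a, ha⟩ = ⟨a, ha⟩ := by
        rw [MonoidHom.mem_ker.1 h1]
        rfl
      have h3 : g * a * g⁻¹ = a := congrArg Subtype.val h2
      exact mul_inv_eq_iff_eq_mul.1 h3
    apply hxy
    have key : ∀ u ∈ Subgroup.closure D, u * y = y * u := by
      intro u hu
      induction hu using Subgroup.closure_induction with
      | mem u hu => exact (hcen y u hu).symm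
      | one => simp
      | mul u v _ _ h1 h2 => rw [mul_assoc, h2, ← mul_assoc, h1, mul_assoc]
      | inv u _ h1 =>
        calc u⁻¹ * y = u⁻¹ * (y * u) * u⁻¹ := by group
          _ = y * u⁻¹ := by rw [← h1]; group
    exact key x (by
      rw [closure_top hD hne]
      exact Subgroup.mem_top x)

/-- A permutation of a generating class which respects conjugation extends to the group. -/
theorem extend_of_conj [IsSimpleGroup L] [Finite L] (hD : ∀ g : L, ∀ a ∈ D, g * a * g⁻¹ ∈ D)
    (hne : ∃ a ∈ D, a ≠ 1) (hnc : ∃ x y : L, x * y ≠ y * x) (τ : Equiv.Perm D)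
    (hτ : ∀ a b : D, τ (cj hD a b) = cj hD (τ a : L) (τ b)) :
    ∃ φ : MulAut L, ∀ a : D, φ a = (τ a : L) := by
  have hinj := cj_injective hD hne hnc
  have hex : ∀ g : L, ∃ g' : L, cj hD g' = τ * cj hD g * τ⁻¹ := by
    intro g
    have hg : g ∈ Subgroup.closure D := by
      rw [closure_top hD hne]
      exact Subgroup.mem_top g
    induction hg using Subgroup.closure_induction with
    | mem x hx =>
      refine ⟨τ ⟨x, hx⟩, ?_⟩
      rw [eq_mul_inv_iff_mul_eq]
      ext1 b
      exact (hτ ⟨x, hx⟩ b).symm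
    | one => exact ⟨1, by simp⟩
    | mul u v _ _ h1 h2 =>
      obtain ⟨u', hu⟩ := h1
      obtain ⟨v', hv⟩ := h2
      refine ⟨u' * v', ?_⟩
      rw [map_mul, map_mul, hu, hv]
      group
    | inv u _ h1 =>
      obtain ⟨u', hu⟩ := h1
      refine ⟨u'⁻¹, ?_⟩
      rw [map_inv, map_inv, hu]
      group
  choose f hf using hex
  have hmul : ∀ x y, f (x * y) = f x * f y := by
    intro x y
    apply hinj
    rw [map_mul, hf, hf, hf, map_mul]
    group
  have hfi : Function.Injective f := by
    intro x y hxy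
    apply hinj
    have h1 := hf x
    rw [hxy, hf y] at h1
    exact (mul_left_cancel (mul_right_cancel h1)).symm
  let F : L →* L := MonoidHom.mk' f hmul
  refine ⟨MulEquiv.ofBijective F (Finite.injective_iff_bijective.1 hfi), fun a => ?_⟩
  show f a = (τ a : L)
  apply hinj
  rw [hf, mul_inv_eq_iff_eq_mul]
  ext1 b
  exact hτ a b

end Pool.Agent.Helper2.AN
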