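import Pool.Agent.Helper2.AN.N6
import Pool.Agent.Helper2.AN.Qd

/-!
# Block AN-N6b: the double transpositions of degree six
-/

namespace Pool.Agent.Helper2.AN

open Equiv

theorem support_toL {n : ℕ} (g : Perm (Fin n)) :
    g.support = ((List.finRange n).filter fun i => (toL g).getD i.val 0 ≠ i.val).toFinset := by
  ext i
  rw [List.mem_toFinset, List.mem_filter, Perm.mem_support]
  unfold toL
  simp [Fin.ext_iff]

theorem mem_C6 (x : Vt (Fin 6) 2) : lv x ∈ C6 := by
  unfold C6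
  rw [List.mem_filter, decide_eq_true_eq]
  refine ⟨mem_allL x.2.sq, ?_⟩
  rw [← x.2.2, support_toL, List.toFinset_card_of_nodup ((List.nodup_finRange 6).filter _)]
  rfl

theorem lv_inj {x y : Vt (Fin 6) 2} (h : lv x = lv y) : x = y := Subtype.ext (toL_inj h)

/-- an involution as an element of the alternating group -/
def al (a : Vt (Fin 6) 2) : alternatingGroup (Fin 6) :=
  ⟨a, by
    rw [Perm.mem_alternatingGroup, a.2.sign]
    rfl⟩

/-- extends to an automorphism of the alternating group -/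
def Ext (τ : Perm (Vt (Fin 6) 2)) : Prop :=
  ∃ φ : MulAut (alternatingGroup (Fin 6)), ∀ a, al (τ a) = φ (al a)

theorem Ext.mul {σ τ : Perm (Vt (Fin 6) 2)} (h : Ext σ) (h' : Ext τ) : Ext (σ * τ) := by
  obtain ⟨φ, hφ⟩ := h
  obtain ⟨ψ, hψ⟩ := h'
  refine ⟨φ * ψ, fun a => ?_⟩
  rw [Perm.mul_apply, hφ, hψ]
  rfl

theorem Ext.inv {σ : Perm (Vt (Fin 6) 2)} (h : Ext σ) : Ext σ⁻¹ := by
  obtain ⟨φ, hφ⟩ := h
  refine ⟨φ⁻¹, fun a => ?_⟩
  have h1 := hφ (σ⁻¹ a)
  rw [ais] at h1
  rw [h1]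
  exact (φ.symm_apply_apply _).symm

theorem ext_cjV (g : Perm (Fin 6)) : Ext (cjV g) := by
  refine ⟨MulAut.conjNormal g, fun a => ?_⟩
  apply Subtype.ext
  rw [MulAut.conjNormal_apply]
  rfl

theorem ord_al (a b : Vt (Fin 6) 2) : orderOf (al a * al b) = orderOf ((a : Perm (Fin 6)) * b) := by
  rw [← Subgroup.orderOf_coe]
  rfl

theorem Ext.col {σ : Perm (Vt (Fin 6) 2)} (h : Ext σ) : Col σ := by
  obtain ⟨φ, hφ⟩ := h
  intro a b
  rw [← ord_al, ← ord_al, hφ, hφ, ← map_mul]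
  exact orderOf_injective φ.toMonoidHom φ.injective _

/-- the exceptional automorphism -/
theorem exists_theta : ∃ θ : Perm (Vt (Fin 6) 2), Ext θ ∧ ∀ x, lv (θ x) = tbl (lv x) := by
  have hex : ∀ x : Vt (Fin 6) 2, ∃ y : Vt (Fin 6) 2, lv y = tbl (lv x) := by
    intro x
    obtain ⟨h1, h2, h3, -⟩ := kt1 (lv x) (mem_C6 x)
    exact exists_vt h1 h2 h3
  choose f hf using hex
  have hff : ∀ x, f (f x) = x := by
    intro x
    apply lv_inj
    rw [hf, hf]
    exact (kt1 (lv x) (mem_C6 x)).2.2.2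
  let θ : Perm (Vt (Fin 6) 2) := ⟨f, f, hff, hff⟩
  have hθ : ∀ x, lv (θ x) = tbl (lv x) := hf
  refine ⟨θ, ?_, hθ⟩
  let D : Set (alternatingGroup (Fin 6)) := {a | IsInv 2 (a : Perm (Fin 6))}
  have hD : ∀ g : alternatingGroup (Fin 6), ∀ a ∈ D, g * a * g⁻¹ ∈ D := fun g a ha => ha.conj (g : Perm (Fin 6))
  let e : D ≃ Vt (Fin 6) 2 :=
    { toFun := fun a => ⟨a.1, a.2⟩
      invFun := fun a => ⟨al a, a.2⟩
      left_inv := fun a => rfl
      right_inv := fun a => rfl }
  have hs : ∀ (x y : Vt (Fin 6) 2)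
      (h : IsInv 2 ((x : Perm (Fin 6)) * (y : Perm (Fin 6)) * (x : Perm (Fin 6))⁻¹)),
      lv (⟨(x : Perm (Fin 6)) * (y : Perm (Fin 6)) * (x : Perm (Fin 6))⁻¹, h⟩ : Vt (Fin 6) 2) =
        cmp (lv x) (cmp (lv y) (lv x)) := by
    intro x y h
    unfold lv
    rw [← toL_cmp, ← toL_cmp, ← mul_assoc]
    show toL ((x : Perm (Fin 6)) * (y : Perm (Fin 6)) * (x : Perm (Fin 6))⁻¹) = _
    rw [x.2.inv]
  have : IsSimpleGroup (alternatingGroup (Fin 6)) := by
    refine alternatingGroup.isSimpleGroup ?_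
    simp
  obtain ⟨B, hB⟩ := exists_vt (n := 6) (m := 2) (l := d1) (by decide) (by decide) (by decide)
  obtain ⟨B', hB'⟩ := exists_vt (n := 6) (m := 2) (l := d2) (by decide) (by decide) (by decide)
  have hne : ∃ a ∈ D, a ≠ 1 := by
    refine ⟨al B, B.2, fun h => ?_⟩
    have h1 : (B : Perm (Fin 6)) = 1 := congrArg Subtype.val h
    have h2 := B.2.2
    rw [h1] at h2
    simp at h2
  have hnc : ∃ x y : alternatingGroup (Fin 6), x * y ≠ y * x := by
    refine ⟨al B, al B', fun h => ?_⟩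
    have h1 : (B : Perm (Fin 6)) * B' = B' * B := congrArg Subtype.val h
    have h2 := congrArg toL h1
    rw [toL_cmp, toL_cmp] at h2
    change cmp (lv B) (lv B') = cmp (lv B') (lv B) at h2
    rw [hB, hB'] at h2
    exact absurd h2 (by decide)
  obtain ⟨φ, hφ⟩ := extend_of_conj hD hne hnc ((e.trans θ).trans e.symm) (by
    intro a b
    apply e.injective
    apply lv_inj
    have h1 : e (((e.trans θ).trans e.symm) (cj hD a b)) = θ (e (cj hD a b)) := rfl
    have h2 : lv (e (cj hD a b)) = cmp (lv (e a)) (cmp (lv (e b)) (lv (e a))) := hs (e a) (e b) _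
    have h3 : lv (e (cj hD (((e.trans θ).trans e.symm) a : D) (((e.trans θ).trans e.symm) b))) =
        cmp (lv (θ (e a))) (cmp (lv (θ (e b))) (lv (θ (e a)))) := hs (θ (e a)) (θ (e b)) _
    rw [h1, h3, hθ, hθ, hθ, h2]
    exact kt2 _ (mem_C6 _) _ (mem_C6 _))
  refine ⟨φ, fun a => ?_⟩
  exact (hφ (e.symm a)).symm

/-- The colour automorphisms of the class of double transpositions of degree six extend. -/
theorem Col.exists_aut_six {τ : Perm (Vt (Fin 6) 2)} (h : Col τ) : Ext τ := by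
  obtain ⟨B1, hB1⟩ := exists_vt (n := 6) (m := 2) (l := d1) (by decide) (by decide) (by decide)
  obtain ⟨B2, hB2⟩ := exists_vt (n := 6) (m := 2) (l := d2) (by decide) (by decide) (by decide)
  obtain ⟨B3, hB3⟩ := exists_vt (n := 6) (m := 2) (l := d3) (by decide) (by decide) (by decide)
  obtain ⟨E1, hE1⟩ := exists_vt (n := 6) (m := 2) (l := e1) (by decide) (by decide) (by decide)
  obtain ⟨E2, hE2⟩ := exists_vt (n := 6) (m := 2) (l := e2) (by decide) (by decide) (by decide)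
  have hP' : ∀ σ τ : Perm (Vt (Fin 6) 2), Ext σ → Ext (σ * τ) → Ext τ := by
    intro σ τ h1 h2
    have := h1.inv.mul h2
    rwa [inv_mul_cancel_left] at this
  have hP : ∀ (g : Perm (Fin 6)) (σ : Perm (Vt (Fin 6) 2)), Ext (cjV g * σ) → Ext σ :=
    fun g σ => hP' _ _ (ext_cjV g)
  -- all of them once three vertices are fixed
  have hfin : ∀ σ : Perm (Vt (Fin 6) 2), Col σ → σ B1 = B1 → σ B2 = B2 → σ B3 = B3 → Ext σ := by
    intro σ h3 hc1 hc2 hb3
    have hr : ∀ R : Vt (Fin 6) 2, lv R ∈ [e1, e2] → σ R = R := by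
      intro R hR
      refine h3.fixes mem_C6 (F := [B1, B2, B3]) (by simpa using ⟨hc1, hc2, hb3⟩) ?_
      simp only [List.map_cons, List.map_nil, hB1, hB2, hB3]
      exact fun x hx => kh4 x hx _ hR
    have h1 : σ = 1 := by
      refine h3.eq_one mem_C6 (F := [B1, B2, B3, E1, E2])
        (by simpa using ⟨hc1, hc2, hb3, hr E1 (by simp [hE1]), hr E2 (by simp [hE2])⟩) ?_
      simp only [List.map_cons, List.map_nil, hB1, hB2, hB3, hE1, hE2]
      exact kh5
    exact ⟨1, fun a => by rw [h1]; rfl⟩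
  -- first stage
  obtain ⟨g, hg⟩ := IsInv.exists_conj (τ B1).2 B1.2
  apply hP g
  have h1 : Col (cjV g * τ) := (col_cjV g).mul h
  have hf1 : (cjV g * τ : Perm (Vt (Fin 6) 2)) B1 = B1 :=
    Subtype.ext (by rw [Perm.mul_apply, cjV_apply, hg])
  generalize cjV g * τ = τ₁ at h1 hf1 ⊢
  -- second stage
  obtain ⟨τ₂, h2, hf2, hb2, hP2⟩ := h1.stage hP mem_C6 (G := H2) (F := [B1]) (B := B2)
    (by simpa using hf1) (by
      simp only [List.map_cons, List.map_nil, hB1, hB2, List.mem_cons, List.not_mem_nil, or_false,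
        forall_eq]
      exact kh2)
  apply hP2
  have hb1 : τ₂ B1 = B1 := hf2 B1 (by simp)
  -- third stage
  have h3 : lv (τ₂ B3) = d3 ∨ lv (τ₂ B3) = d4 := by
    apply kh3 _ (mem_C6 _)
    have h4 : sg 6 ([B1, B2].map lv) (lv (τ₂ B3)) = sg 6 ([B1, B2].map lv) (lv B3) := by
      refine sg_congr fun b hb => ?_
      have h5 : τ₂ b = b := by
        rcases List.mem_cons.1 hb with rfl | hb
        · exact hb1
        · rw [List.mem_singleton.1 hb]
          exact hb2
      have := h2 b B3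
      rw [h5] at this
      exact this
    simp only [List.map_cons, List.map_nil, hB1, hB2, hB3] at h4
    exact h4
  rcases h3 with h3 | h3
  · exact hfin τ₂ h2 hb1 hb2 (lv_inj (h3.trans hB3.symm))
  · obtain ⟨θ, hθ, hθv⟩ := exists_theta
    apply hP' θ _ hθ
    refine hfin _ (hθ.col.mul h2) ?_ ?_ ?_
    · apply lv_inj
      rw [Perm.mul_apply, hb1, hθv, hB1]
      exact kt3.1
    · apply lv_inj
      rw [Perm.mul_apply, hb2, hθv, hB2]
      exact kt3.2.1
    · apply lv_inj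
      rw [Perm.mul_apply, hθv, h3, hB3]
      exact kt3.2.2

end Pool.Agent.Helper2.AN
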