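import Pool.Agent.Helper2.AN.Stage

/-!
# Block AN-N8: the fixed point free class of degree eight
-/

namespace Pool.Agent.Helper2.AN

open Equiv

/-- fixed point free involutions of eight points -/
def C8 : List (List ℕ) := (allL 8).filter fun l => l.zipIdx.all fun p => p.1 != p.2

/-- one of the reference involutions -/
def b1 : List ℕ := [1, 0, 3, 2, 5, 4, 7, 6]

/-- one of the reference involutions -/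
def b2 : List ℕ := [2, 4, 0, 6, 1, 7, 3, 5]

/-- one of the reference involutions -/
def b3 : List ℕ := [1, 0, 5, 6, 7, 2, 3, 4]

/-- one of the reference involutions -/
def r1 : List ℕ := [1, 0, 4, 6, 2, 7, 3, 5]

/-- one of the reference involutions -/
def r2 : List ℕ := [1, 0, 7, 6, 5, 4, 3, 2]

/-- one of the reference involutions -/
def s1 : List ℕ := [1, 0, 6, 7, 5, 4, 2, 3]

/-- one of the reference involutions -/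
def s2 : List ℕ := [6, 4, 3, 2, 1, 7, 0, 5]

/-- one of the reference involutions -/
def s3 : List ℕ := [3, 7, 6, 0, 5, 4, 2, 1]

/-- one of the reference involutions -/
def s4 : List ℕ := [1, 0, 3, 2, 6, 7, 4, 5]

/-- coset representatives, second stage -/
def G2 : List (List ℕ) := [[0, 1, 2, 3, 4, 5, 6, 7],
  [0, 1, 2, 3, 4, 5, 7, 6],
  [0, 1, 2, 3, 5, 4, 6, 7],
  [0, 1, 2, 3, 5, 4, 7, 6],
  [0, 1, 2, 3, 6, 7, 4, 5],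
  [0, 1, 2, 3, 6, 7, 5, 4],
  [0, 1, 2, 3, 7, 6, 4, 5],
  [0, 1, 2, 3, 7, 6, 5, 4],
  [0, 1, 3, 2, 4, 5, 6, 7],
  [0, 1, 3, 2, 4, 5, 7, 6],
  [0, 1, 3, 2, 5, 4, 6, 7],
  [0, 1, 3, 2, 5, 4, 7, 6],
  [0, 1, 3, 2, 6, 7, 4, 5],
  [0, 1, 3, 2, 6, 7, 5, 4],
  [0, 1, 3, 2, 7, 6, 4, 5],
  [0, 1, 3, 2, 7, 6, 5, 4],
  [0, 1, 4, 5, 2, 3, 6, 7],
  [0, 1, 4, 5, 2, 3, 7, 6],
  [0, 1, 4, 5, 3, 2, 6, 7],
  [0, 1, 4, 5, 3, 2, 7, 6],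
  [0, 1, 4, 5, 6, 7, 2, 3],
  [0, 1, 4, 5, 6, 7, 3, 2],
  [0, 1, 4, 5, 7, 6, 2, 3],
  [0, 1, 4, 5, 7, 6, 3, 2],
  [0, 1, 5, 4, 2, 3, 6, 7],
  [0, 1, 5, 4, 2, 3, 7, 6],
  [0, 1, 5, 4, 3, 2, 6, 7],
  [0, 1, 5, 4, 3, 2, 7, 6],
  [0, 1, 5, 4, 6, 7, 2, 3],
  [0, 1, 5, 4, 6, 7, 3, 2],
  [0, 1, 5, 4, 7, 6, 2, 3],
  [0, 1, 5, 4, 7, 6, 3, 2],
  [0, 1, 6, 7, 2, 3, 4, 5],
  [0, 1, 6, 7, 2, 3, 5, 4],
  [0, 1, 6, 7, 3, 2, 4, 5],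
  [0, 1, 6, 7, 3, 2, 5, 4],
  [0, 1, 6, 7, 4, 5, 2, 3],
  [0, 1, 6, 7, 4, 5, 3, 2],
  [0, 1, 6, 7, 5, 4, 2, 3],
  [0, 1, 6, 7, 5, 4, 3, 2],
  [0, 1, 7, 6, 2, 3, 4, 5],
  [0, 1, 7, 6, 2, 3, 5, 4],
  [0, 1, 7, 6, 3, 2, 4, 5],
  [0, 1, 7, 6, 3, 2, 5, 4],
  [0, 1, 7, 6, 4, 5, 2, 3],
  [0, 1, 7, 6, 4, 5, 3, 2],
  [0, 1, 7, 6, 5, 4, 2, 3],
  [0, 1, 7, 6, 5, 4, 3, 2]]

/-- coset representatives, third stage -/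
def G3 : List (List ℕ) := [[0, 1, 2, 3, 4, 5, 6, 7],
  [1, 0, 4, 5, 2, 3, 7, 6],
  [2, 3, 0, 1, 6, 7, 4, 5],
  [3, 2, 6, 7, 0, 1, 5, 4],
  [4, 5, 1, 0, 7, 6, 2, 3],
  [5, 4, 7, 6, 1, 0, 3, 2],
  [6, 7, 3, 2, 5, 4, 0, 1],
  [7, 6, 5, 4, 3, 2, 1, 0]]

theorem chk2 : ∀ x ∈ C8, sg 8 [b1] x = sg 8 [b1] b2 → ∃ g ∈ G2, okL 8 g = true ∧ cmp g b1 = cmp b1 g ∧
    cmp g b2 = cmp x g := by
  decide +kernel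

theorem chk3 : ∀ x ∈ C8, sg 8 [b1, b2] x = sg 8 [b1, b2] b3 → ∃ g ∈ G3, okL 8 g = true ∧
    cmp g b1 = cmp b1 g ∧ cmp g b2 = cmp b2 g ∧ cmp g b3 = cmp x g := by
  decide +kernel

theorem chk4 : ∀ x ∈ C8, ∀ r ∈ [r1, r2], sg 8 [b1, b2, b3] x = sg 8 [b1, b2, b3] r → x = r := by
  decide +kernel

theorem chk5 : ∀ x ∈ C8, ∀ r ∈ [s1, s2, s3, s4], sg 8 [b1, b2, b3, r1, r2] x =
    sg 8 [b1, b2, b3, r1, r2] r → x = r := by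
  decide +kernel

theorem chk6 : (C8.map (sg 8 [b1, b2, s1, s2, b3, s3, s4])).Nodup := by
  decide +kernel

end Pool.Agent.Helper2.AN
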