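import Pool.Agent.Helper2.AN.Alt

/-!
# Block AN-SMALL: permutations of small sets as lists of numbers
-/

namespace Pool.Agent.Helper2.AN

open Equiv

section

variable {n : ℕ}

/-- the list of values -/
def toL (x : Perm (Fin n)) : List ℕ := List.ofFn fun i => ((x i : Fin n) : ℕ)

/-- composition `b ∘ c` of lists of values -/
def cmp (b c : List ℕ) : List ℕ := c.map fun t => b.getD t 0

theorem toL_cmp (b c : Perm (Fin n)) : toL (b * c) = cmp (toL b) (toL c) := by
  unfold toL cmp
  rw [List.map_ofFn]
  congr 1
  funext i
  simp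

theorem toL_inj {b c : Perm (Fin n)} (h : toL b = toL c) : b = c := by
  unfold toL at h
  have h1 := List.ofFn_injective h
  ext i
  exact congrFun h1 i

/-- the identity -/
def idL (n : ℕ) : List ℕ := toL (1 : Perm (Fin n))

theorem toL_one {x : Perm (Fin n)} : toL x = idL n ↔ x = 1 :=
  ⟨fun h => toL_inj h, fun h => by rw [h]; rfl⟩

/-- the order if it is at most four, and zero otherwise -/
def ordL (n : ℕ) (l : List ℕ) : ℕ :=
  if l = idL n then 1 else if cmp l l = idL n then 2 else if cmp l (cmp l l) = idL n then 3 else
    if cmp (cmp l l) (cmp l l) = idL n then 4 else 0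

theorem ordL_congr {x y : Perm (Fin n)} (h : orderOf x = orderOf y) :
    ordL n (toL x) = ordL n (toL y) := by
  have key : ∀ k : ℕ, x ^ k = 1 ↔ y ^ k = 1 := by
    intro k
    rw [← orderOf_dvd_iff_pow_eq_one, ← orderOf_dvd_iff_pow_eq_one, h]
  have k1 : toL x = idL n ↔ toL y = idL n := by
    rw [toL_one, toL_one]
    simpa using key 1
  have k2 : cmp (toL x) (toL x) = idL n ↔ cmp (toL y) (toL y) = idL n := by
    rw [← toL_cmp, ← toL_cmp, toL_one, toL_one, ← pow_two, ← pow_two]
    exact key 2
  have k3 : cmp (toL x) (cmp (toL x) (toL x)) = idL n ↔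
      cmp (toL y) (cmp (toL y) (toL y)) = idL n := by
    rw [← toL_cmp, ← toL_cmp, ← toL_cmp, ← toL_cmp, toL_one, toL_one]
    have := key 3
    rw [pow_succ', pow_succ', pow_one, pow_succ', pow_succ', pow_one] at this
    exact this
  have k4 : cmp (cmp (toL x) (toL x)) (cmp (toL x) (toL x)) = idL n ↔
      cmp (cmp (toL y) (toL y)) (cmp (toL y) (toL y)) = idL n := by
    rw [← toL_cmp, ← toL_cmp, ← toL_cmp, ← toL_cmp, toL_one, toL_one]
    have := key 4
    rw [show (4 : ℕ) = 2 + 2 from rfl, pow_add, pow_add, pow_two, pow_two] at this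
    exact this
  unfold ordL
  by_cases h1 : toL x = idL n
  · rw [if_pos h1, if_pos (k1.1 h1)]
  rw [if_neg h1, if_neg (mt k1.2 h1)]
  by_cases h2 : cmp (toL x) (toL x) = idL n
  · rw [if_pos h2, if_pos (k2.1 h2)]
  rw [if_neg h2, if_neg (mt k2.2 h2)]
  by_cases h3 : cmp (toL x) (cmp (toL x) (toL x)) = idL n
  · rw [if_pos h3, if_pos (k3.1 h3)]
  rw [if_neg h3, if_neg (mt k3.2 h3)]
  by_cases h4 : cmp (cmp (toL x) (toL x)) (cmp (toL x) (toL x)) = idL n
  · rw [if_pos h4, if_pos (k4.1 h4)]
  rw [if_neg h4, if_neg (mt k4.2 h4)]

/-- lists of values of permutations -/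
def okL (n : ℕ) (l : List ℕ) : Bool := l.length == n && l.all (· < n) && decide l.Nodup

theorem exists_perm_of_okL {l : List ℕ} (h : okL n l = true) : ∃ g : Perm (Fin n), toL g = l := by
  unfold okL at h
  simp only [Bool.and_eq_true, beq_iff_eq, List.all_eq_true, decide_eq_true_eq] at h
  obtain ⟨⟨h1, h2⟩, h3⟩ := h
  let f : Fin n → Fin n := fun i => ⟨l[i.val]'(by rw [h1]; exact i.2), h2 _ (List.getElem_mem _)⟩
  have hf : Function.Injective f := by
    intro i j hij
    have h4 : l[i.val]'(by rw [h1]; exact i.2) = l[j.val]'(by rw [h1]; exact j.2) :=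
      congrArg Fin.val hij
    exact Fin.ext ((List.Nodup.getElem_inj_iff h3).1 h4)
  refine ⟨Equiv.ofBijective f (Finite.injective_iff_bijective.1 hf), ?_⟩
  unfold toL
  refine List.ext_getElem (by simp [h1]) fun i _ _ => ?_
  simp [f]

/-! ### enumeration of involutions -/

/-- all ways to write an involution of the list of points as a list of pairs (fixed points allowed) -/
def invs : ℕ → List (Fin n) → List (List (Fin n × Fin n))
  | 0, _ => [[]]
  | _ + 1, [] => [[]]
  | k + 1, a :: l => (invs k l).map ((a, a) :: ·) ++
      l.flatMap fun b => (invs k (l.erase b)).map ((a, b) :: ·)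

/-- the map given by a list of pairs -/
def toF (M : List (Fin n × Fin n)) (t : Fin n) : Fin n :=
  match M.find? fun p => p.1 = t ∨ p.2 = t with
  | some p => if p.1 = t then p.2 else p.1
  | none => t

theorem invs_spec {x : Fin n → Fin n} (hx : ∀ t, x (x t) = t) : ∀ (k : ℕ) (l : List (Fin n)),
    l.length ≤ k → l.Nodup → (∀ t ∈ l, x t ∈ l) → ∃ M ∈ invs k l, (∀ p ∈ M, x p.1 = p.2) ∧
      ∀ t ∈ l, ∃ p ∈ M, p.1 = t ∨ p.2 = t := by
  intro k
  induction k with
  | zero =>
    intro l hl _ _
    have : l = [] := List.length_eq_zero_iff.1 (by omega)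
    subst this
    exact ⟨[], by simp [invs], by simp, by simp⟩
  | succ k ih =>
    intro l hl hn hc
    cases l with
    | nil => exact ⟨[], by simp [invs], by simp, by simp⟩
    | cons a l =>
      rw [List.nodup_cons] at hn
      rw [List.length_cons] at hl
      by_cases hfix : x a = a
      · obtain ⟨M, hM, h1, h2⟩ := ih l (by omega) hn.2 (fun t ht => by
          have h3 := hc t (List.mem_cons_of_mem _ ht)
          rcases List.mem_cons.1 h3 with h | h
          · exfalso
            have : t = a := by
              have := hx t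
              rw [h, hfix] at this
              exact this.symm
            exact hn.1 (this ▸ ht)
          · exact h)
        refine ⟨(a, a) :: M, ?_, ?_, ?_⟩
        · unfold invs
          exact List.mem_append_left _ (List.mem_map_of_mem hM)
        · intro p hp
          rcases List.mem_cons.1 hp with rfl | h
          · exact hfix
          · exact h1 p h
        · intro t ht
          rcases List.mem_cons.1 ht with rfl | h
          · exact ⟨(t, t), List.mem_cons_self, Or.inl rfl⟩
          · obtain ⟨p, hp, h4⟩ := h2 t h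
            exact ⟨p, List.mem_cons_of_mem _ hp, h4⟩
      · have hb : x a ∈ l := by
          rcases List.mem_cons.1 (hc a List.mem_cons_self) with h | h
          · exact absurd h hfix
          · exact h
        obtain ⟨M, hM, h1, h2⟩ := ih (l.erase (x a)) (by
          rw [List.length_erase_of_mem hb]
          omega) (hn.2.erase _) (fun t ht => by
          rw [hn.2.mem_erase_iff] at ht ⊢
          have h3 := hc t (List.mem_cons_of_mem _ ht.2)
          refine ⟨fun h => ?_, ?_⟩
          · have : t = a := by
              have := congrArg x h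
              rwa [hx, hx] at this
            exact hn.1 (this ▸ ht.2)
          · rcases List.mem_cons.1 h3 with h | h
            · exfalso
              apply ht.1
              rw [← h, hx]
            · exact h)
        refine ⟨(a, x a) :: M, ?_, ?_, ?_⟩
        · unfold invs
          refine List.mem_append_right _ ?_
          rw [List.mem_flatMap]
          exact ⟨x a, hb, List.mem_map_of_mem hM⟩
        · intro p hp
          rcases List.mem_cons.1 hp with rfl | h
          · rfl
          · exact h1 p h
        · intro t ht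
          rcases List.mem_cons.1 ht with rfl | h
          · exact ⟨(t, x t), List.mem_cons_self, Or.inl rfl⟩
          · by_cases h5 : t = x a
            · exact ⟨(a, x a), List.mem_cons_self, Or.inr h5.symm⟩
            · obtain ⟨p, hp, h4⟩ := h2 t (by
                rw [hn.2.mem_erase_iff]
                exact ⟨h5, h⟩)
              exact ⟨p, List.mem_cons_of_mem _ hp, h4⟩

/-- the lists of values of all involutions -/
def allL (n : ℕ) : List (List ℕ) :=
  (invs n (List.finRange n)).map fun M => List.ofFn fun i => ((toF M i : Fin n) : ℕ)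

theorem mem_allL {x : Perm (Fin n)} (hx : ∀ t, x (x t) = t) : toL x ∈ allL n := by
  obtain ⟨M, hM, h1, h2⟩ := invs_spec (x := x) hx n (List.finRange n) (by simp)
    (List.nodup_finRange n) (fun t _ => List.mem_finRange _)
  unfold allL
  rw [List.mem_map]
  refine ⟨M, hM, ?_⟩
  unfold toL
  congr 1
  funext i
  congr 1
  unfold toF
  obtain ⟨p, hp, h3⟩ := h2 i (List.mem_finRange i)
  have h4 : (M.find? fun p => decide (p.1 = i ∨ p.2 = i)).isSome := by
    rw [List.find?_isSome]
    exact ⟨p, hp, by simpa using h3⟩
  obtain ⟨q, hq⟩ := Option.isSome_iff_exists.1 h4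
  have h5 := List.find?_some hq
  have h6 := List.mem_of_find?_eq_some hq
  simp only [decide_eq_true_eq] at h5
  rw [hq]
  by_cases h7 : q.1 = i
  · simp only [h7, if_true]
    rw [← h1 q h6, h7]
  · simp only [h7, if_false]
    rcases h5 with h5 | h5
    · exact absurd h5 h7
    · rw [← h5, ← h1 q h6, hx]

end

end Pool.Agent.Helper2.AN
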