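import Pool.Agent.Helper2.AN.Small

/-!
# Block AN-STAGE: the steps of the finite verification
-/

namespace Pool.Agent.Helper2.AN

open Equiv

section

variable {α : Type*} [Fintype α] [DecidableEq α] {m : ℕ}

/-- conjugation by a permutation of the points -/
def cjV (g : Perm α) : Perm (Vt α m) where
  toFun v := ⟨g * v * g⁻¹, v.2.conj g⟩
  invFun v := ⟨g⁻¹ * v * g, by
    have := v.2.conj g⁻¹
    rwa [inv_inv] at this⟩
  left_inv v := by
    apply Subtype.ext
    show g⁻¹ * (g * v * g⁻¹) * g = v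
    group
  right_inv v := by
    apply Subtype.ext
    show g * (g⁻¹ * v * g) * g⁻¹ = v
    group

theorem cjV_apply (g : Perm α) (v : Vt α m) : (cjV g v : Perm α) = g * v * g⁻¹ := rfl

theorem col_cjV (g : Perm α) : Col (cjV g : Perm (Vt α m)) := by
  intro a b
  rw [cjV_apply, cjV_apply]
  have h1 : g * (a : Perm α) * g⁻¹ * (g * b * g⁻¹) = (MulAut.conj g) ((a : Perm α) * b) := by
    rw [MulAut.conj_apply]
    group
  rw [h1]
  exact orderOf_injective (MulAut.conj g).toMonoidHom (MulAut.conj g).injective _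

theorem Col.mul {σ τ : Perm (Vt α m)} (h : Col σ) (h' : Col τ) : Col (σ * τ) := by
  intro a b
  rw [Perm.mul_apply, Perm.mul_apply, h, h']

end

section

variable {n m : ℕ}

/-- the list of values of a vertex -/
def lv (v : Vt (Fin n) m) : List ℕ := toL (v : Perm (Fin n))

/-- colour signature -/
def sg (n : ℕ) (F : List (List ℕ)) (x : List ℕ) : ℕ := F.foldl (fun r b => 8 * r + ordL n (cmp b x)) 0

theorem sg_congr {F : List (Vt (Fin n) m)} {x y : Vt (Fin n) m}
    (h : ∀ b ∈ F, orderOf ((b : Perm (Fin n)) * x) = orderOf ((b : Perm (Fin n)) * y)) :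
    sg n (F.map lv) (lv x) =
      sg n (F.map lv) (lv y) := by
  unfold sg
  generalize 0 = r
  induction F generalizing r with
  | nil => rfl
  | cons b F ih =>
    have h1 : ∀ z : Vt (Fin n) m, cmp (lv b) (lv z) = toL ((b : Perm (Fin n)) * (z : Perm (Fin n))) :=
      fun z => (toL_cmp _ _).symm
    rw [List.map_cons, List.foldl_cons, List.foldl_cons, h1, h1,
      ordL_congr (h b List.mem_cons_self)]
    exact ih (fun c hc => h c (List.mem_cons_of_mem _ hc)) _

/-- the new vertex can be moved back -/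
theorem Col.stage {τ : Perm (Vt (Fin n) m)} (h : Col τ) {P : Perm (Vt (Fin n) m) → Prop}
    (hP : ∀ (g : Perm (Fin n)) (σ : Perm (Vt (Fin n) m)), P (cjV g * σ) → P σ)
    {C G : List (List ℕ)} (hC : ∀ x : Vt (Fin n) m, lv x ∈ C)
    {F : List (Vt (Fin n) m)} {B : Vt (Fin n) m} (hF : ∀ b ∈ F, τ b = b)
    (hchk : ∀ x ∈ C, sg n (F.map lv) x = sg n (F.map lv) (lv B) → ∃ g ∈ G,
      okL n g = true ∧ (∀ b ∈ F, cmp g (lv b) = cmp (lv b) g) ∧ cmp g (lv B) = cmp x g) :
    ∃ σ : Perm (Vt (Fin n) m), Col σ ∧ (∀ b ∈ F, σ b = b) ∧ σ B = B ∧ (P σ → P τ) := by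
  have h1 : sg n (F.map lv) (lv (τ B)) =
      sg n (F.map lv) (lv B) := by
    refine sg_congr fun b hb => ?_
    have := h b B
    rw [hF b hb] at this
    exact this
  obtain ⟨l, -, hok, h2, h3⟩ := hchk _ (hC (τ B)) h1
  obtain ⟨g, rfl⟩ := exists_perm_of_okL hok
  have h4 : g * (B : Perm (Fin n)) = (τ B : Perm (Fin n)) * g := by
    apply toL_inj
    rw [toL_cmp, toL_cmp]
    exact h3
  have h5 : ∀ b ∈ F, g * (b : Perm (Fin n)) = (b : Perm (Fin n)) * g := by
    intro b hb
    apply toL_inj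
    rw [toL_cmp, toL_cmp]
    exact h2 b hb
  refine ⟨cjV g⁻¹ * τ, (col_cjV _).mul h, fun b hb => ?_, ?_, fun hp => hP g⁻¹ τ hp⟩
  · apply Subtype.ext
    rw [Perm.mul_apply, hF b hb, cjV_apply, inv_inv, mul_assoc, ← h5 b hb]
    group
  · apply Subtype.ext
    rw [Perm.mul_apply, cjV_apply, inv_inv, mul_assoc, ← h4]
    group

/-- a vertex with its own signature is fixed -/
theorem Col.fixes {τ : Perm (Vt (Fin n) m)} (h : Col τ)
    {C : List (List ℕ)} (hC : ∀ x : Vt (Fin n) m, lv x ∈ C)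
    {F : List (Vt (Fin n) m)} {B : Vt (Fin n) m} (hF : ∀ b ∈ F, τ b = b)
    (hchk : ∀ x ∈ C, sg n (F.map lv) x = sg n (F.map lv) (lv B) →
      x = lv B) : τ B = B := by
  have h1 : sg n (F.map lv) (lv (τ B)) =
      sg n (F.map lv) (lv B) := by
    refine sg_congr fun b hb => ?_
    have := h b B
    rw [hF b hb] at this
    exact this
  exact Subtype.ext (toL_inj (hchk _ (hC (τ B)) h1))

/-- all signatures are different -/
theorem Col.eq_one {τ : Perm (Vt (Fin n) m)} (h : Col τ)
    {C : List (List ℕ)} (hC : ∀ x : Vt (Fin n) m, lv x ∈ C)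
    {F : List (Vt (Fin n) m)} (hF : ∀ b ∈ F, τ b = b)
    (hchk : (C.map (sg n (F.map lv))).Nodup) : τ = 1 := by
  ext1 B
  have h1 : sg n (F.map lv) (lv (τ B)) =
      sg n (F.map lv) (lv B) := by
    refine sg_congr fun b hb => ?_
    have := h b B
    rw [hF b hb] at this
    exact this
  exact Subtype.ext (toL_inj (List.inj_on_of_nodup_map hchk (hC (τ B)) (hC B) h1))

/-- the vertex with a given list of values -/
theorem exists_vt {l : List ℕ} (h1 : okL n l = true) (h2 : cmp l l = idL n)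
    (h3 : ((List.finRange n).filter fun i => l.getD i.val 0 ≠ i.val).length = 2 * m) :
    ∃ v : Vt (Fin n) m, lv v = l := by
  obtain ⟨g, rfl⟩ := exists_perm_of_okL h1
  refine ⟨⟨g, ?_, ?_⟩, rfl⟩
  · rw [← toL_cmp, toL_one] at h2
    exact h2
  · rw [← h3]
    have h4 : g.support = ((List.finRange n).filter fun i => (toL g).getD i.val 0 ≠ i.val).toFinset := by
      ext i
      rw [List.mem_toFinset, List.mem_filter, Perm.mem_support]
      unfold toL
      simp [Fin.ext_iff]
    rw [h4, List.toFinset_card_of_nodup]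
    exact (List.nodup_finRange n).filter _

end

end Pool.Agent.Helper2.AN
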