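import Pool.Agent.Helper2.AN.E1

/-!
# Block AN-SUPP: a good triple has one support
-/

namespace Pool.Agent.Helper2.AN

open Equiv

variable {α : Type*} [Fintype α] [DecidableEq α]

section

variable {m : ℕ} {a b d : Perm α} {x z : α}

/-- The table entries of `b` and `d` agree. -/
theorem Good.oo_eq (hg : Good m a b d) (hm : 2 ≤ m) (hf : 2 * m + 2 ≤ Fintype.card α)
    (hne : ¬ (m = 2 ∧ Fintype.card α = 6)) (hx : a x ≠ x) (hz : a z = z) :
    AN.oo a b x z = AN.oo a d x z := by
  rcases hg.oo hx hz with h | h | h
  · exact absurd h.symm (hg.no_three hm hf hne hx hz)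
  · exact h
  · exact absurd h.symm (hg.symm23.no_three hm hf hne hx hz)

/-- If `b` fixes a point moved by `a`, then `b` moves all points fixed by `a`. -/
theorem Good.step1 (hg : Good m a b d) (hm : 2 ≤ m) (hf : 2 * m + 2 ≤ Fintype.card α)
    (hne : ¬ (m = 2 ∧ Fintype.card α = 6)) (hx : a x ≠ x) (hbx : b x = x) (hz : a z = z) :
    b z ≠ z := by
  intro hbz
  have hg' := hg
  obtain ⟨ha, hb, hd, hab, had, hbd, -⟩ := hg
  have h1 := hg'.oo_eq hm hf hne hx hz
  rw [tab_AF ha hb hab hx hz hbx hbz] at h1
  have h2 : d x = x := by
    rcases tab_all ha hd had hx hz with h | h | h | h | h | h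
    · omega
    · omega
    · exact h.1
    · exact h.1
    · omega
    · omega
  -- at `b`
  have hba : orderOf (b * a) = 2 := hg'.symm12.2.2.2.1
  have h3 : ∀ w, b w ≠ w → d w = b w := by
    intro w hw
    have h4 := hg'.symm12.oo_eq hm hf hne hw hbx
    rcases tab_all hb ha hba hw hbx with h | h | h | h | h | h
    · exact absurd h.2.1 hx
    · rcases tab_all hb hd hbd hw hbx with h' | h' | h' | h' | h' | h'
      · omega
      · exact h'.1
      · omega
      · exact absurd h2 h'.2.1
      · omega
      · omega
    · exact absurd h.2.1 hx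
    · rcases tab_all hb hd hbd hw hbx with h' | h' | h' | h' | h' | h'
      · exact h'.1
      · exact h'.1
      · omega
      · exact absurd h2 h'.2.1
      · omega
      · exact absurd h2 h'.2.2.1
    · exact absurd h.2.2.1 hx
    · rcases tab_all hb hd hbd hw hbx with h' | h' | h' | h' | h' | h'
      · exact h'.1
      · exact h'.1
      · omega
      · exact absurd h2 h'.2.1
      · omega
      · exact absurd h2 h'.2.2.1
  exact ((orderOf_two_iff hb hd).1 hbd).1 (hb.eq_of_agree hd h3).symm

theorem Good.support_eq (hg : Good m a b d) (hm : 2 ≤ m) (hf : 2 * m + 2 ≤ Fintype.card α)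
    (hne : ¬ (m = 2 ∧ Fintype.card α = 6)) : a.support = b.support := by
  by_contra hS
  have hg' := hg
  obtain ⟨ha, hb, hd, hab, had, hbd, -⟩ := hg
  have hba : orderOf (b * a) = 2 := hg'.symm12.2.2.2.1
  -- a point moved by `a` and fixed by `b`, and vice versa
  obtain ⟨x, hx, hbx⟩ : ∃ x, a x ≠ x ∧ b x = x := by
    by_contra hc
    push Not at hc
    apply hS
    refine Finset.eq_of_subset_of_card_le (fun t ht => ?_) (by rw [ha.2, hb.2])
    rw [Perm.mem_support] at ht ⊢
    exact hc t ht
  obtain ⟨v, hv, hav⟩ : ∃ x, b x ≠ x ∧ a x = x := by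
    by_contra hc
    push Not at hc
    apply hS
    refine (Finset.eq_of_subset_of_card_le (fun t ht => ?_) (by rw [ha.2, hb.2])).symm
    rw [Perm.mem_support] at ht ⊢
    exact hc t ht
  -- all points fixed by `a` are moved by `b`, `d`
  have hFb : ∀ z, a z = z → b z ≠ z := fun z hz => hg'.step1 hm hf hne hx hbx hz
  have hFa : ∀ z, b z = z → a z ≠ z := fun z hz => hg'.symm12.step1 hm hf hne hv hav hz
  have hFd : ∀ z, a z = z → d z ≠ z := by
    intro z hz hdz
    have h3 : ∀ w, a w ≠ w → d w = a w := by
      intro w hw
      have h4 := hg'.oo_eq hm hf hne hw hz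
      rcases tab_all ha hb hab hw hz with h | h | h | h | h | h
      · exact absurd h.2.1 (hFb z hz)
      · rcases tab_all ha hd had hw hz with h' | h' | h' | h' | h' | h'
        · omega
        · exact h'.1
        · omega
        · exact absurd hdz h'.2.1
        · omega
        · omega
      · exact absurd h.2.1 (hFb z hz)
      · rcases tab_all ha hd had hw hz with h' | h' | h' | h' | h' | h'
        · exact h'.1
        · exact h'.1
        · omega
        · exact absurd hdz h'.2.1
        · omega
        · exact absurd hdz h'.2.2.1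
      · exact absurd h.2.2.1 (hFb z hz)
      · rcases tab_all ha hd had hw hz with h' | h' | h' | h' | h' | h'
        · exact h'.1
        · exact h'.1
        · omega
        · exact absurd hdz h'.2.1
        · omega
        · exact absurd hdz h'.2.2.1
    exact ((orderOf_two_iff ha hd).1 had).1 (ha.eq_of_agree hd h3).symm
  have hFbd : ∀ z, b z = z → d z ≠ z := by
    intro z hz hdz
    have h3 : ∀ w, b w ≠ w → d w = b w := by
      intro w hw
      have h4 := hg'.symm12.oo_eq hm hf hne hw hz
      rcases tab_all hb ha hba hw hz with h | h | h | h | h | h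
      · exact absurd h.2.1 (hFa z hz)
      · rcases tab_all hb hd hbd hw hz with h' | h' | h' | h' | h' | h'
        · omega
        · exact h'.1
        · omega
        · exact absurd hdz h'.2.1
        · omega
        · omega
      · exact absurd h.2.1 (hFa z hz)
      · rcases tab_all hb hd hbd hw hz with h' | h' | h' | h' | h' | h'
        · exact h'.1
        · exact h'.1
        · omega
        · exact absurd hdz h'.2.1
        · omega
        · exact absurd hdz h'.2.2.1
      · exact absurd h.2.2.1 (hFa z hz)
      · rcases tab_all hb hd hbd hw hz with h' | h' | h' | h' | h' | h'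
        · exact h'.1
        · exact h'.1
        · omega
        · exact absurd hdz h'.2.1
        · omega
        · exact absurd hdz h'.2.2.1
    exact ((orderOf_two_iff hb hd).1 hbd).1 (hb.eq_of_agree hd h3).symm
  -- agreement with `a`
  have hD : ∀ w z, a w ≠ w → a z = z → (b w = a w ↔ d w = a w) := by
    intro w z hw hz
    have h4 := hg'.oo_eq hm hf hne hw hz
    constructor
    · intro h1
      rw [tab_DB ha hb hab hw hz h1 (hFb z hz)] at h4
      rcases tab_all ha hd had hw hz with h' | h' | h' | h' | h' | h'
      · exact h'.1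
      · exact h'.1
      · omega
      · omega
      · omega
      · omega
    · intro h1
      rw [tab_DB ha hd had hw hz h1 (hFd z hz)] at h4
      rcases tab_all ha hb hab hw hz with h' | h' | h' | h' | h' | h'
      · exact h'.1
      · exact h'.1
      · omega
      · omega
      · omega
      · omega
  have hDb : ∀ w z, b w ≠ w → b z = z → (a w = b w ↔ d w = b w) := by
    intro w z hw hz
    have h4 := hg'.symm12.oo_eq hm hf hne hw hz
    constructor
    · intro h1
      rw [tab_DB hb ha hba hw hz h1 (hFa z hz)] at h4
      rcases tab_all hb hd hbd hw hz with h' | h' | h' | h' | h' | h'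
      · exact h'.1
      · exact h'.1
      · omega
      · omega
      · omega
      · omega
    · intro h1
      rw [tab_DB hb hd hbd hw hz h1 (hFbd z hz)] at h4
      rcases tab_all hb ha hba hw hz with h' | h' | h' | h' | h' | h'
      · exact h'.1
      · exact h'.1
      · omega
      · omega
      · omega
      · omega
  -- the eight points
  have hz := hav
  have hbz := hFb v hz
  have hdz := hFd v hz
  have hdx : d x ≠ x := hFbd x hbx
  have hdax : d x ≠ a x := by
    intro h
    have := (hD x v hx hz).2 h
    rw [hbx] at this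
    exact hx this.symm
  have hdbz : d v ≠ b v := by
    intro h
    have := (hDb v x hv hbx).2 h
    rw [hz] at this
    exact hbz this.symm
  have hba1 : b (a x) = a x := by rw [← comm_apply ha hb hab, hbx]
  have hbd1 : b (d x) = d x := by rw [comm_apply hb hd hbd, hbx]
  have hbd2 : b (d (a x)) = d (a x) := by rw [comm_apply hb hd hbd, hba1]
  have haz1 : a (b v) = b v := by rw [comm_apply ha hb hab, hz]
  have haz2 : a (d v) = d v := by rw [comm_apply ha hd had, hz]
  have haz3 : a (d (b v)) = d (b v) := by rw [comm_apply ha hd had, haz1]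
  have had1 : a (d x) = d (a x) := comm_apply ha hd had x
  have hdmv : a (d x) ≠ d x := by rw [had1]; exact fun h => hx (d.injective h)
  have hι : Function.Injective (![x, a x, d x, d (a x), v, b v, d v, d (b v)] : Fin 8 → α) := by
    have e1 : x ≠ d (a x) := fun h => hdax (by rw [h, hd.sq, ← h])
    have e2 : a x ≠ d (a x) := by
      intro h
      rw [← had1] at h
      exact hdx (a.injective h).symm
    have e3 : d x ≠ d (a x) := fun h => hx (d.injective h).symm
    have f1 : v ≠ d (b v) := fun h => hdbz (by rw [h, hd.sq, ← h])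
    have f2 : b v ≠ d (b v) := by
      intro h
      rw [← comm_apply hb hd hbd] at h
      exact hdz (b.injective h).symm
    have f3 : d v ≠ d (b v) := fun h => hbz (d.injective h).symm
    have g : ∀ u w, a u ≠ u → a w = w → u ≠ w := fun u w h1 h2 h => h1 (by rw [h, h2])
    have k1 : a (a x) ≠ a x := ax_ne_x ha hx
    have k3 : a (d (a x)) ≠ d (a x) := by
      rw [← had1, ha.sq]; exact hdmv.symm
    apply inj_of
    simp [hx.symm, hdx.symm, hdax.symm, e1, e2, e3, f1, f2, f3, hbz.symm, hdz.symm, hdbz.symm,
      g _ _ hx hz, g _ _ hx haz1, g _ _ hx haz2, g _ _ hx haz3, g _ _ k1 hz, g _ _ k1 haz1,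
      g _ _ k1 haz2, g _ _ k1 haz3, g _ _ hdmv hz, g _ _ hdmv haz1,
      g _ _ k3 hz, g _ _ k3 haz1, g _ _ hx hz, -EmbeddingLike.apply_eq_iff_eq]
    exact ⟨⟨g _ _ hdmv haz2, g _ _ hdmv haz3⟩, g _ _ k3 haz2, g _ _ k3 haz3⟩
  have := hg'.test hι (mkI ![1, 0, 3, 2, 4, 5, 6, 7] (by decide))
    (mkI ![0, 1, 2, 3, 5, 4, 7, 6] (by decide)) (mkI ![2, 3, 0, 1, 6, 7, 4, 5] (by decide))
    (mkI ![4, 1, 5, 3, 0, 2, 6, 7] (by decide))
    ⟨![0, 4, 2, 5, 1, 3, 6, 7], ![0, 4, 2, 5, 1, 3, 6, 7], by decide, by decide⟩
    (by
      intro i
      fin_cases i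
      · rfl
      · exact ha.sq x
      · exact had1
      · show a (d (a x)) = d x
        rw [← had1, ha.sq]
      · exact hz
      · exact haz1
      · exact haz2
      · exact haz3)
    (by
      intro i
      fin_cases i
      · exact hbx
      · exact hba1
      · exact hbd1
      · exact hbd2
      · rfl
      · exact hb.sq v
      · exact comm_apply hb hd hbd v
      · show b (d (b v)) = d v
        rw [comm_apply hb hd hbd, hb.sq])
    (by
      intro i
      fin_cases i
      · rfl
      · rfl
      · exact hd.sq _
      · exact hd.sq _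
      · rfl
      · rfl
      · exact hd.sq _
      · exact hd.sq _)
    (by decide) (na := 3) (nb := 4) (nd := 6)
    ((orderOf_eq_iff (by norm_num)).2 ⟨by decide, by decide⟩)
    ((orderOf_eq_iff (by norm_num)).2 ⟨by decide, by decide⟩)
    ((orderOf_eq_iff (by norm_num)).2 ⟨by decide, by decide⟩)
    (Or.inr (Or.inl rfl))
  rcases off_cases (![x, a x, d x, d (a x), v, b v, d v, d (b v)] : Fin 8 → α) a b with h1 | h1 <;>
  rcases off_cases (![x, a x, d x, d (a x), v, b v, d v, d (b v)] : Fin 8 → α) a d with h2 | h2 <;>
  rw [h1, h2] at this <;> rcases this with h | h | h <;> exact absurd h (by decide)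

end

end Pool.Agent.Helper2.AN
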