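import Pool.Agent.Helper2.AN.Tr

/-!
# Block AN-TAB: the table of orders for the elementary move

For `a x ≠ x`, `a z = z` let `c = swap x z * a * swap x z`, so that `c x = x`, `c` exchanges `a x` and
`z`, and `c = a` elsewhere. `oo a b x z` is the order of `b * c`. For commuting `a ≠ b` it is given by
a table; all entries follow from `order_eq` with a model on at most six points.
-/

namespace Pool.Agent.Helper2.AN

open Equiv

variable {α : Type*} [Fintype α] [DecidableEq α]

/-- an involution of `Fin k` -/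
def mkI {k : ℕ} (f : Fin k → Fin k) (h : ∀ i, f (f i) = i) : Perm (Fin k) := ⟨f, f, h, h⟩

theorem inj_of {k : ℕ} {f : Fin k → α} (h : (List.ofFn f).Nodup) : Function.Injective f :=
  List.nodup_ofFn.1 h

/-- The order of `b * c`, where `c` is the move of `a` at `x`, `z`. -/
noncomputable def oo (a b : Perm α) (x z : α) : ℕ := orderOf (b * (swap x z * a * swap x z))

theorem IsInv.move {m : ℕ} {a : Perm α} (ha : IsInv m a) (x z : α) :
    IsInv m (swap x z * a * swap x z) := by
  have := ha.conj (swap x z)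
  rwa [swap_inv] at this

section

variable {m : ℕ} {a b : Perm α} {x z : α}

theorem move_x (hz : a z = z) : (swap x z * a * swap x z) x = x := by
  simp [hz]

theorem move_ax (ha : IsInv m a) (hx : a x ≠ x) (hz : a z = z) :
    (swap x z * a * swap x z) (a x) = z := by
  have h1 : a x ≠ z := by
    intro h
    apply hx
    have h2 := ha.sq x
    rw [h, hz] at h2
    rw [h, h2]
  simp [swap_apply_of_ne_of_ne hx h1, ha.sq]

theorem move_z (hx : a x ≠ x) (ha : IsInv m a) (hz : a z = z) :
    (swap x z * a * swap x z) z = a x := by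
  have h1 : a x ≠ z := by
    intro h
    apply hx
    have h2 := ha.sq x
    rw [h, hz] at h2
    rw [h, h2]
  simp [swap_apply_of_ne_of_ne hx h1]

theorem move_other (ha : IsInv m a) (hz : a z = z) {t : α} (h1 : t ≠ x) (h2 : t ≠ a x)
    (h3 : t ≠ z) : (swap x z * a * swap x z) t = a t := by
  have h4 : a t ≠ x := fun h => h2 (by rw [← h, ha.sq])
  have h5 : a t ≠ z := fun h => h3 (by rw [← ha.sq t, h, hz])
  simp [swap_apply_of_ne_of_ne h1 h3, swap_apply_of_ne_of_ne h4 h5]

theorem ax_ne_z (ha : IsInv m a) (hx : a x ≠ x) (hz : a z = z) : a x ≠ z := by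
  intro h
  apply hx
  have h2 := ha.sq x
  rw [h, hz] at h2
  rw [h, h2]

theorem x_ne_z (hx : a x ≠ x) (hz : a z = z) : x ≠ z := by
  rintro rfl
  exact hx hz

/-- The order of `a * c` is three. -/
theorem oo_self (ha : IsInv m a) (hx : a x ≠ x) (hz : a z = z) : oo a a x z = 3 := by
  have hι : Function.Injective (![x, a x, z] : Fin 3 → α) := by
    apply inj_of
    simp [hx.symm, x_ne_z hx hz, ax_ne_z ha hx hz]
  unfold oo
  rw [order_eq hι ha ha rfl (a₀ := mkI ![1, 0, 2] (by decide)) (b₀ := mkI ![1, 0, 2] (by decide))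
    (c₀ := mkI ![0, 2, 1] (by decide))]
  · rw [off_eq_one_of fun t _ => ha.sq t, Nat.lcm_one_right]
    exact (orderOf_eq_iff (by norm_num)).2 ⟨by decide, by decide⟩
  · intro i
    fin_cases i
    · rfl
    · exact ha.sq x
    · exact hz
  · intro i
    fin_cases i
    · rfl
    · exact ha.sq x
    · exact hz
  · intro i
    fin_cases i
    · exact move_x hz
    · exact move_ax ha hx hz
    · exact move_z hx ha hz
  · intro t ht
    simp only [Matrix.range_cons, Matrix.range_empty, Set.union_empty, Set.mem_union,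
      Set.mem_singleton_iff, not_or] at ht
    exact move_other ha hz ht.1 ht.2.1 ht.2.2

theorem comm_apply (ha : IsInv m a) (hb : IsInv m b) (hab : orderOf (a * b) = 2) (t : α) :
    a (b t) = b (a t) := by
  have h := ((orderOf_two_iff ha hb).1 hab).2
  have := congrArg (fun e : Perm α => e t) h
  simpa using this

theorem oo_eq (ha : IsInv m a) (hb : IsInv m b) (hab : orderOf (a * b) = 2) (hx : a x ≠ x)
    (hz : a z = z) {k : ℕ} {ι : Fin k → α} (hι : Function.Injective ι) (a₀ b₀ c₀ : Perm (Fin k))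
    (ha₀ : ∀ i, a (ι i) = ι (a₀ i)) (hb₀ : ∀ i, b (ι i) = ι (b₀ i))
    (h0 : ∃ i j l : Fin k, ι i = x ∧ ι j = a x ∧ ι l = z ∧ c₀ i = i ∧ c₀ j = l ∧ c₀ l = j ∧
      ∀ t, t ≠ i → t ≠ j → t ≠ l → c₀ t = a₀ t) {n : ℕ} (hn : orderOf (b₀ * c₀) = n) :
    oo a b x z = Nat.lcm n (off ι a b) := by
  obtain ⟨i, j, l, hi, hj, hl, ci, cj, cl, ct⟩ := h0
  unfold oo
  rw [order_eq hι ha hb ((orderOf_two_iff ha hb).1 hab).2 ha₀ hb₀ (c₀ := c₀), hn]
  · intro t
    by_cases h1 : t = i
    · rw [h1, ci, hi]; exact move_x hz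
    by_cases h2 : t = j
    · rw [h2, cj, hj, hl]; exact move_ax ha hx hz
    by_cases h3 : t = l
    · rw [h3, cl, hj, hl]; exact move_z hx ha hz
    rw [ct t h1 h2 h3, ← ha₀]
    refine move_other ha hz ?_ ?_ ?_
    · rw [← hi]; exact fun h => h1 (hι h)
    · rw [← hj]; exact fun h => h2 (hι h)
    · rw [← hl]; exact fun h => h3 (hι h)
  · intro t ht
    refine move_other ha hz ?_ ?_ ?_
    · rintro rfl; exact ht ⟨i, hi⟩
    · rintro rfl; exact ht ⟨j, hj⟩
    · rintro rfl; exact ht ⟨l, hl⟩

theorem b_ne_x (ha : IsInv m a) (hb : IsInv m b) (hab : orderOf (a * b) = 2) (hx : a x ≠ x)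
    (hz : a z = z) : b z ≠ x := by
  intro h
  apply hx
  rw [← h, comm_apply ha hb hab, hz]

theorem ax_ne_x (ha : IsInv m a) (hx : a x ≠ x) : a (a x) ≠ a x := by
  rw [ha.sq]; exact hx.symm

theorem tab_DF (ha : IsInv m a) (hb : IsInv m b) (hab : orderOf (a * b) = 2) (hx : a x ≠ x)
    (hz : a z = z) (h1 : b x = a x) (h2 : b z = z) : oo a b x z = 6 := by
  have hι : Function.Injective (![x, a x, z] : Fin 3 → α) := by
    apply inj_of
    simp [hx.symm, x_ne_z hx hz, ax_ne_z ha hx hz]
  rw [oo_eq ha hb hab hx hz hι (mkI ![1, 0, 2] (by decide)) (mkI ![1, 0, 2] (by decide))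
    (mkI ![0, 2, 1] (by decide)) (n := 3)]
  · obtain ⟨t, ht⟩ : ∃ t, a t ≠ b t := by
      by_contra hc
      push Not at hc
      exact ((orderOf_two_iff ha hb).1 hab).1 (Equiv.ext hc)
    rw [off_eq_two_of (x := a t)]
    · rfl
    · rintro ⟨i, hi⟩
      fin_cases i
      · apply ht
        have h3 : a x = t := by rw [show x = a t from hi, ha.sq]
        rw [← h3, ha.sq, ← h1, hb.sq]
      · apply ht
        have h3 : x = t := a.injective hi
        rw [← h3, h1]
      · apply ht
        have h3 : z = t := by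
          have h4 : z = a t := hi
          rw [← ha.sq t, ← h4, hz]
        rw [← h3, hz, h2]
    · rw [ha.sq]
      exact ht.symm
  · intro i
    fin_cases i
    · rfl
    · exact ha.sq x
    · exact hz
  · intro i
    fin_cases i
    · exact h1
    · show b (a x) = x
      rw [← h1, hb.sq]
    · exact h2
  · exact ⟨0, 1, 2, rfl, rfl, rfl, rfl, rfl, rfl, by decide⟩
  · exact (orderOf_eq_iff (by norm_num)).2 ⟨by decide, by decide⟩

theorem tab_AF (ha : IsInv m a) (hb : IsInv m b) (hab : orderOf (a * b) = 2) (hx : a x ≠ x)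
    (hz : a z = z) (h1 : b x = x) (h2 : b z = z) : oo a b x z = 2 := by
  have hι : Function.Injective (![x, a x, z] : Fin 3 → α) := by
    apply inj_of
    simp [hx.symm, x_ne_z hx hz, ax_ne_z ha hx hz]
  rw [oo_eq ha hb hab hx hz hι (mkI ![1, 0, 2] (by decide)) (mkI ![0, 1, 2] (by decide))
    (mkI ![0, 2, 1] (by decide)) (n := 2)]
  · rcases off_cases ![x, a x, z] a b with h | h <;> rw [h] <;> rfl
  · intro i
    fin_cases i
    · rfl
    · exact ha.sq x
    · exact hz
  · intro i
    fin_cases i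
    · exact h1
    · show b (a x) = a x
      rw [← comm_apply ha hb hab, h1]
    · exact h2
  · exact ⟨0, 1, 2, rfl, rfl, rfl, rfl, rfl, rfl, by decide⟩
  · exact (orderOf_eq_iff (by norm_num)).2 ⟨by decide, by decide⟩

private theorem inj4 (ha : IsInv m a) (hb : IsInv m b) (hab : orderOf (a * b) = 2) (hx : a x ≠ x)
    (hz : a z = z) (h2 : b z ≠ z) : Function.Injective (![x, a x, z, b z] : Fin 4 → α) := by
  apply inj_of
  simp [hx.symm, x_ne_z hx hz, ax_ne_z ha hx hz, (b_ne_x ha hb hab hx hz).symm,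
    (b_ne_x ha hb hab (ax_ne_x ha hx) hz).symm, h2.symm]

theorem tab_DB (ha : IsInv m a) (hb : IsInv m b) (hab : orderOf (a * b) = 2) (hx : a x ≠ x)
    (hz : a z = z) (h1 : b x = a x) (h2 : b z ≠ z) : oo a b x z = 4 := by
  rw [oo_eq ha hb hab hx hz (inj4 ha hb hab hx hz h2) (mkI ![1, 0, 2, 3] (by decide))
    (mkI ![1, 0, 3, 2] (by decide)) (mkI ![0, 2, 1, 3] (by decide)) (n := 4)]
  · rcases off_cases ![x, a x, z, b z] a b with h | h <;> rw [h] <;> rfl
  · intro i
    fin_cases i
    · rfl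
    · exact ha.sq x
    · exact hz
    · show a (b z) = b z
      rw [comm_apply ha hb hab, hz]
  · intro i
    fin_cases i
    · exact h1
    · show b (a x) = x
      rw [← h1, hb.sq]
    · rfl
    · exact hb.sq z
  · exact ⟨0, 1, 2, rfl, rfl, rfl, rfl, rfl, rfl, by decide⟩
  · exact (orderOf_eq_iff (by norm_num)).2 ⟨by decide, by decide⟩

private theorem tab_AB' (ha : IsInv m a) (hb : IsInv m b) (hab : orderOf (a * b) = 2) (hx : a x ≠ x)
    (hz : a z = z) (h1 : b x = x) (h2 : b z ≠ z) :
    oo a b x z = Nat.lcm 3 (off ![x, a x, z, b z] a b) := by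
  rw [oo_eq ha hb hab hx hz (inj4 ha hb hab hx hz h2) (mkI ![1, 0, 2, 3] (by decide))
    (mkI ![0, 1, 3, 2] (by decide)) (mkI ![0, 2, 1, 3] (by decide)) (n := 3)]
  · intro i
    fin_cases i
    · rfl
    · exact ha.sq x
    · exact hz
    · show a (b z) = b z
      rw [comm_apply ha hb hab, hz]
  · intro i
    fin_cases i
    · exact h1
    · show b (a x) = a x
      rw [← comm_apply ha hb hab, h1]
    · rfl
    · exact hb.sq z
  · exact ⟨0, 1, 2, rfl, rfl, rfl, rfl, rfl, rfl, by decide⟩
  · exact (orderOf_eq_iff (by norm_num)).2 ⟨by decide, by decide⟩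

theorem tab_AB (ha : IsInv m a) (hb : IsInv m b) (hab : orderOf (a * b) = 2) (hx : a x ≠ x)
    (hz : a z = z) (h1 : b x = x) (h2 : b z ≠ z) : oo a b x z = 3 ∨ oo a b x z = 6 := by
  rw [tab_AB' ha hb hab hx hz h1 h2]
  rcases off_cases ![x, a x, z, b z] a b with h | h <;> rw [h]
  · exact Or.inl rfl
  · exact Or.inr rfl

private theorem bx_ne (ha : IsInv m a) (hb : IsInv m b) (hab : orderOf (a * b) = 2) (hx : a x ≠ x)
    (hz : a z = z) : b x ≠ z := by
  intro h
  apply hx
  apply b.injective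
  rw [← comm_apply ha hb hab, h, hz]

private theorem inj5 (ha : IsInv m a) (hb : IsInv m b) (hab : orderOf (a * b) = 2) (hx : a x ≠ x)
    (hz : a z = z) (h0 : b x ≠ x) (h1 : b x ≠ a x) :
    Function.Injective (![x, a x, b x, b (a x), z] : Fin 5 → α) := by
  have e1 : x ≠ b (a x) := fun h => h1 (by rw [h, hb.sq, ← h])
  have e2 : a x ≠ b (a x) := by
    intro h
    rw [← comm_apply ha hb hab] at h
    exact h0 (a.injective h).symm
  have e3 : b x ≠ b (a x) := fun h => hx (b.injective h).symm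
  have e4 : b (a x) ≠ z := bx_ne ha hb hab (ax_ne_x ha hx) hz
  apply inj_of
  simp [hx.symm, x_ne_z hx hz, ax_ne_z ha hx hz, h0.symm, h1.symm, e1, e2, e3, e4,
    bx_ne ha hb hab hx hz]

theorem tab_MF (ha : IsInv m a) (hb : IsInv m b) (hab : orderOf (a * b) = 2) (hx : a x ≠ x)
    (hz : a z = z) (h0 : b x ≠ x) (h1 : b x ≠ a x) (h2 : b z = z) :
    oo a b x z = 5 ∨ oo a b x z = 10 := by
  rw [oo_eq ha hb hab hx hz (inj5 ha hb hab hx hz h0 h1) (mkI ![1, 0, 3, 2, 4] (by decide))
    (mkI ![2, 3, 0, 1, 4] (by decide)) (mkI ![0, 4, 3, 2, 1] (by decide)) (n := 5)]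
  · rcases off_cases ![x, a x, b x, b (a x), z] a b with h | h <;> rw [h]
    · exact Or.inl rfl
    · exact Or.inr rfl
  · intro i
    fin_cases i
    · rfl
    · exact ha.sq x
    · exact comm_apply ha hb hab x
    · show a (b (a x)) = b x
      rw [comm_apply ha hb hab, ha.sq]
    · exact hz
  · intro i
    fin_cases i
    · rfl
    · rfl
    · exact hb.sq x
    · exact hb.sq _
    · exact h2
  · exact ⟨0, 1, 4, rfl, rfl, rfl, rfl, rfl, rfl, by decide⟩
  · exact (orderOf_eq_iff (by norm_num)).2 ⟨by decide, by decide⟩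

theorem tab_MB (ha : IsInv m a) (hb : IsInv m b) (hab : orderOf (a * b) = 2) (hx : a x ≠ x)
    (hz : a z = z) (h0 : b x ≠ x) (h1 : b x ≠ a x) (h2 : b z ≠ z) : oo a b x z = 6 := by
  have hι : Function.Injective (![x, a x, b x, b (a x), z, b z] : Fin 6 → α) := by
    have e1 : x ≠ b (a x) := fun h => h1 (by rw [h, hb.sq, ← h])
    have e2 : a x ≠ b (a x) := by
      intro h
      rw [← comm_apply ha hb hab] at h
      exact h0 (a.injective h).symm
    have e3 : b x ≠ b (a x) := fun h => hx (b.injective h).symm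
    have e4 : b (a x) ≠ z := bx_ne ha hb hab (ax_ne_x ha hx) hz
    have e5 : b x ≠ b z := fun h => x_ne_z hx hz (b.injective h)
    have e6 : b (a x) ≠ b z := fun h => ax_ne_z ha hx hz (b.injective h)
    apply inj_of
    simp [hx.symm, x_ne_z hx hz, ax_ne_z ha hx hz, h0.symm, h1.symm, e1, e2, e3, e4, e5, e6,
      bx_ne ha hb hab hx hz, (b_ne_x ha hb hab hx hz).symm,
      (b_ne_x ha hb hab (ax_ne_x ha hx) hz).symm, h2.symm]
  rw [oo_eq ha hb hab hx hz hι (mkI ![1, 0, 3, 2, 4, 5] (by decide))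
    (mkI ![2, 3, 0, 1, 5, 4] (by decide)) (mkI ![0, 4, 3, 2, 1, 5] (by decide)) (n := 6)]
  · rcases off_cases ![x, a x, b x, b (a x), z, b z] a b with h | h <;> rw [h] <;> rfl
  · intro i
    fin_cases i
    · rfl
    · exact ha.sq x
    · exact comm_apply ha hb hab x
    · show a (b (a x)) = b x
      rw [comm_apply ha hb hab, ha.sq]
    · exact hz
    · show a (b z) = b z
      rw [comm_apply ha hb hab, hz]
  · intro i
    fin_cases i
    · rfl
    · rfl
    · exact hb.sq x
    · exact hb.sq _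
    · rfl
    · exact hb.sq _
  · exact ⟨0, 1, 4, rfl, rfl, rfl, rfl, rfl, rfl, by decide⟩
  · exact (orderOf_eq_iff (by norm_num)).2 ⟨by decide, by decide⟩

/-- The value three: `b` is obtained from `a` by exchanging one two-cycle. -/
theorem tab_three (ha : IsInv m a) (hb : IsInv m b) (hab : orderOf (a * b) = 2) (hx : a x ≠ x)
    (hz : a z = z) (h : oo a b x z = 3) :
    b x = x ∧ b z ≠ z ∧ ∀ t, t ≠ x → t ≠ a x → t ≠ z → t ≠ b z → b t = a t := by
  by_cases h2 : b z = z
  · exfalso
    by_cases h1 : b x = a x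
    · rw [tab_DF ha hb hab hx hz h1 h2] at h
      omega
    by_cases h0 : b x = x
    · rw [tab_AF ha hb hab hx hz h0 h2] at h
      omega
    rcases tab_MF ha hb hab hx hz h0 h1 h2 with h' | h' <;> omega
  · by_cases h1 : b x = a x
    · rw [tab_DB ha hb hab hx hz h1 h2] at h
      omega
    by_cases h0 : b x = x
    · refine ⟨h0, h2, fun t t1 t2 t3 t4 => ?_⟩
      rw [tab_AB' ha hb hab hx hz h0 h2] at h
      have hoff : off ![x, a x, z, b z] a b = 1 := by
        rcases off_cases ![x, a x, z, b z] a b with h' | h'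
        · exact h'
        · rw [h'] at h
          exact absurd h (by decide)
      have ht : a t ∉ Set.range (![x, a x, z, b z] : Fin 4 → α) := by
        rintro ⟨i, hi⟩
        fin_cases i
        · exact t2 (by rw [show x = a t from hi, ha.sq])
        · exact t1 (a.injective hi).symm
        · have h4 : z = a t := hi
          exact t3 (by rw [← ha.sq t, ← h4, hz])
        · have h4 : b z = a t := hi
          exact t4 (by rw [← ha.sq t, ← h4, comm_apply ha hb hab, hz])
      have := off_eq_one hoff _ ht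
      rwa [ha.sq] at this
    · rw [tab_MB ha hb hab hx hz h0 h1 h2] at h
      omega

end

end Pool.Agent.Helper2.AN
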