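import Pool.Agent.Helper2.AN.Defs

/-!
# Block AN-TR: orders of products from a small model

`ι : Fin k → α` is injective and `a`, `b`, `c` act on its range through permutations `a₀`, `b₀`, `c₀`
of `Fin k`; off the range `c = a`. Then `b * c` acts through `b₀ * c₀` on the range, and as `b * a`,
which has order at most two, off the range.
-/

namespace Pool.Agent.Helper2.AN

open Equiv

variable {α : Type*} [Fintype α] [DecidableEq α]

omit [Fintype α] [DecidableEq α] in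
private theorem range_of {k : ℕ} {ι : Fin k → α} {a : Perm α}
    {a₀ : Perm (Fin k)} (ha₀ : ∀ i, a (ι i) = ι (a₀ i)) {x : α} (h : x ∉ Set.range ι) :
    a x ∉ Set.range ι := by
  rintro ⟨i, hi⟩
  apply h
  refine ⟨a₀.symm i, ?_⟩
  apply a.injective
  rw [ha₀, Equiv.apply_symm_apply, hi]

/-- The order of `b * c`. -/
theorem order_eq {k : ℕ} {ι : Fin k → α} (hι : Function.Injective ι) {m : ℕ} {a b c : Perm α}
    (ha : IsInv m a) (hb : IsInv m b) (hab : a * b = b * a) {a₀ b₀ c₀ : Perm (Fin k)}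
    (ha₀ : ∀ i, a (ι i) = ι (a₀ i)) (hb₀ : ∀ i, b (ι i) = ι (b₀ i)) (hc₀ : ∀ i, c (ι i) = ι (c₀ i))
    (hca : ∀ x, x ∉ Set.range ι → c x = a x) :
    orderOf (b * c) = Nat.lcm (orderOf (b₀ * c₀)) (off ι a b) := by
  have hin : ∀ (n : ℕ) (i : Fin k), ((b * c) ^ n) (ι i) = ι (((b₀ * c₀) ^ n) i) := by
    intro n
    induction n with
    | zero => intro i; simp
    | succ n ih => intro i; rw [pow_succ, pow_succ, Perm.mul_apply, Perm.mul_apply, Perm.mul_apply,
        Perm.mul_apply, hc₀, hb₀, ih]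
  have hout : ∀ (n : ℕ) (x : α), x ∉ Set.range ι →
      ((b * c) ^ n) x = ((b * a) ^ n) x ∧ ((b * c) ^ n) x ∉ Set.range ι := by
    intro n
    induction n with
    | zero => intro x hx; exact ⟨rfl, hx⟩
    | succ n ih =>
      intro x hx
      obtain ⟨h1, h2⟩ := ih x hx
      have e1 : ((b * c) ^ (n + 1)) x = b (c (((b * c) ^ n) x)) := by rw [pow_succ']; rfl
      have e2 : ((b * a) ^ (n + 1)) x = b (a (((b * a) ^ n) x)) := by rw [pow_succ']; rfl
      rw [e1, e2, ← h1, hca _ h2]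
      exact ⟨rfl, range_of hb₀ (range_of ha₀ h2)⟩
  have hsq : (b * a) ^ 2 = 1 := by
    rw [sq]
    calc b * a * (b * a) = b * (a * b) * a := by group
      _ = b * (b * a) * a := by rw [hab]
      _ = (b * b) * (a * a) := by group
      _ = 1 := by rw [ha.1, hb.1, mul_one]
  have hpow : ∀ n : ℕ, (b * c) ^ n = 1 ↔ (b₀ * c₀) ^ n = 1 ∧
      ∀ x, x ∉ Set.range ι → ((b * a) ^ n) x = x := by
    intro n
    constructor
    · intro h
      refine ⟨?_, fun x hx => ?_⟩
      · ext1 i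
        apply hι
        rw [← hin, h]
        rfl
      · rw [← (hout n x hx).1, h]
        rfl
    · rintro ⟨h1, h2⟩
      ext1 x
      by_cases hx : x ∈ Set.range ι
      · obtain ⟨i, rfl⟩ := hx
        rw [hin, h1]
        rfl
      · rw [(hout n x hx).1, h2 x hx]
        rfl
  have hoff : ∀ n : ℕ, (∀ x, x ∉ Set.range ι → ((b * a) ^ n) x = x) ↔ off ι a b ∣ n := by
    intro n
    unfold off
    split_ifs with h
    · refine ⟨fun _ => one_dvd _, fun _ => ?_⟩
      have : ∀ (n : ℕ) (x : α), x ∉ Set.range ι → ((b * a) ^ n) x = x := by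
        intro n
        induction n with
        | zero => intro x _; rfl
        | succ n ih =>
          intro x hx
          rw [pow_succ, Perm.mul_apply, Perm.mul_apply, h x hx, ih x hx]
      exact this n
    · constructor
      · intro hn
        by_contra hodd
        apply h
        intro x hx
        have h1 := hn x hx
        obtain ⟨j, hj⟩ : ∃ j, n = 2 * j + 1 := ⟨n / 2, by omega⟩
        rw [hj, pow_succ, pow_mul, hsq, one_pow, one_mul] at h1
        exact h1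
      · rintro ⟨j, rfl⟩ x _
        rw [pow_mul, hsq, one_pow]
        rfl
  refine Nat.dvd_antisymm ?_ ?_
  · rw [orderOf_dvd_iff_pow_eq_one, hpow]
    refine ⟨?_, ?_⟩
    · rw [← orderOf_dvd_iff_pow_eq_one]
      exact Nat.dvd_lcm_left _ _
    · rw [hoff]
      exact Nat.dvd_lcm_right _ _
  · have h := (hpow (orderOf (b * c))).1 (pow_orderOf_eq_one _)
    refine Nat.lcm_dvd ?_ ?_
    · rw [orderOf_dvd_iff_pow_eq_one]
      exact h.1
    · rw [← hoff]
      exact h.2

/-- Existence of `c` with a prescribed small model. -/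
theorem exists_c {k : ℕ} {ι : Fin k → α} (hι : Function.Injective ι) {m : ℕ} {a : Perm α}
    (ha : IsInv m a) {a₀ c₀ : Perm (Fin k)} (s₀ : Perm (Fin k)) (ha₀ : ∀ i, a (ι i) = ι (a₀ i))
    (hs : s₀ * a₀ = c₀ * s₀) :
    ∃ c, IsInv m c ∧ (∀ i, c (ι i) = ι (c₀ i)) ∧ ∀ x, x ∉ Set.range ι → c x = a x := by
  set e : Fin k ↪ α := ⟨ι, hι⟩ with he
  set s : Perm α := s₀.viaFintypeEmbedding e with hse
  have h1 : ∀ i, s (ι i) = ι (s₀ i) := fun i => Perm.viaFintypeEmbedding_apply_image s₀ e i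
  have h2 : ∀ x, x ∉ Set.range ι → s x = x := fun x hx =>
    Perm.viaFintypeEmbedding_apply_notMem_range s₀ e hx
  have h1' : ∀ i, s⁻¹ (ι i) = ι (s₀⁻¹ i) := by
    intro i
    rw [Perm.inv_eq_iff_eq, h1]
    simp
  have h2' : ∀ x, x ∉ Set.range ι → s⁻¹ x = x := by
    intro x hx
    rw [Perm.inv_eq_iff_eq, h2 x hx]
  have hc : c₀ = s₀ * a₀ * s₀⁻¹ := by rw [hs]; group
  refine ⟨s * a * s⁻¹, ha.conj s, fun i => ?_, fun x hx => ?_⟩
  · rw [Perm.mul_apply, Perm.mul_apply, h1', ha₀, h1, hc]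
    rfl
  · rw [Perm.mul_apply, Perm.mul_apply, h2' x hx, h2 _ (range_of ha₀ hx)]

/-- The property `Good` tested on a small model. -/
theorem Good.test {m k : ℕ} {ι : Fin k → α} (hι : Function.Injective ι) {a b d : Perm α}
    (hg : Good m a b d) (a₀ b₀ d₀ c₀ s₀ : Perm (Fin k)) (ha₀ : ∀ i, a (ι i) = ι (a₀ i))
    (hb₀ : ∀ i, b (ι i) = ι (b₀ i)) (hd₀ : ∀ i, d (ι i) = ι (d₀ i)) (hs : s₀ * a₀ = c₀ * s₀)
    {na nb nd : ℕ} (h1 : orderOf (a₀ * c₀) = na) (h2 : orderOf (b₀ * c₀) = nb)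
    (h3 : orderOf (d₀ * c₀) = nd)
    (h : na = 2 ∨ na = 3 ∨ Nat.lcm nb (off ι a b) = 2 ∨ Nat.lcm nb (off ι a b) = 3 ∨
      Nat.lcm nd (off ι a d) = 2 ∨ Nat.lcm nd (off ι a d) = 3) :
    TwoEq na (Nat.lcm nb (off ι a b)) (Nat.lcm nd (off ι a d)) := by
  obtain ⟨ha, hb, hd, hab, had, _, hg⟩ := hg
  obtain ⟨c, hc, hc1, hc2⟩ := exists_c hι ha s₀ ha₀ hs
  have haa : off ι a a = 1 := by
    unfold off
    rw [if_pos]
    intro x _
    exact ha.sq x
  have e1 : orderOf (a * c) = na := by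
    rw [order_eq hι ha ha rfl ha₀ ha₀ hc1 hc2, h1, haa, Nat.lcm_one_right]
  have e2 : orderOf (b * c) = Nat.lcm nb (off ι a b) := by
    rw [order_eq hι ha hb ((orderOf_two_iff ha hb).1 hab).2 ha₀ hb₀ hc1 hc2, h2]
  have e3 : orderOf (d * c) = Nat.lcm nd (off ι a d) := by
    rw [order_eq hι ha hd ((orderOf_two_iff ha hd).1 had).2 ha₀ hd₀ hc1 hc2, h3]
  have := hg c hc (by rw [e1, e2, e3]; exact h)
  rwa [e1, e2, e3] at this

theorem off_cases {k : ℕ} (ι : Fin k → α) (a b : Perm α) : off ι a b = 1 ∨ off ι a b = 2 := by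
  unfold off
  split_ifs
  · exact Or.inl rfl
  · exact Or.inr rfl

theorem off_eq_one {k : ℕ} {ι : Fin k → α} {a b : Perm α} (h : off ι a b = 1) :
    ∀ x, x ∉ Set.range ι → b (a x) = x := by
  unfold off at h
  by_contra h'
  rw [if_neg h'] at h
  omega

theorem off_eq_one_of {k : ℕ} {ι : Fin k → α} {a b : Perm α}
    (h : ∀ x, x ∉ Set.range ι → b (a x) = x) : off ι a b = 1 := by
  unfold off
  rw [if_pos h]

theorem off_eq_two_of {k : ℕ} {ι : Fin k → α} {a b : Perm α} {x : α} (hx : x ∉ Set.range ι)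
    (h : b (a x) ≠ x) : off ι a b = 2 := by
  unfold off
  rw [if_neg fun h' => h (h' x hx)]

end Pool.Agent.Helper2.AN
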