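import Pool.Agent.Helper2.AN.Tab

/-!
# Block AN-Z1: good triples of fixed point free involutions are Klein triples

`2 m` points, `m ≥ 5`. First no point has exactly two equal images (the involution obtained from `a` by
crossing two edges), then there is only one orbit of size four (the involution obtained from `a` by
replacing three edges by the other three edges of a hexagon).
-/

namespace Pool.Agent.Helper2.AN

open Equiv

variable {α : Type*} [Fintype α] [DecidableEq α]

section

variable {m : ℕ} {a b c d : Perm α} {x y z u : α}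

omit [DecidableEq α] [Fintype α] in
theorem it_eq {n : ℕ} {e : Perm α} (h : orderOf e = n) (t : α) : e^[n] t = t := by
  have h1 : e ^ n = 1 := by rw [← h]; exact pow_orderOf_eq_one _
  rw [Perm.iterate_eq_pow, h1]
  rfl

theorem fpf (hcard : Fintype.card α = 2 * m) (ha : IsInv m a) (t : α) : a t ≠ t := by
  have h1 : a.support = Finset.univ := by
    rw [← Finset.card_eq_iff_eq_univ, ha.2, hcard]
  rw [← Perm.mem_support, h1]
  exact Finset.mem_univ t

/-- crossing of two edges -/
theorem cross (ha : IsInv m a) (hx : a x ≠ x) (hy : a y ≠ y) (h1 : y ≠ x) :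
    ∃ c, IsInv m c ∧ c x = y ∧ c y = x ∧ c (a x) = a y ∧ c (a y) = a x ∧
      ∀ t, t ≠ x → t ≠ a x → t ≠ y → t ≠ a y → c t = a t := by
  have h3 : a y ≠ a x := fun h => h1 (a.injective h)
  refine ⟨swap (a x) y * a * swap (a x) y, ha.move _ _, ?_, ?_, ?_, ?_, ?_⟩
  · simp [swap_apply_of_ne_of_ne hx.symm h1.symm]
  · simp [ha.sq, swap_apply_of_ne_of_ne hx.symm h1.symm]
  · simp [swap_apply_of_ne_of_ne h3 hy]
  · simp [ha.sq, swap_apply_of_ne_of_ne h3 hy]
  · intro t t1 t2 t3 t4
    have h4 : a t ≠ a x := fun h => t1 (a.injective h)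
    have h5 : a t ≠ y := fun h => t4 (by rw [← h, ha.sq])
    simp [swap_apply_of_ne_of_ne t2 t3, swap_apply_of_ne_of_ne h4 h5]

/-- hexagon on three edges -/
theorem hexagon (ha : IsInv m a) (hι : Function.Injective (![x, a x, u, a u, z, a z] : Fin 6 → α)) :
    ∃ c, IsInv m c ∧ (∀ i, c ((![x, a x, u, a u, z, a z] : Fin 6 → α) i) =
      (![x, a x, u, a u, z, a z] : Fin 6 → α) ((![5, 2, 1, 4, 3, 0] : Fin 6 → Fin 6) i)) ∧
      ∀ t, t ∉ Set.range (![x, a x, u, a u, z, a z] : Fin 6 → α) → c t = a t := by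
  obtain ⟨c, h1, h2, h3⟩ := exists_c hι ha (a₀ := mkI ![1, 0, 3, 2, 5, 4] (by decide))
    (c₀ := mkI ![5, 2, 1, 4, 3, 0] (by decide))
    ⟨![0, 5, 1, 2, 3, 4], ![0, 2, 3, 4, 5, 1], by decide, by decide⟩ (by
      intro i
      fin_cases i
      · rfl
      · exact ha.sq x
      · rfl
      · exact ha.sq u
      · rfl
      · exact ha.sq z) (by decide)
  exact ⟨c, h1, h2, h3⟩

theorem orb4 (ha : IsInv m a) (hb : IsInv m b) (hab : orderOf (a * b) = 2) (hx : a x ≠ x)
    (hbx : b x ≠ x) (h : b x ≠ a x) : [x, a x, b x, a (b x)].Nodup := by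
  have e1 : x ≠ a (b x) := fun h' => h (by conv_rhs => rw [h', ha.sq])
  have e2 : a x ≠ a (b x) := fun h' => hbx (a.injective h').symm
  have e3 : b x ≠ a (b x) := by
    rw [comm_apply ha hb hab]
    exact fun h' => hx (b.injective h').symm
  simp [hx.symm, hbx.symm, h.symm, e1, e2, e3]

theorem orb8 (ha : IsInv m a) (hb : IsInv m b) (hab : orderOf (a * b) = 2) (hx : a x ≠ x)
    (hbx : b x ≠ x) (h : b x ≠ a x) (hz : a z ≠ z) (hbz : b z ≠ z) (h' : b z ≠ a z)
    (h1 : z ≠ x) (h2 : z ≠ a x) (h3 : z ≠ b x) (h4 : z ≠ a (b x)) :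
    [x, a x, b x, a (b x), z, a z, b z, a (b z)].Nodup := by
  have hc := comm_apply ha hb hab
  have hcl : ∀ t ∈ [x, a x, b x, a (b x)], a t ∈ [x, a x, b x, a (b x)] := by
    intro t ht
    simp only [List.mem_cons, List.not_mem_nil, or_false] at ht ⊢
    rcases ht with rfl | rfl | rfl | rfl
    · simp
    · rw [ha.sq]; simp
    · simp
    · rw [ha.sq]; simp
  have hcl' : ∀ t ∈ [x, a x, b x, a (b x)], b t ∈ [x, a x, b x, a (b x)] := by
    intro t ht
    simp only [List.mem_cons, List.not_mem_nil, or_false] at ht ⊢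
    rcases ht with rfl | rfl | rfl | rfl
    · simp
    · rw [← hc]; simp
    · rw [hb.sq]; simp
    · rw [← hc, hb.sq]; simp
  have k1 : z ∉ [x, a x, b x, a (b x)] := by simp [h1, h2, h3, h4]
  have k2 : a z ∉ [x, a x, b x, a (b x)] := fun h => k1 (by have := hcl _ h; rwa [ha.sq] at this)
  have k3 : b z ∉ [x, a x, b x, a (b x)] := fun h => k1 (by have := hcl' _ h; rwa [hb.sq] at this)
  have k4 : a (b z) ∉ [x, a x, b x, a (b x)] :=
    fun h => k3 (by have := hcl _ h; rwa [ha.sq] at this)
  have hap : [x, a x, b x, a (b x), z, a z, b z, a (b z)] =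
      [x, a x, b x, a (b x)] ++ [z, a z, b z, a (b z)] := rfl
  rw [hap, List.nodup_append]
  refine ⟨orb4 ha hb hab hx hbx h, orb4 ha hb hab hz hbz h', fun s hs t ht hst => ?_⟩
  rw [hst] at hs
  simp only [List.mem_cons, List.not_mem_nil, or_false] at ht
  rcases ht with rfl | rfl | rfl | rfl
  · exact k1 hs
  · exact k2 hs
  · exact k3 hs
  · exact k4 hs

/-- crossing: the order of `b * c` is four -/
theorem cross4 (ha : IsInv m a) (hb : IsInv m b) (hab : orderOf (a * b) = 2)
    (hn : [x, a x, b x, a (b x), y, a y, b y, a (b y)].Nodup)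
    (c1 : c x = y) (c2 : c y = x) (c3 : c (a x) = a y) (c4 : c (a y) = a x)
    (c5 : ∀ t, t ≠ x → t ≠ a x → t ≠ y → t ≠ a y → c t = a t) : orderOf (b * c) = 4 := by
  have hc := comm_apply ha hb hab
  have hι : Function.Injective (![x, a x, b x, a (b x), y, a y, b y, a (b y)] : Fin 8 → α) :=
    inj_of (by simpa using hn)
  have hne : ∀ i j : Fin 8, i ≠ j → (![x, a x, b x, a (b x), y, a y, b y, a (b y)] : Fin 8 → α) i ≠
    (![x, a x, b x, a (b x), y, a y, b y, a (b y)] : Fin 8 → α) j := fun i j h => hι.ne h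
  rw [order_eq hι ha hb ((orderOf_two_iff ha hb).1 hab).2
    (a₀ := mkI ![1, 0, 3, 2, 5, 4, 7, 6] (by decide)) (b₀ := mkI ![2, 3, 0, 1, 6, 7, 4, 5] (by decide))
    (c₀ := mkI ![4, 5, 3, 2, 0, 1, 7, 6] (by decide))]
  · have h4 : orderOf (mkI ![2, 3, 0, 1, 6, 7, 4, 5] (by decide) *
        mkI ![4, 5, 3, 2, 0, 1, 7, 6] (by decide) : Perm (Fin 8)) = 4 :=
      (orderOf_eq_iff (by norm_num)).2 ⟨by decide, by decide⟩
    rw [h4]
    rcases off_cases ![x, a x, b x, a (b x), y, a y, b y, a (b y)] a b with h | h <;> rw [h] <;> rfl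
  · intro i
    fin_cases i
    · rfl
    · exact ha.sq _
    · rfl
    · exact ha.sq _
    · rfl
    · exact ha.sq _
    · rfl
    · exact ha.sq _
  · intro i
    fin_cases i
    · rfl
    · exact (hc _).symm
    · exact hb.sq _
    · show b (a (b x)) = a x
      rw [← hc, hb.sq]
    · rfl
    · exact (hc _).symm
    · exact hb.sq _
    · show b (a (b y)) = a y
      rw [← hc, hb.sq]
  · intro i
    fin_cases i
    · exact c1
    · exact c3
    · exact c5 _ (hne 2 0 (by decide)) (hne 2 1 (by decide)) (hne 2 4 (by decide)) (hne 2 5 (by decide))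
    · exact (c5 (a (b x)) (hne 3 0 (by decide)) (hne 3 1 (by decide)) (hne 3 4 (by decide))
        (hne 3 5 (by decide))).trans (ha.sq _)
    · exact c2
    · exact c4
    · exact c5 _ (hne 6 0 (by decide)) (hne 6 1 (by decide)) (hne 6 4 (by decide)) (hne 6 5 (by decide))
    · exact (c5 (a (b y)) (hne 7 0 (by decide)) (hne 7 1 (by decide)) (hne 7 4 (by decide))
        (hne 7 5 (by decide))).trans (ha.sq _)
  · intro t ht
    refine c5 t ?_ ?_ ?_ ?_
    · rintro rfl; exact ht ⟨0, rfl⟩
    · rintro rfl; exact ht ⟨1, rfl⟩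
    · rintro rfl; exact ht ⟨4, rfl⟩
    · rintro rfl; exact ht ⟨5, rfl⟩

/-- crossing: the order of `a * c` is two -/
theorem cross2 (ha : IsInv m a) (h2 : y ≠ a x)
    (c1 : c x = y) (c2 : c y = x) (c3 : c (a x) = a y) (c4 : c (a y) = a x)
    (c5 : ∀ t, t ≠ x → t ≠ a x → t ≠ y → t ≠ a y → c t = a t) (hc : IsInv m c) :
    orderOf (a * c) = 2 := by
  rw [orderOf_two_iff ha hc]
  refine ⟨fun h => h2 (by rw [h, c1]), ?_⟩
  ext1 t
  rw [Perm.mul_apply, Perm.mul_apply]
  by_cases e1 : t = x
  · rw [e1, c1, c3]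
  by_cases e2 : t = a x
  · rw [e2, c3, ha.sq, ha.sq, c1]
  by_cases e3 : t = y
  · rw [e3, c2, c4]
  by_cases e4 : t = a y
  · rw [e4, c4, ha.sq, ha.sq, c2]
  · rw [c5 t e1 e2 e3 e4, ha.sq]
    have f1 : a t ≠ x := fun h => e2 (by rw [← h, ha.sq])
    have f2 : a t ≠ a x := fun h => e1 (a.injective h)
    have f3 : a t ≠ y := fun h => e4 (by rw [← h, ha.sq])
    have f4 : a t ≠ a y := fun h => e3 (a.injective h)
    rw [c5 _ f1 f2 f3 f4, ha.sq]

/-- No point where exactly `a` and `d` agree together with a point where `b`, `d` differ from `a`. -/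
theorem Good.no_B (hcard : Fintype.card α = 2 * m) (hg : Good m a b d) (h1 : d x = a x)
    (h2 : b x ≠ a x) (h3 : b y ≠ a y) (h4 : d y ≠ a y) : False := by
  obtain ⟨ha, hb, hd, hab, had, hbd, hg⟩ := hg
  have fa := fpf hcard ha
  have fb := fpf hcard hb
  have fd := fpf hcard hd
  have hc1 := comm_apply ha hb hab
  have hc2 := comm_apply ha hd had
  have hc3 := comm_apply hb hd hbd
  have n1 : y ≠ x := by rintro rfl; exact h4 h1
  have n2 : y ≠ a x := by
    rintro rfl
    apply h4
    rw [← hc2, h1]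
  have n3 : y ≠ b x := by
    rintro rfl
    apply h4
    rw [← hc3, h1, hc1]
  have n4 : y ≠ a (b x) := by
    rintro rfl
    apply h4
    rw [← hc2, ← hc3, h1, ← hc1 x]
  obtain ⟨c, hc, c1, c2, c3, c4, c5⟩ := cross ha (fa x) (fa y) n1
  have o1 := cross2 ha n2 c1 c2 c3 c4 c5 hc
  have o2 := cross4 ha hb hab (orb8 ha hb hab (fa x) (fb x) h2 (fa y) (fb y) h3 n1 n2 n3 n4)
    c1 c2 c3 c4 c5
  have h5 := hg c hc (Or.inl o1)
  rw [o1, o2] at h5
  -- `d * c` has a cycle of length three
  have p1 : (d * c) y = a x := by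
    rw [Perm.mul_apply, c2, h1]
  have p2 : (d * c) (a x) = a (d y) := by
    rw [Perm.mul_apply, c3, hc2]
  have p3 : (d * c) (a (d y)) = y := by
    rw [Perm.mul_apply, c5, ha.sq, hd.sq]
    · intro h
      have : d (a (d y)) = d x := by rw [h]
      rw [← hc2, hd.sq, h1] at this
      exact n1 (a.injective this)
    · intro h
      have := a.injective h
      have : d (d y) = d x := by rw [this]
      rw [hd.sq, h1] at this
      exact n2 this
    · intro h
      apply h4
      have : a (a (d y)) = a y := by rw [h]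
      rwa [ha.sq] at this
    · intro h
      exact fd y (a.injective h)
  have q1 : orderOf (d * c) ≠ 2 := by
    intro h
    have := it_eq h y
    rw [Function.iterate_succ_apply, Function.iterate_succ_apply, Function.iterate_zero_apply,
      p1, p2] at this
    apply h4
    rw [← ha.sq (d y), this]
  have q2 : orderOf (d * c) ≠ 4 := by
    intro h
    have := it_eq h y
    rw [Function.iterate_succ_apply, Function.iterate_succ_apply, Function.iterate_succ_apply,
      Function.iterate_succ_apply, Function.iterate_zero_apply, p1, p2, p3, p1] at this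
    exact n2 this.symm
  unfold TwoEq at h5
  omega

theorem Good.no_B' (hcard : Fintype.card α = 2 * m) (hg : Good m a b d) (h1 : d x = a x) :
    b x = a x := by
  by_contra h2
  have hne : a ≠ d := ((orderOf_two_iff hg.1 hg.2.2.1).1 hg.2.2.2.2.1).1
  apply hne
  ext1 y
  by_contra h4
  have h4' : d y ≠ a y := fun h => h4 h.symm
  have hg' : Good m d b a := hg.symm12.symm23.symm12
  have k1 : b y = a y := by
    by_contra h3
    exact hg.no_B hcard h1 h2 h3 h4'
  have k2 : b y = d y := by
    by_contra h3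
    exact hg'.no_B hcard h1.symm (by rw [h1]; exact h2) h3 h4
  exact h4 (by rw [← k1, k2])

/-- At every point all three agree or all three are different. -/
theorem Good.all_or (hcard : Fintype.card α = 2 * m) (hg : Good m a b d) (x : α) :
    (b x = a x ∧ d x = a x) ∨ (b x ≠ a x ∧ d x ≠ a x ∧ d x ≠ b x) := by
  by_cases h1 : d x = a x
  · exact Or.inl ⟨hg.no_B' hcard h1, h1⟩
  by_cases h2 : b x = a x
  · exact Or.inl ⟨h2, hg.symm23.no_B' hcard h2⟩
  by_cases h3 : d x = b x
  · have := hg.symm12.no_B' hcard h3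
    exact absurd this.symm h2
  · exact Or.inr ⟨h2, h1, h3⟩

end

end Pool.Agent.Helper2.AN
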