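import Pool.Agent.Helper2.AN.Z1
import Pool.Agent.Helper2.AN.E1

/-!
# Block AN-Z2: good triples of fixed point free involutions are Klein triples, second part
-/

namespace Pool.Agent.Helper2.AN

open Equiv

variable {α : Type*} [Fintype α] [DecidableEq α]

section

variable {m : ℕ} {a b c d : Perm α} {x y z u : α}

omit [Fintype α] [DecidableEq α] in
/-- `c` is a hexagon on the edges of `x`, `u`, `z` -/
structure Hex (a c : Perm α) (x u z : α) : Prop where
  c0 : c x = a z
  c1 : c (a x) = u
  c2 : c u = a x
  c3 : c (a u) = z
  c4 : c z = a u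
  c5 : c (a z) = x
  off : ∀ t, t ≠ x → t ≠ a x → t ≠ u → t ≠ a u → t ≠ z → t ≠ a z → c t = a t

theorem exists_hex (ha : IsInv m a) (hn : [x, a x, u, a u, z, a z].Nodup) :
    ∃ c, IsInv m c ∧ Hex a c x u z := by
  have hι : Function.Injective (![x, a x, u, a u, z, a z] : Fin 6 → α) := inj_of (by simpa using hn)
  obtain ⟨c, h1, h2, h3⟩ := hexagon ha hι
  refine ⟨c, h1, h2 0, h2 1, h2 2, h2 3, h2 4, h2 5, fun t t0 t1 t2 t3 t4 t5 => h3 t ?_⟩
  rintro ⟨i, hi⟩
  fin_cases i
  · exact t0 hi.symm
  · exact t1 hi.symm
  · exact t2 hi.symm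
  · exact t3 hi.symm
  · exact t4 hi.symm
  · exact t5 hi.symm

/-- the model on six points -/
theorem Hex.order (hh : Hex a c x u z) (ha : IsInv m a) (hn : [x, a x, u, a u, z, a z].Nodup)
    (hb : IsInv m b) (hab : a * b = b * a) {b₀ : Perm (Fin 6)} {n : ℕ}
    (h0 : ∀ i, b ((![x, a x, u, a u, z, a z] : Fin 6 → α) i) =
      (![x, a x, u, a u, z, a z] : Fin 6 → α) (b₀ i))
    (hn' : orderOf (b₀ * mkI ![5, 2, 1, 4, 3, 0] (by decide)) = n) :
    orderOf (b * c) = Nat.lcm n (AN.off (![x, a x, u, a u, z, a z] : Fin 6 → α) a b) := by
  have hι : Function.Injective (![x, a x, u, a u, z, a z] : Fin 6 → α) := inj_of (by simpa using hn)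
  rw [order_eq hι ha hb hab (a₀ := mkI ![1, 0, 3, 2, 5, 4] (by decide)) (b₀ := b₀)
    (c₀ := mkI ![5, 2, 1, 4, 3, 0] (by decide)) ?_ h0 ?_ ?_, hn']
  · intro i
    fin_cases i
    · rfl
    · exact ha.sq x
    · rfl
    · exact ha.sq u
    · rfl
    · exact ha.sq z
  · intro i
    fin_cases i
    · exact hh.c0
    · exact hh.c1
    · exact hh.c2
    · exact hh.c3
    · exact hh.c4
    · exact hh.c5
  · intro t ht
    refine hh.off t ?_ ?_ ?_ ?_ ?_ ?_
    · rintro rfl; exact ht ⟨0, rfl⟩
    · rintro rfl; exact ht ⟨1, rfl⟩
    · rintro rfl; exact ht ⟨2, rfl⟩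
    · rintro rfl; exact ht ⟨3, rfl⟩
    · rintro rfl; exact ht ⟨4, rfl⟩
    · rintro rfl; exact ht ⟨5, rfl⟩

theorem Hex.order_self (hh : Hex a c x u z) (ha : IsInv m a) (hn : [x, a x, u, a u, z, a z].Nodup) :
    orderOf (a * c) = 3 := by
  have h1 := hh.order ha hn ha rfl (b₀ := mkI ![1, 0, 3, 2, 5, 4] (by decide)) (n := 3) (by
    intro i
    fin_cases i
    · rfl
    · exact ha.sq x
    · rfl
    · exact ha.sq u
    · rfl
    · exact ha.sq z) ((orderOf_eq_iff (by norm_num)).2 ⟨by decide, by decide⟩)
  rw [off_eq_one_of fun t _ => ha.sq t, Nat.lcm_one_right] at h1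
  exact h1

/-- `b` exchanges the edges of `x` and `u`, and agrees with `a` at `z` -/
theorem Hex.order_b (hh : Hex a c x (b x) z) (ha : IsInv m a)
    (hn : [x, a x, b x, a (b x), z, a z].Nodup) (hb : IsInv m b) (hab : orderOf (a * b) = 2)
    (hz : b z = a z) :
    orderOf (b * c) = Nat.lcm 3 (AN.off (![x, a x, b x, a (b x), z, a z] : Fin 6 → α) a b) := by
  have hc := comm_apply ha hb hab
  refine hh.order ha hn hb ((orderOf_two_iff ha hb).1 hab).2
    (b₀ := mkI ![2, 3, 0, 1, 5, 4] (by decide)) (n := 3) ?_
    ((orderOf_eq_iff (by norm_num)).2 ⟨by decide, by decide⟩)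
  intro i
  fin_cases i
  · rfl
  · exact (hc x).symm
  · exact hb.sq x
  · show b (a (b x)) = a x
    rw [← hc, hb.sq]
  · exact hz
  · show b (a z) = z
    rw [← hc, hz, ha.sq]

/-- `d` exchanges the edges of `x` and `u` in the other way, and agrees with `a` at `z` -/
theorem Hex.order_d (hh : Hex a c x u z) (ha : IsInv m a)
    (hn : [x, a x, u, a u, z, a z].Nodup) (hd : IsInv m d) (had : orderOf (a * d) = 2)
    (hx : d x = a u) (hz : d z = a z) :
    orderOf (d * c) = 2 := by
  have hc := comm_apply ha hd had
  have hu : d u = a x := by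
    have : d (d x) = d (a u) := by rw [hx]
    rw [hd.sq, ← hc] at this
    rw [this, ha.sq]
  rw [hh.order ha hn hd ((orderOf_two_iff ha hd).1 had).2
    (b₀ := mkI ![3, 2, 1, 0, 5, 4] (by decide)) (n := 2) ?_
    ((orderOf_eq_iff (by norm_num)).2 ⟨by decide, by decide⟩)]
  · rcases off_cases ![x, a x, u, a u, z, a z] a d with h | h <;> rw [h] <;> rfl
  · intro i
    fin_cases i
    · exact hx
    · show d (a x) = u
      rw [← hc, hx, ha.sq]
    · exact hu
    · show d (a u) = x
      rw [← hc, hu, ha.sq]
    · exact hz
    · show d (a z) = z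
      rw [← hc, hz, ha.sq]

/-- `b` exchanges the edges of `x` and `u`, and moves the edge of `z` -/
theorem Hex.order_four (hh : Hex a c x (b x) z) (ha : IsInv m a)
    (hn : [x, a x, b x, a (b x), z, a z, b z, a (b z)].Nodup) (hb : IsInv m b)
    (hab : orderOf (a * b) = 2) : orderOf (b * c) = 4 := by
  have hc := comm_apply ha hb hab
  have hι : Function.Injective (![x, a x, b x, a (b x), z, a z, b z, a (b z)] : Fin 8 → α) :=
    inj_of (by simpa using hn)
  have hne : ∀ i j : Fin 8, i ≠ j → (![x, a x, b x, a (b x), z, a z, b z, a (b z)] : Fin 8 → α) i ≠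
    (![x, a x, b x, a (b x), z, a z, b z, a (b z)] : Fin 8 → α) j := fun i j h => hι.ne h
  rw [order_eq hι ha hb ((orderOf_two_iff ha hb).1 hab).2
    (a₀ := mkI ![1, 0, 3, 2, 5, 4, 7, 6] (by decide)) (b₀ := mkI ![2, 3, 0, 1, 6, 7, 4, 5] (by decide))
    (c₀ := mkI ![5, 2, 1, 4, 3, 0, 7, 6] (by decide))]
  · have h4 : orderOf (mkI ![2, 3, 0, 1, 6, 7, 4, 5] (by decide) *
        mkI ![5, 2, 1, 4, 3, 0, 7, 6] (by decide) : Perm (Fin 8)) = 4 :=
      (orderOf_eq_iff (by norm_num)).2 ⟨by decide, by decide⟩
    rw [h4]
    rcases off_cases ![x, a x, b x, a (b x), z, a z, b z, a (b z)] a b with h | h <;> rw [h] <;> rfl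
  · intro i
    fin_cases i
    · rfl
    · exact ha.sq _
    · rfl
    · exact ha.sq _
    · rfl
    · exact ha.sq _
    · rfl
    · exact ha.sq _
  · intro i
    fin_cases i
    · rfl
    · exact (hc _).symm
    · exact hb.sq _
    · show b (a (b x)) = a x
      rw [← hc, hb.sq]
    · rfl
    · exact (hc _).symm
    · exact hb.sq _
    · show b (a (b z)) = a z
      rw [← hc, hb.sq]
  · intro i
    fin_cases i
    · exact hh.c0
    · exact hh.c1
    · exact hh.c2
    · exact hh.c3
    · exact hh.c4
    · exact hh.c5
    · exact hh.off (b z) (hne 6 0 (by decide)) (hne 6 1 (by decide)) (hne 6 2 (by decide))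
        (hne 6 3 (by decide)) (hne 6 4 (by decide)) (hne 6 5 (by decide))
    · exact (hh.off (a (b z)) (hne 7 0 (by decide)) (hne 7 1 (by decide)) (hne 7 2 (by decide))
        (hne 7 3 (by decide)) (hne 7 4 (by decide)) (hne 7 5 (by decide))).trans (ha.sq _)
  · intro t ht
    refine hh.off t ?_ ?_ ?_ ?_ ?_ ?_
    · rintro rfl; exact ht ⟨0, rfl⟩
    · rintro rfl; exact ht ⟨1, rfl⟩
    · rintro rfl; exact ht ⟨2, rfl⟩
    · rintro rfl; exact ht ⟨3, rfl⟩
    · rintro rfl; exact ht ⟨4, rfl⟩
    · rintro rfl; exact ht ⟨5, rfl⟩

theorem mem_cl (ha : IsInv m a) {S : Finset α} (h : ∀ t ∈ S, a t ∈ S) {t : α} : a t ∈ S ↔ t ∈ S :=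
  ⟨fun h' => by have := h _ h'; rwa [ha.sq] at this, fun h' => h t h'⟩

/-- Good triples of fixed point free involutions on at least ten points are Klein triples. -/
theorem Good.klein (hcard : Fintype.card α = 2 * m) (hm : 5 ≤ m) (hg : Good m a b d) :
    Klein a b d := by
  have hall := hg.all_or hcard
  have hg0 := hg
  obtain ⟨ha, hb, hd, hab, had, hbd, hg⟩ := hg
  have fa := fpf hcard ha
  have fb := fpf hcard hb
  have fd := fpf hcard hd
  have hc1 := comm_apply ha hb hab
  have hc2 := comm_apply ha hd had
  have hc3 := comm_apply hb hd hbd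
  -- points where `b` differs from `a` are proper
  have hprop : ∀ t, b t ≠ a t → d t ≠ a t ∧ d t ≠ b t := by
    intro t ht
    rcases hall t with h | h
    · exact absurd h.1 ht
    · exact h.2
  have hD : ∀ t, b t = a t → d t = a t := by
    intro t ht
    rcases hall t with h | h
    · exact h.2
    · exact absurd ht h.1
  -- closure
  have mA : ∀ t, b (a t) = a (a t) ↔ b t = a t := by
    intro t
    rw [← hc1]
    exact a.injective.eq_iff
  have mB : ∀ t, b (b t) = a (b t) ↔ b t = a t := by
    intro t
    rw [hc1]
    exact b.injective.eq_iff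
  have mD : ∀ t, b (d t) = a (d t) ↔ b t = a t := by
    intro t
    rw [hc3, hc2]
    exact d.injective.eq_iff
  have orb : ∀ x, b x ≠ a x → [x, a x, b x, a (b x)].Nodup := fun x hx =>
    orb4 ha hb hab (fa x) (fb x) hx
  have key : ∀ x, b x ≠ a x → d x = a (b x) := by
    by_contra hcon
    push Not at hcon
    obtain ⟨x, hx, hxO⟩ := hcon
    obtain ⟨hdx, hdx'⟩ := hprop x hx
    by_cases hz : ∃ z, b z = a z
    · obtain ⟨z, hz⟩ := hz
      have hdz := hD z hz
      have hn : [x, a x, b x, a (b x), z, a z].Nodup := by
        have e1 : x ≠ z := by rintro rfl; exact hx hz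
        have e2 : a x ≠ z := by
          rintro rfl
          exact hx ((mA x).1 hz)
        have e3 : b x ≠ z := by
          rintro rfl
          exact hx ((mB x).1 hz)
        have e4 : a (b x) ≠ z := by
          rintro rfl
          exact hx ((mB x).1 ((mA _).1 hz))
        have e1' : x ≠ a z := fun h => e2 (by rw [h, ha.sq])
        have e2' : a x ≠ a z := fun h => e1 (a.injective h)
        have e3' : b x ≠ a z := fun h => e4 (by rw [h, ha.sq])
        have e4' : a (b x) ≠ a z := fun h => e3 (a.injective h)
        have h1 := orb x hx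
        simp only [List.nodup_cons, List.mem_cons, List.not_mem_nil, or_false, not_or,
          not_false_eq_true, List.nodup_nil, and_true] at h1 ⊢
        have h2 : z ≠ a z := (fa z).symm
        tauto
      obtain ⟨c, hc, hh⟩ := exists_hex (u := b x) ha hn
      have o1 := hh.order_self ha hn
      have o2 := hh.order_b ha hn hb hab hz
      -- `d x` is outside of the six points
      have hout : ∀ t, b t ≠ a t → t ≠ x → t ≠ a x → t ≠ b x → t ≠ a (b x) → c t = a t := by
        intro t ht t0 t1 t2 t3
        refine hh.off t t0 t1 t2 t3 ?_ ?_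
        · rintro rfl; exact ht hz
        · rintro rfl; exact ht ((mA z).2 hz)
      have hoff : AN.off (![x, a x, b x, a (b x), z, a z] : Fin 6 → α) a b = 2 := by
        refine off_eq_two_of (x := d x) ?_ ?_
        · rintro ⟨i, hi⟩
          fin_cases i
          · exact fd x hi.symm
          · exact hdx hi.symm
          · exact hdx' hi.symm
          · exact hxO hi.symm
          · have h1 : z = d x := hi
            apply hx
            rw [← mD, ← h1]
            exact hz
          · have h1 : a z = d x := hi
            apply hx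
            rw [← mD, ← h1, mA]
            exact hz
        · intro h
          apply hx
          rw [← mD, ← mA, ha.sq]
          exact h
      rw [hoff] at o2
      have o2' : orderOf (b * c) = 6 := o2
      have h5 := hg c hc (Or.inr (Or.inl o1))
      rw [o1, o2'] at h5
      -- `d * c` has a cycle of length five
      have hbd' : b (a (d x)) ≠ a (a (d x)) := by rw [Ne, mA, mD]; exact hx
      have hbd'' : b (a (b (d x))) ≠ a (a (b (d x))) := by rw [Ne, mA, mB, mD]; exact hx
      have p1 : (d * c) x = z := by
        rw [Perm.mul_apply, hh.c0, ← hc2, hdz, ha.sq]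
      have p2 : (d * c) z = a (b (d x)) := by
        rw [Perm.mul_apply, hh.c4, ← hc2, ← hc3]
      have p3 : (d * c) (a (b (d x))) = b x := by
        rw [Perm.mul_apply, hout _ hbd'', ha.sq, ← hc3, hd.sq]
        · intro h
          apply hxO
          have h6 : a (b (a (b (d x)))) = d x := by rw [hc1 (d x), hb.sq, ha.sq]
          rw [← h6, h]
        · intro h
          apply hdx'
          have h6 := a.injective h
          rw [← hb.sq (d x), h6]
        · intro h
          apply hdx
          rw [hc1] at h
          have h6 := b.injective h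
          rw [← ha.sq (d x), h6]
        · intro h
          exact fd x (b.injective (a.injective h))
      have p4 : (d * c) (b x) = a (d x) := by
        rw [Perm.mul_apply, hh.c2, hc2]
      have p5 : (d * c) (a (d x)) = x := by
        rw [Perm.mul_apply, hout _ hbd', ha.sq, hd.sq]
        · intro h
          exact hdx (by rw [← ha.sq (d x), h])
        · intro h
          exact fd x (a.injective h)
        · intro h
          exact hxO (by rw [← ha.sq (d x), h])
        · intro h
          exact hdx' (a.injective h)
      have q3 : orderOf (d * c) ≠ 3 := by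
        intro h
        have := it_eq h x
        simp only [Function.iterate_succ_apply, Function.iterate_zero_apply, p1, p2, p3] at this
        exact fb x this
      have q6 : orderOf (d * c) ≠ 6 := by
        intro h
        have := it_eq h x
        simp only [Function.iterate_succ_apply, Function.iterate_zero_apply, p1, p2, p3, p4, p5]
          at this
        exact hx (by rw [← this]; exact hz)
      unfold TwoEq at h5
      omega
    · -- no point where all agree
      push Not at hz
      obtain ⟨z, hzm, hzn⟩ : ∃ z, a z ≠ z ∧ z ∉ [x, a x, b x, a (b x), d x, a (d x), b (d x),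
          a (b (d x))].toFinset :=
        exists_other ha (lt_of_le_of_lt (List.toFinset_card_le _)
          (by simp only [List.length_cons, List.length_nil]; omega))
      simp only [List.mem_toFinset, List.mem_cons, List.not_mem_nil, or_false, not_or] at hzn
      obtain ⟨z0, z1, z2, z3, z4, z5, z6, z7⟩ := hzn
      have hn8 := orb8 ha hb hab (fa x) (fb x) hx (fa z) (fb z) (hz z) z0 z1 z2 z3
      have hn : [x, a x, b x, a (b x), z, a z].Nodup := by
        have hap : [x, a x, b x, a (b x), z, a z, b z, a (b z)] =
          [x, a x, b x, a (b x), z, a z] ++ [b z, a (b z)] := rfl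
        rw [hap] at hn8
        exact hn8.of_append_left
      obtain ⟨c, hc, hh⟩ := exists_hex (u := b x) ha hn
      have o1 := hh.order_self ha hn
      have o2 := hh.order_four ha hn8 hb hab
      have h5 := hg c hc (Or.inr (Or.inl o1))
      rw [o1, o2] at h5
      obtain ⟨hdz, hdz'⟩ := hprop z (hz z)
      have p1 : (d * c) x = a (d z) := by
        rw [Perm.mul_apply, hh.c0, hc2]
      have p2 : (d * c) (a (d z)) = z := by
        rw [Perm.mul_apply, hh.off, ha.sq, hd.sq]
        · intro h
          apply z5
          rw [← hd.sq z, ← ha.sq (d z), h, hc2]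
        · intro h
          apply z4
          rw [← hd.sq z, a.injective h]
        · intro h
          apply z7
          rw [← hd.sq z, ← ha.sq (d z), h, ← hc2, hc3]
        · intro h
          apply z6
          rw [← hd.sq z, a.injective h, hc3]
        · intro h
          exact hdz (by rw [← ha.sq (d z), h])
        · intro h
          exact fd z (a.injective h)
      have p3 : (d * c) z = a (b (d x)) := by
        rw [Perm.mul_apply, hh.c4, ← hc2, ← hc3]
      have p4 : (d * c) (a (b (d x))) = b x := by
        rw [Perm.mul_apply, hh.off, ha.sq, ← hc3, hd.sq]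
        · intro h
          apply hxO
          have h6 : a (b (a (b (d x)))) = d x := by rw [hc1 (d x), hb.sq, ha.sq]
          rw [← h6, h]
        · intro h
          apply hdx'
          have h6 := a.injective h
          rw [← hb.sq (d x), h6]
        · intro h
          apply hdx
          rw [hc1] at h
          have h6 := b.injective h
          rw [← ha.sq (d x), h6]
        · intro h
          exact fd x (b.injective (a.injective h))
        · exact fun h => z7 h.symm
        · intro h
          exact z6 (a.injective h).symm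
      have q3 : orderOf (d * c) ≠ 3 := by
        intro h
        have := it_eq h x
        simp only [Function.iterate_succ_apply, Function.iterate_zero_apply, p1, p2, p3] at this
        apply hxO
        have h6 : a (b (a (b (d x)))) = d x := by rw [hc1 (d x), hb.sq, ha.sq]
        rw [← h6, this]
      have q4 : orderOf (d * c) ≠ 4 := by
        intro h
        have := it_eq h x
        simp only [Function.iterate_succ_apply, Function.iterate_zero_apply, p1, p2, p3, p4] at this
        exact fb x this
      unfold TwoEq at h5
      omega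
  -- all proper orbits have size four; there is only one
  obtain ⟨x, hx⟩ : ∃ x, b x ≠ a x := by
    by_contra hcon
    push Not at hcon
    exact ((orderOf_two_iff ha hb).1 hab).1 (Equiv.ext fun t => (hcon t).symm)
  have hdx := key x hx
  have hone : ∀ t, t ≠ x → t ≠ a x → t ≠ b x → t ≠ a (b x) → b t = a t := by
    by_contra hcon
    push Not at hcon
    obtain ⟨t, t0, t1, t2, t3, ht⟩ := hcon
    by_cases hz : ∃ z, b z = a z
    · obtain ⟨z, hz⟩ := hz
      have hdz := hD z hz
      have hn : [x, a x, b x, a (b x), z, a z].Nodup := by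
        have e1 : x ≠ z := by rintro rfl; exact hx hz
        have e2 : a x ≠ z := by
          rintro rfl
          exact hx ((mA x).1 hz)
        have e3 : b x ≠ z := by
          rintro rfl
          exact hx ((mB x).1 hz)
        have e4 : a (b x) ≠ z := by
          rintro rfl
          exact hx ((mB x).1 ((mA _).1 hz))
        have e1' : x ≠ a z := fun h => e2 (by rw [h, ha.sq])
        have e2' : a x ≠ a z := fun h => e1 (a.injective h)
        have e3' : b x ≠ a z := fun h => e4 (by rw [h, ha.sq])
        have e4' : a (b x) ≠ a z := fun h => e3 (a.injective h)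
        have h1 := orb x hx
        simp only [List.nodup_cons, List.mem_cons, List.not_mem_nil, or_false, not_or,
          not_false_eq_true, List.nodup_nil, and_true] at h1 ⊢
        have h2 : z ≠ a z := (fa z).symm
        tauto
      obtain ⟨c, hc, hh⟩ := exists_hex (u := b x) ha hn
      have o1 := hh.order_self ha hn
      have o2 := hh.order_b ha hn hb hab hz
      have o3 := hh.order_d ha hn hd had hdx hdz
      have hoff : AN.off (![x, a x, b x, a (b x), z, a z] : Fin 6 → α) a b = 2 := by
        refine off_eq_two_of (x := t) ?_ ?_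
        · rintro ⟨i, hi⟩
          fin_cases i
          · exact t0 hi.symm
          · exact t1 hi.symm
          · exact t2 hi.symm
          · exact t3 hi.symm
          · have h1 : z = t := hi
            exact ht (h1 ▸ hz)
          · have h1 : a z = t := hi
            exact ht (h1 ▸ (mA z).2 hz)
        · intro h
          apply ht
          rw [← mA, ha.sq]
          exact h
      rw [hoff] at o2
      have o2' : orderOf (b * c) = 6 := o2
      have h5 := hg c hc (Or.inr (Or.inl o1))
      rw [o1, o2', o3] at h5
      unfold TwoEq at h5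
      omega
    · push Not at hz
      -- `t` plays the role of `z`; one more orbit
      obtain ⟨w, hwm, hwn⟩ : ∃ w, a w ≠ w ∧ w ∉ [x, a x, b x, a (b x), t, a t, b t,
          a (b t)].toFinset :=
        exists_other ha (lt_of_le_of_lt (List.toFinset_card_le _)
          (by simp only [List.length_cons, List.length_nil]; omega))
      simp only [List.mem_toFinset, List.mem_cons, List.not_mem_nil, or_false, not_or] at hwn
      obtain ⟨w0, w1, w2, w3, w4, w5, w6, w7⟩ := hwn
      have hn8 := orb8 ha hb hab (fa x) (fb x) hx (fa t) (fb t) ht t0 t1 t2 t3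
      have hn : [x, a x, b x, a (b x), t, a t].Nodup := by
        have hap : [x, a x, b x, a (b x), t, a t, b t, a (b t)] =
          [x, a x, b x, a (b x), t, a t] ++ [b t, a (b t)] := rfl
        rw [hap] at hn8
        exact hn8.of_append_left
      obtain ⟨c, hc, hh⟩ := exists_hex (u := b x) ha hn
      have o1 := hh.order_self ha hn
      have o2 := hh.order_four ha hn8 hb hab
      have h5 := hg c hc (Or.inr (Or.inl o1))
      rw [o1, o2] at h5
      have hdt := key t ht
      have hdw := key w (hz w)
      have p1 : (d * c) x = b t := by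
        rw [Perm.mul_apply, hh.c0, ← hc2, hdt, ha.sq]
      have nd : ∀ i j : Fin 8, i ≠ j → (![x, a x, b x, a (b x), t, a t, b t, a (b t)] : Fin 8 → α) i ≠
          (![x, a x, b x, a (b x), t, a t, b t, a (b t)] : Fin 8 → α) j := fun i j h =>
        (inj_of (f := (![x, a x, b x, a (b x), t, a t, b t, a (b t)] : Fin 8 → α))
          (by simpa using hn8)).ne h
      have p2 : (d * c) (b t) = t := by
        rw [Perm.mul_apply, hh.off (b t) (nd 6 0 (by decide)) (nd 6 1 (by decide))
          (nd 6 2 (by decide)) (nd 6 3 (by decide)) (nd 6 4 (by decide)) (nd 6 5 (by decide)),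
          ← hdt, hd.sq]
      have p3 : (d * c) t = x := by
        rw [Perm.mul_apply, hh.c4, ← hdx, hd.sq]
      have hbw : b w ≠ a w := hz w
      -- at `w` the product has order two
      have g1 : (d * c) w = b w := by
        rw [Perm.mul_apply, hh.off w w0 w1 w2 w3 w4 w5, ← hc2, hdw, ha.sq]
      have g2 : (d * c) (b w) = w := by
        rw [Perm.mul_apply, hh.off, ← hdw, hd.sq]
        · intro h
          exact w2 (by rw [← h, hb.sq])
        · intro h
          exact w3 (by rw [hc1, ← h, hb.sq])
        · intro h
          exact w0 (b.injective h)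
        · intro h
          rw [hc1] at h
          exact w1 (b.injective h)
        · intro h
          exact w6 (by rw [← h, hb.sq])
        · intro h
          exact w7 (by rw [hc1, ← h, hb.sq])
      have q3 : orderOf (d * c) ≠ 3 := by
        intro h
        have := it_eq h w
        simp only [Function.iterate_succ_apply, Function.iterate_zero_apply, g1, g2] at this
        exact fb w this
      have q4 : orderOf (d * c) ≠ 4 := by
        intro h
        have := it_eq h x
        simp only [Function.iterate_succ_apply, Function.iterate_zero_apply, p1, p2, p3] at this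
        exact nd 6 0 (by decide) this
      unfold TwoEq at h5
      omega
  have hnd := orb x hx
  simp only [List.nodup_cons, List.mem_cons, List.not_mem_nil, or_false, not_or,
    not_false_eq_true, List.nodup_nil, and_true] at hnd
  obtain ⟨⟨e1, e2, e3⟩, ⟨e4, e5⟩, e6⟩ := hnd
  refine ⟨x, a x, b x, a (b x), e1, e2, e3, e4, e5, e6, ⟨rfl, ha.sq _, rfl, ha.sq _⟩,
    ⟨rfl, hb.sq _, ?_, ?_⟩, ⟨hdx, ?_, ?_, ?_⟩, fun t t0 t1 t2 t3 => ?_⟩
  · exact (hc1 x).symm
  · rw [← hc1, hb.sq]
  · rw [← hdx, hd.sq]
  · rw [← hc2, hdx, ha.sq]
  · have h1 : d (a x) = b x := by rw [← hc2, hdx, ha.sq]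
    rw [← h1, hd.sq]
  · have h1 := hone t t0 t1 t2 t3
    exact ⟨h1.symm, (hD t h1).symm⟩

end

end Pool.Agent.Helper2.AN
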