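import Pool.Agent.Helper2.AN.Z2
import Pool.Agent.Helper2.AN.Kl
import Pool.Agent.Helper2.AN.Conn
import Pool.Agent.Helper2.AN.FTwo

/-!
# Block AN-Z3: blocks of Klein neighbours of fixed point free involutions

`df a b` is the set of points where `a` and `b` differ. Klein neighbours: `(df a b).card = 4`.
-/

namespace Pool.Agent.Helper2.AN

open Equiv

variable {α : Type*} [Fintype α] [DecidableEq α]

/-- where they differ -/
def df (a b : Perm α) : Finset α := Finset.univ.filter fun t => a t ≠ b t

theorem mem_df {a b : Perm α} {t : α} : t ∈ df a b ↔ a t ≠ b t := by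
  unfold df
  simp

theorem notMem_df {a b : Perm α} {t : α} : t ∉ df a b ↔ a t = b t := by
  rw [mem_df, not_not]

theorem df_comm (a b : Perm α) : df a b = df b a := by
  ext t
  rw [mem_df, mem_df]
  exact ne_comm

section

variable {m : ℕ} {a b c d : Perm α} {x y z : α}

theorem df_left (ha : IsInv m a) (hb : IsInv m b) {t : α} : a t ∈ df a b ↔ t ∈ df a b := by
  rw [mem_df, mem_df, ha.sq]
  constructor
  · intro h h'
    apply h
    rw [h', hb.sq]
  · intro h h'
    apply h
    have := congrArg b h'
    rw [hb.sq] at this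
    exact this.symm

theorem df_right (ha : IsInv m a) (hb : IsInv m b) {t : α} : b t ∈ df a b ↔ t ∈ df a b := by
  rw [df_comm, df_left hb ha]

theorem Klein.df_eq (h : Klein a b d) : (df a b).card = 4 ∧ df a b = df a d := by
  obtain ⟨x, y, z, w, h1, h2, h3, h4, h5, h6, ⟨a1, a2, a3, a4⟩, ⟨b1, b2, b3, b4⟩,
    ⟨d1, d2, d3, d4⟩, h⟩ := h
  have e1 : df a b = {x, y, z, w} := by
    ext t
    rw [mem_df]
    simp only [Finset.mem_insert, Finset.mem_singleton]
    constructor
    · intro ht
      by_contra hc
      push Not at hc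
      exact ht (h t hc.1 hc.2.1 hc.2.2.1 hc.2.2.2).1
    · rintro (rfl | rfl | rfl | rfl)
      · rw [a1, b1]; exact h4
      · rw [a2, b3]; exact h3
      · rw [a3, b2]; exact h3.symm
      · rw [a4, b4]; exact h4.symm
  have e2 : df a d = {x, y, z, w} := by
    ext t
    rw [mem_df]
    simp only [Finset.mem_insert, Finset.mem_singleton]
    constructor
    · intro ht
      by_contra hc
      push Not at hc
      exact ht (h t hc.1 hc.2.1 hc.2.2.1 hc.2.2.2).2
    · rintro (rfl | rfl | rfl | rfl)
      · rw [a1, d1]; exact h5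
      · rw [a2, d3]; exact h2
      · rw [a3, d4]; exact h5.symm
      · rw [a4, d2]; exact h2.symm
  refine ⟨?_, by rw [e1, e2]⟩
  rw [e1, Finset.card_insert_of_notMem (by simp [h1, h2, h3]),
    Finset.card_insert_of_notMem (by simp [h4, h5]),
    Finset.card_insert_of_notMem (by simp [h6]), Finset.card_singleton]

/-- A nonempty set of points where two involutions differ contains four special points. -/
theorem four_of (hcard : Fintype.card α = 2 * m) (ha : IsInv m a) (hb : IsInv m b) {S : Finset α}
    (hSa : ∀ t ∈ S, a t ∈ S) (hSb : ∀ t ∈ S, b t ∈ S) (hx : x ∈ S) (hd : a x ≠ b x) :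
    ({x, a x, b x, a (b x)} : Finset α) ⊆ S ∧ ({x, a x, b x, a (b x)} : Finset α).card = 4 := by
  have fa := fpf hcard ha
  have fb := fpf hcard hb
  have e1 : x ≠ a (b x) := fun h => hd (by conv_lhs => rw [h, ha.sq])
  have e2 : a x ≠ a (b x) := fun h => fb x (a.injective h).symm
  constructor
  · intro t ht
    simp only [Finset.mem_insert, Finset.mem_singleton] at ht
    rcases ht with rfl | rfl | rfl | rfl
    · exact hx
    · exact hSa _ hx
    · exact hSb _ hx
    · exact hSa _ (hSb _ hx)
  · rw [Finset.card_insert_of_notMem (by simp [(fa x).symm, (fb x).symm, e1]),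
      Finset.card_insert_of_notMem (by simp [hd, e2]),
      Finset.card_insert_of_notMem (by simp [(fa (b x)).symm]), Finset.card_singleton]

theorem df_four (hcard : Fintype.card α = 2 * m) (ha : IsInv m a) (hb : IsInv m b)
    (h4 : (df a b).card = 4) (hx : x ∈ df a b) : df a b = {x, a x, b x, a (b x)} := by
  obtain ⟨h1, h2⟩ := four_of hcard ha hb (S := df a b) (fun t ht => (df_left ha hb).2 ht)
    (fun t ht => (df_right ha hb).2 ht) hx (mem_df.1 hx)
  exact (Finset.eq_of_subset_of_card_le h1 (by omega)).symm

/-- Neighbours belong to Klein triples. -/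
theorem klein_of_df (hcard : Fintype.card α = 2 * m) (ha : IsInv m a) (hb : IsInv m b)
    (h4 : (df a b).card = 4) : ∃ d, IsInv m d ∧ Klein a b d := by
  have fa := fpf hcard ha
  have fb := fpf hcard hb
  obtain ⟨x, hx⟩ : (df a b).Nonempty := Finset.card_pos.1 (by omega)
  have hd : a x ≠ b x := mem_df.1 hx
  have hD := df_four hcard ha hb h4 hx
  have hK := klein_of ha (fa x) (fa (b x)) (fb x).symm hd
  have hbax : b (a x) = a (b x) := by
    have h1 : b (a x) ∈ df a b := (df_right ha hb).2 ((df_left ha hb).2 hx)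
    rw [hD] at h1
    simp only [Finset.mem_insert, Finset.mem_singleton] at h1
    rcases h1 with h | h | h | h
    · exfalso
      apply hd
      rw [← hb.sq (a x), h]
    · exact absurd h (fb _)
    · exact absurd (b.injective h) (fa x)
    · exact h
  have e : b = swap (a x) (b x) * a * swap (a x) (b x) := by
    ext1 t
    rw [Perm.mul_apply, Perm.mul_apply]
    by_cases t0 : t = x
    · rw [t0, swap_apply_of_ne_of_ne (fa x).symm (fb x).symm, swap_apply_left]
    by_cases t1 : t = a x
    · have h1 : a (b x) ≠ a x := fun h => fb x (a.injective h)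
      rw [t1, swap_apply_left, swap_apply_of_ne_of_ne h1 (fa (b x)), hbax]
    by_cases t2 : t = b x
    · rw [t2, swap_apply_right, ha.sq, hb.sq, swap_apply_of_ne_of_ne (fa x).symm (fb x).symm]
    by_cases t3 : t = a (b x)
    · have h1 : a (b x) ≠ a x := fun h => fb x (a.injective h)
      rw [t3, swap_apply_of_ne_of_ne h1 (fa (b x)), ha.sq, swap_apply_right, ← hbax, hb.sq]
    · have h1 : t ∉ df a b := by
        rw [hD]
        simp [t0, t1, t2, t3]
      rw [notMem_df] at h1
      have h2 : a t ≠ a x := fun h => t0 (a.injective h)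
      have h3 : a t ≠ b x := fun h => t3 (by rw [← h, ha.sq])
      rw [swap_apply_of_ne_of_ne t1 t2, swap_apply_of_ne_of_ne h2 h3, h1]
  refine ⟨swap (a x) (a (b x)) * a * swap (a x) (a (b x)), ha.swapc _ _, ?_⟩
  rw [← e] at hK
  exact hK

/-- A third involution with the same block. -/
theorem Klein.third (hcard : Fintype.card α = 2 * m) (ha : IsInv m a) (hc : IsInv m c)
    (h : Klein a b d) (hdf : df a c = df a b) : c = b ∨ c = d := by
  have fc := fpf hcard hc
  have h0 := h
  have hdfb := h.df_eq
  obtain ⟨x, y, z, w, h1, h2, h3, h4, h5, h6, ⟨a1, a2, a3, a4⟩, ⟨b1, b2, b3, b4⟩,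
    ⟨d1, d2, d3, d4⟩, h⟩ := h
  have hQ : ∀ t, t ∈ df a c ↔ t = x ∨ t = y ∨ t = z ∨ t = w := by
    intro t
    rw [hdf, mem_df]
    constructor
    · intro ht
      by_contra hcon
      push Not at hcon
      exact ht (h t hcon.1 hcon.2.1 hcon.2.2.1 hcon.2.2.2).1
    · rintro (rfl | rfl | rfl | rfl)
      · rw [a1, b1]; exact h4
      · rw [a2, b3]; exact h3
      · rw [a3, b2]; exact h3.symm
      · rw [a4, b4]; exact h4.symm
  have hcl : ∀ t, (t = x ∨ t = y ∨ t = z ∨ t = w) → (c t = x ∨ c t = y ∨ c t = z ∨ c t = w) ∧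
      c t ≠ a t := by
    intro t ht
    rw [← hQ] at ht ⊢
    exact ⟨(df_right ha hc).2 ht, (mem_df.1 ht).symm⟩
  obtain ⟨x1, x2⟩ := hcl x (Or.inl rfl)
  obtain ⟨y1, y2⟩ := hcl y (Or.inr (Or.inl rfl))
  rw [a1] at x2
  rw [a2] at y2
  have hoff : ∀ t, t ≠ x → t ≠ y → t ≠ z → t ≠ w → c t = a t := by
    intro t t0 t1 t2 t3
    have : t ∉ df a c := by
      rw [hQ]
      tauto
    exact (notMem_df.1 this).symm
  have hinj : ∀ s t, c s = c t → s = t := fun s t h => c.injective h
  rcases x1 with e | e | e | e
  · exact absurd e (fc x)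
  · exact absurd e x2
  · -- `c x = z`
    left
    have e' : c z = x := by rw [← e, hc.sq]
    have f : c y = w := by
      rcases y1 with f | f | f | f
      · exact absurd f y2
      · exact absurd f (fc y)
      · exact absurd (hinj _ _ (f.trans e.symm)) h1.symm
      · exact f
    have f' : c w = y := by rw [← f, hc.sq]
    ext1 t
    by_cases t0 : t = x
    · rw [t0, e, b1]
    by_cases t1 : t = y
    · rw [t1, f, b3]
    by_cases t2 : t = z
    · rw [t2, e', b2]
    by_cases t3 : t = w
    · rw [t3, f', b4]
    · rw [hoff t t0 t1 t2 t3, (h t t0 t1 t2 t3).1]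
  · -- `c x = w`
    right
    have e' : c w = x := by rw [← e, hc.sq]
    have f : c y = z := by
      rcases y1 with f | f | f | f
      · exact absurd f y2
      · exact absurd f (fc y)
      · exact f
      · exact absurd (hinj _ _ (f.trans e.symm)) h1.symm
    have f' : c z = y := by rw [← f, hc.sq]
    ext1 t
    by_cases t0 : t = x
    · rw [t0, e, d1]
    by_cases t1 : t = y
    · rw [t1, f, d3]
    by_cases t2 : t = z
    · rw [t2, f', d4]
    by_cases t3 : t = w
    · rw [t3, e', d2]
    · rw [hoff t t0 t1 t2 t3, (h t t0 t1 t2 t3).2]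

/-- Commuting neighbours have equal or disjoint blocks. -/
theorem disj_of_comm (hcard : Fintype.card α = 2 * m) (ha : IsInv m a) (hb : IsInv m b)
    (hc : IsInv m c) (h4 : (df a b).card = 4) (h4' : (df a c).card = 4)
    (hbc : orderOf (b * c) = 2) (hne : df a b ≠ df a c) : Disjoint (df a b) (df a c) := by
  have hcm := comm_apply hb hc hbc
  rw [Finset.disjoint_left]
  intro x hxb hxc
  apply hne
  have hcl : ∀ t ∈ df a b ∩ df a c, a t ∈ df a b ∩ df a c := by
    intro t ht
    rw [Finset.mem_inter] at ht ⊢
    exact ⟨(df_left ha hb).2 ht.1, (df_left ha hc).2 ht.2⟩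
  have hxx : x ∈ df a b ∩ df a c := Finset.mem_inter.2 ⟨hxb, hxc⟩
  have hfin : ∀ e : Perm α, e x ∈ df a b ∩ df a c → IsInv m e → a x ≠ e x → df a b = df a c := by
    intro e he hie hae
    have fa := fpf hcard ha
    have fe := fpf hcard hie
    have e1 : x ≠ a (e x) := fun h => hae (by conv_lhs => rw [h, ha.sq])
    have e2 : a x ≠ a (e x) := fun h => fe x (a.injective h).symm
    have hsub : ({x, a x, e x, a (e x)} : Finset α) ⊆ df a b ∩ df a c := by
      intro t ht
      simp only [Finset.mem_insert, Finset.mem_singleton] at ht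
      rcases ht with rfl | rfl | rfl | rfl
      · exact hxx
      · exact hcl _ hxx
      · exact he
      · exact hcl _ he
    have hc4 : ({x, a x, e x, a (e x)} : Finset α).card = 4 := by
      rw [Finset.card_insert_of_notMem (by simp [(fa x).symm, (fe x).symm, e1]),
        Finset.card_insert_of_notMem (by simp [hae, e2]),
        Finset.card_insert_of_notMem (by simp [(fa (e x)).symm]), Finset.card_singleton]
    have f1 := Finset.eq_of_subset_of_card_le (hsub.trans Finset.inter_subset_left) (by omega)
    have f2 := Finset.eq_of_subset_of_card_le (hsub.trans Finset.inter_subset_right) (by omega)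
    rw [← f1, ← f2]
  by_cases h1 : c x ∈ df a b
  · exact hfin c (Finset.mem_inter.2 ⟨h1, (df_right ha hc).2 hxc⟩) hc (mem_df.1 hxc)
  by_cases h2 : b x ∈ df a c
  · exact hfin b (Finset.mem_inter.2 ⟨(df_right ha hb).2 hxb, h2⟩) hb (mem_df.1 hxb)
  exfalso
  rw [notMem_df] at h1 h2
  have h3 := hcm x
  rw [← h1, ← h2] at h3
  have h5 : c x = b x := a.injective h3
  apply (mem_df.1 ((df_right ha hb).2 hxb))
  rw [h2, ← h5, hc.sq, h5, hb.sq]

/-- disjoint blocks: the neighbours commute -/
theorem comm_of_disj (ha : IsInv m a) (hb : IsInv m b) (hc : IsInv m c)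
    (hab : ∀ t, a (b t) = b (a t)) (hac : ∀ t, a (c t) = c (a t))
    (h : Disjoint (df a b) (df a c)) (hne : (df a b).Nonempty) : orderOf (b * c) = 2 := by
  rw [Finset.disjoint_left] at h
  rw [orderOf_two_iff hb hc]
  obtain ⟨x, hx⟩ := hne
  constructor
  · rintro rfl
    exact h hx hx
  · ext1 t
    rw [Perm.mul_apply, Perm.mul_apply]
    by_cases h1 : t ∈ df a b
    · have h2 : a t = c t := notMem_df.1 (h h1)
      have h3 : a (b t) = c (b t) := notMem_df.1 (h ((df_right ha hb).2 h1))
      rw [← h2, ← h3, hab]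
    · have h2 : a t = b t := notMem_df.1 h1
      have h3 : c t ∉ df a b := by
        intro h3
        have h4 : t ∉ df a c := fun h5 => h h3 ((df_right ha hc).2 h5)
        rw [notMem_df] at h4
        rw [← h4] at h3
        exact h1 ((df_left ha hb).1 h3)
      rw [← notMem_df.1 h3, ← h2, hac]

theorem Klein.comm (h : Klein a b d) (t : α) : a (b t) = b (a t) := by
  obtain ⟨x, y, z, w, h1, h2, h3, h4, h5, h6, ⟨a1, a2, a3, a4⟩, ⟨b1, b2, b3, b4⟩, -, h⟩ := h
  by_cases t0 : t = x
  · rw [t0, a1, b1, a3, b3]
  by_cases t1 : t = y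
  · rw [t1, a2, b3, a4, b1]
  by_cases t2 : t = z
  · rw [t2, a3, b2, a1, b4]
  by_cases t3 : t = w
  · rw [t3, a4, b4, a2, b2]
  have e := (h t t0 t1 t2 t3).1
  have hb : ∀ s, a s = b s → a (a s) = s → True := fun _ _ _ => trivial
  rw [← e]
  have f0 : a t ≠ x := fun h => t1 (a.injective (h.trans a2.symm))
  have f1 : a t ≠ y := fun h => t0 (a.injective (h.trans a1.symm))
  have f2 : a t ≠ z := fun h => t3 (a.injective (h.trans a4.symm))
  have f3 : a t ≠ w := fun h => t2 (a.injective (h.trans a3.symm))
  exact (h _ f0 f1 f2 f3).1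

/-- The common neighbours of the two corners of a parallelogram. -/
theorem common (hcard : Fintype.card α = 2 * m) (ha : IsInv m a) (hb : IsInv m b)
    (hc : IsInv m c) (hd : IsInv m d) (h4 : (df a b).card = 4) (h4' : (df a c).card = 4)
    (hdis : Disjoint (df a b) (df a c)) (h5 : (df b d).card = 4) (h6 : (df c d).card = 4) :
    d = a ∨ df c d = df a b := by
  have hdis' := Finset.disjoint_left.1 hdis
  -- `df b c` is the union
  have hbc : df b c = df a b ∪ df a c := by
    ext t
    rw [Finset.mem_union, mem_df]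
    by_cases h1 : t ∈ df a b
    · have h2 := notMem_df.1 (hdis' h1)
      rw [← h2]
      exact ⟨fun _ => Or.inl h1, fun _ => (mem_df.1 h1).symm⟩
    · rw [← notMem_df.1 h1]
      constructor
      · intro h
        exact Or.inr (mem_df.2 h)
      · rintro (h | h)
        · exact absurd h h1
        · exact mem_df.1 h
  have hsub : df b c ⊆ df b d ∪ df c d := by
    intro t ht
    rw [Finset.mem_union, mem_df, mem_df]
    by_contra hcon
    push Not at hcon
    exact (mem_df.1 ht) (hcon.1.trans hcon.2.symm)
  have hcb : (df b c).card = 8 := by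
    rw [hbc, Finset.card_union_of_disjoint hdis, h4, h4']
  have hle := Finset.card_le_card hsub
  have hui := Finset.card_union_add_card_inter (df b d) (df c d)
  have heq : df b c = df b d ∪ df c d := Finset.eq_of_subset_of_card_le hsub (by omega)
  have hint : df b d ∩ df c d = ∅ := by
    rw [← Finset.card_eq_zero]
    omega
  have hX : ∀ t ∈ df b d, c t = d t := by
    intro t ht
    by_contra hcon
    have : t ∈ df b d ∩ df c d := Finset.mem_inter.2 ⟨ht, mem_df.2 hcon⟩
    rw [hint] at this
    exact absurd this (Finset.notMem_empty t)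
  have hXb : ∀ t ∈ df b d, b t ∈ df b d := fun t ht => (df_left hb hd).2 ht
  have hXc : ∀ t ∈ df b d, c t ∈ df b d := by
    intro t ht
    rw [hX t ht]
    exact (df_right hb hd).2 ht
  have hXs : df b d ⊆ df a b ∪ df a c := by
    rw [← hbc, heq]
    exact Finset.subset_union_left
  obtain ⟨x, hx⟩ : (df b d).Nonempty := Finset.card_pos.1 (by omega)
  rcases Finset.mem_union.1 (hXs hx) with hxQ | hxR
  · -- `df b d = df a b`
    left
    obtain ⟨g1, g2⟩ := four_of hcard hb hc hXb hXc hx (by
      have h2 := notMem_df.1 (hdis' hxQ)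
      rw [← h2]
      exact (mem_df.1 hxQ).symm)
    obtain ⟨g3, g4⟩ := four_of hcard hb hc (S := df a b) (fun t ht => (df_right ha hb).2 ht)
      (fun t ht => by
        rw [← notMem_df.1 (hdis' ht)]
        exact (df_left ha hb).2 ht) hxQ (by
      have h2 := notMem_df.1 (hdis' hxQ)
      rw [← h2]
      exact (mem_df.1 hxQ).symm)
    have k1 := Finset.eq_of_subset_of_card_le g1 (by omega)
    have k2 := Finset.eq_of_subset_of_card_le g3 (by omega)
    have k3 : df b d = df a b := by rw [← k1, k2]
    ext1 t
    by_cases ht : t ∈ df b d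
    · rw [← hX t ht]
      rw [k3] at ht
      exact (notMem_df.1 (hdis' ht)).symm
    · rw [← notMem_df.1 ht]
      rw [k3] at ht
      exact (notMem_df.1 ht).symm
  · right
    have hxQ : x ∉ df a b := fun h => hdis' h hxR
    have hab : a x = b x := notMem_df.1 hxQ
    have hbc' : b x ≠ c x := by
      rw [← hab]
      exact mem_df.1 hxR
    have hbR : ∀ t ∈ df a c, b t ∈ df a c := by
      intro t ht
      have h1 : t ∉ df a b := fun h => hdis' h ht
      rw [← notMem_df.1 h1]
      exact (df_left ha hc).2 ht
    obtain ⟨g1, g2⟩ := four_of hcard hb hc hXb hXc hx hbc'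
    obtain ⟨g3, g4⟩ := four_of hcard hb hc (S := df a c) hbR
      (fun t ht => (df_right ha hc).2 ht) hxR hbc'
    have k1 := Finset.eq_of_subset_of_card_le g1 (by omega)
    have k2 := Finset.eq_of_subset_of_card_le g3 (by omega)
    have k3 : df b d = df a c := by rw [← k1, k2]
    ext t
    constructor
    · intro ht
      have h7 : t ∈ df a b ∪ df a c := by
        rw [← hbc, heq]
        exact Finset.mem_union_right _ ht
      rcases Finset.mem_union.1 h7 with h | h
      · exact h
      · exfalso
        rw [← k3] at h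
        have : t ∈ df b d ∩ df c d := Finset.mem_inter.2 ⟨h, ht⟩
        rw [hint] at this
        exact absurd this (Finset.notMem_empty t)
    · intro ht
      have h7 : t ∈ df b d ∪ df c d := by
        rw [← heq, hbc]
        exact Finset.mem_union_left _ ht
      rcases Finset.mem_union.1 h7 with h | h
      · exfalso
        rw [k3] at h
        exact hdis' ht h
      · exact h

end

end Pool.Agent.Helper2.AN
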