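import Pool.Agent.Helper2.AN.Z3

/-!
# Block AN-Z4: the induced map on subsets with four elements
-/

namespace Pool.Agent.Helper2.AN

open Equiv

variable {α : Type*} [Fintype α] [DecidableEq α]

section

variable {m : ℕ} {a b c d : Perm α} {u : α}

/-- one step from `a` towards `b` -/
theorem step_toward (hcard : Fintype.card α = 2 * m) (ha : IsInv m a) (hb : IsInv m b)
    (hu : u ∈ df a b) : ∃ c, IsInv m c ∧ df a c = {u, a u, b u, a (b u)} ∧ (df a c).card = 4 ∧
      (df c b).card < (df a b).card := by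
  have fa := fpf hcard ha
  have fb := fpf hcard hb
  have hd : a u ≠ b u := mem_df.1 hu
  have hK := klein_of ha (fa u) (fa (b u)) (fb u).symm hd
  obtain ⟨c, hc⟩ : ∃ c, c = swap (a u) (b u) * a * swap (a u) (b u) := ⟨_, rfl⟩
  rw [← hc] at hK
  have hcI : IsInv m c := by rw [hc]; exact ha.swapc _ _
  have h4 := hK.df_eq.1
  have hcu : c u = b u := by
    rw [hc]
    simp [swap_apply_of_ne_of_ne (fa u).symm (fb u).symm]
  have huc : u ∈ df a c := by
    rw [mem_df, hcu]
    exact hd
  have hD := df_four hcard ha hcI h4 huc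
  rw [hcu] at hD
  refine ⟨c, hcI, hD, h4, ?_⟩
  apply Finset.card_lt_card
  refine ⟨fun t ht => ?_, fun hsub => ?_⟩
  · by_cases h1 : t ∈ df a c
    · rw [hD] at h1
      simp only [Finset.mem_insert, Finset.mem_singleton] at h1
      rcases h1 with rfl | rfl | rfl | rfl
      · exact hu
      · exact (df_left ha hb).2 hu
      · exact (df_right ha hb).2 hu
      · exact (df_left ha hb).2 ((df_right ha hb).2 hu)
    · rw [mem_df] at ht ⊢
      rw [notMem_df.1 h1]
      exact ht
  · have := mem_df.1 (hsub hu)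
    exact this hcu

/-- neighbours with a given block -/
theorem exists_nbr (hcard : Fintype.card α = 2 * m) (ha : IsInv m a) {Q : Finset α}
    (hQ : Q.card = 4) (hcl : ∀ t ∈ Q, a t ∈ Q) : ∃ b, IsInv m b ∧ df a b = Q := by
  have fa := fpf hcard ha
  obtain ⟨x, hx⟩ : Q.Nonempty := Finset.card_pos.1 (by omega)
  obtain ⟨v, hv⟩ : ((Q.erase x).erase (a x)).Nonempty := by
    rw [← Finset.card_pos, Finset.card_erase_of_mem (Finset.mem_erase.2 ⟨fa x, hcl x hx⟩),
      Finset.card_erase_of_mem hx]
    omega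
  rw [Finset.mem_erase, Finset.mem_erase] at hv
  obtain ⟨hv1, hv2, hv3⟩ := hv
  have hK := klein_of ha (fa x) (fa v) (Ne.symm hv2) (Ne.symm hv1)
  obtain ⟨c, hc⟩ : ∃ c, c = swap (a x) v * a * swap (a x) v := ⟨_, rfl⟩
  rw [← hc] at hK
  have hcI : IsInv m c := by rw [hc]; exact ha.swapc _ _
  have h4 := hK.df_eq.1
  have hcx : c x = v := by
    rw [hc]
    simp [swap_apply_of_ne_of_ne (fa x).symm (Ne.symm hv2)]
  have hxc : x ∈ df a c := by
    rw [mem_df, hcx]
    exact Ne.symm hv1
  refine ⟨c, hcI, ?_⟩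
  refine Finset.eq_of_subset_of_card_le ?_ (by omega)
  rw [df_four hcard ha hcI h4 hxc, hcx]
  intro t ht
  simp only [Finset.mem_insert, Finset.mem_singleton] at ht
  rcases ht with rfl | rfl | rfl | rfl
  · exact hx
  · exact hcl _ hx
  · exact hv3
  · exact hcl _ hv3

/-- the fourth corner -/
theorem exists_corner (hcard : Fintype.card α = 2 * m) (ha : IsInv m a) (hb : IsInv m b)
    (hc : IsInv m c) (hdis : Disjoint (df a b) (df b c)) :
    ∃ d, IsInv m d ∧ df a d = df b c ∧ df c d = df a b := by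
  -- `a → b → c`; `d = c` off the block of `a`, `b`, and `d = a` there
  have hdis' := Finset.disjoint_left.1 hdis
  obtain ⟨d, hd⟩ : ∃ d, d = a * b * c := ⟨_, rfl⟩
  have hcQ : ∀ t, c t ∈ df a b ↔ t ∈ df a b := by
    intro t
    constructor
    · intro h
      have h1 := notMem_df.1 (hdis' h)
      rw [hc.sq] at h1
      have h2 := (df_right ha hb).2 h
      rw [h1] at h2
      exact h2
    · intro h
      rw [← notMem_df.1 (hdis' h)]
      exact (df_right ha hb).2 h
  have h1 : ∀ t ∈ df a b, d t = a t := by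
    intro t ht
    rw [hd, Perm.mul_apply, Perm.mul_apply, ← notMem_df.1 (hdis' ht), hb.sq]
  have h2 : ∀ t, t ∉ df a b → d t = c t := by
    intro t ht
    rw [hd, Perm.mul_apply, Perm.mul_apply]
    have h3 : c t ∉ df a b := fun h => ht ((hcQ t).1 h)
    have h4 : b (c t) ∉ df a b := fun h => h3 ((df_right ha hb).1 h)
    rw [notMem_df.1 h4, hb.sq]
  have hsq : ∀ t, d (d t) = t := by
    intro t
    by_cases ht : t ∈ df a b
    · rw [h1 t ht, h1 _ ((df_left ha hb).2 ht), ha.sq]
    · rw [h2 t ht, h2 _ (fun h => ht ((hcQ t).1 h)), hc.sq]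
  have hfix : ∀ t, d t ≠ t := by
    intro t
    by_cases ht : t ∈ df a b
    · rw [h1 t ht]
      exact fpf hcard ha t
    · rw [h2 t ht]
      exact fpf hcard hc t
  refine ⟨d, ⟨Equiv.ext hsq, ?_⟩, ?_, ?_⟩
  · have : d.support = Finset.univ := by
      ext t
      simp [hfix t]
    rw [this, Finset.card_univ, hcard]
  · ext t
    rw [mem_df]
    by_cases ht : t ∈ df a b
    · rw [h1 t ht]
      exact ⟨fun h => absurd rfl h, fun h => absurd h (hdis' ht)⟩
    · rw [h2 t ht, notMem_df.1 ht, ← mem_df]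
  · ext t
    rw [mem_df]
    by_cases ht : t ∈ df a b
    · rw [h1 t ht, ← notMem_df.1 (hdis' ht)]
      exact ⟨fun _ => ht, fun _ => (mem_df.1 ht).symm⟩
    · rw [h2 t ht]
      exact ⟨fun h => absurd rfl h, fun h => absurd h ht⟩

end

section

variable {m : ℕ} {τ : Perm (Vt α m)}

theorem Col.klein (h : Col τ) (hcard : Fintype.card α = 2 * m) (hm : 5 ≤ m) {a b d : Vt α m}
    (hk : Klein (a : Perm α) b d) : Klein (τ a : Perm α) (τ b) (τ d) :=
  (h.good (hk.good a.2 b.2 d.2)).klein hcard hm

theorem Col.df4 (h : Col τ) (hcard : Fintype.card α = 2 * m) (hm : 5 ≤ m) {a b : Vt α m}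
    (h4 : (df (a : Perm α) b).card = 4) : (df (τ a : Perm α) (τ b)).card = 4 := by
  obtain ⟨d, hd, hk⟩ := klein_of_df hcard a.2 b.2 h4
  have hk' : Klein (a : Perm α) b ((⟨d, hd⟩ : Vt α m) : Perm α) := hk
  exact (h.klein hcard hm hk').df_eq.1

/-- the block `Q` at `a` goes to the block `T` at `τ a` -/
def Blk (τ : Perm (Vt α m)) (Q T : Finset α) (a : Vt α m) : Prop :=
  ∀ b : Vt α m, df (a : Perm α) b = Q → df (τ a : Perm α) (τ b) = T

theorem Col.blk_start (h : Col τ) (hcard : Fintype.card α = 2 * m) (hm : 5 ≤ m) {a b : Vt α m}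
    (h4 : (df (a : Perm α) b).card = 4) :
    Blk τ (df (a : Perm α) b) (df (τ a : Perm α) (τ b)) a := by
  intro c hc
  obtain ⟨d, hd, hk⟩ := klein_of_df hcard a.2 b.2 h4
  rcases hk.third hcard a.2 c.2 hc with e | e
  · have : c = b := Subtype.ext e
    rw [this]
  · have : c = ⟨d, hd⟩ := Subtype.ext e
    rw [this]
    have hk' : Klein (a : Perm α) b ((⟨d, hd⟩ : Vt α m) : Perm α) := hk
    exact (h.klein hcard hm hk').df_eq.2.symm

theorem Col.blk_same (h : Col τ) (hcard : Fintype.card α = 2 * m) (hm : 5 ≤ m) {a b : Vt α m}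
    {Q T : Finset α} (hQ : Q.card = 4) (hab : df (a : Perm α) b = Q) (hB : Blk τ Q T a) :
    Blk τ Q T b := by
  have h1 := hB b hab
  have h2 := h.blk_start hcard hm (a := b) (b := a) (by rw [df_comm, hab, hQ])
  rw [df_comm (b : Perm α), hab, df_comm (τ b : Perm α), h1] at h2
  exact h2

theorem Col.blk_disj (h : Col τ) (hcard : Fintype.card α = 2 * m) (hm : 5 ≤ m) {a a' : Vt α m}
    {Q T : Finset α} (hQ : Q.card = 4) (h4 : (df (a : Perm α) a').card = 4)
    (hdis : Disjoint (df (a : Perm α) a') Q) (hB : Blk τ Q T a) : Blk τ Q T a' := by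
  intro b' hb'
  -- the corner `b` with `df a b = Q`, `df b' b = df a a'`
  obtain ⟨b, hb, hab, hbb⟩ := exists_corner hcard a.2 a'.2 b'.2 (by rw [hb']; exact hdis)
  rw [hb'] at hab
  have h1 := hB ⟨b, hb⟩ hab
  have k1 : (df (τ a : Perm α) (τ ⟨b, hb⟩)).card = 4 := h.df4 hcard hm (b := ⟨b, hb⟩) (by
    show (df (a : Perm α) b).card = 4
    rw [hab, hQ])
  have k2 : (df (τ a : Perm α) (τ a')).card = 4 := h.df4 hcard hm h4
  have k3 : (df (τ ⟨b, hb⟩ : Perm α) (τ b')).card = 4 := h.df4 hcard hm (a := ⟨b, hb⟩) (by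
    show (df b (b' : Perm α)).card = 4
    rw [df_comm, hbb, h4])
  have k4 : (df (τ a' : Perm α) (τ b')).card = 4 := h.df4 hcard hm (by rw [hb', hQ])
  -- `b` and `a'` commute
  have hcomm : orderOf (b * (a' : Perm α)) = 2 := by
    obtain ⟨d1, _, hk1⟩ := klein_of_df hcard a.2 hb (by rw [hab, hQ])
    obtain ⟨d2, _, hk2⟩ := klein_of_df hcard a.2 a'.2 h4
    refine comm_of_disj a.2 hb a'.2 hk1.comm hk2.comm ?_ ?_
    · rw [hab]
      exact hdis.symm
    · rw [hab]
      exact Finset.card_pos.1 (by omega)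
  have hcomm' : orderOf ((τ ⟨b, hb⟩ : Perm α) * (τ a' : Perm α)) = 2 := by
    rw [h]
    exact hcomm
  -- the blocks are different
  have hne : df (τ a : Perm α) (τ ⟨b, hb⟩) ≠ df (τ a : Perm α) (τ a') := by
    intro he
    obtain ⟨d, hd, hk⟩ := klein_of_df hcard a.2 hb (by rw [hab, hQ])
    have hk' : Klein (a : Perm α) ((⟨b, hb⟩ : Vt α m) : Perm α) ((⟨d, hd⟩ : Vt α m) : Perm α) := hk
    have hne0 : (a' : Perm α) ≠ b ∧ (a' : Perm α) ≠ d := by
      have hQne : Q.Nonempty := Finset.card_pos.1 (by omega)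
      constructor
      · intro e
        rw [e, hab] at hdis
        exact hQne.ne_empty (Finset.disjoint_self_iff_empty Q |>.1 hdis)
      · intro e
        rw [e, ← hk.df_eq.2, hab] at hdis
        exact hQne.ne_empty (Finset.disjoint_self_iff_empty Q |>.1 hdis)
    rcases (h.klein hcard hm hk').third hcard (τ a).2 (τ a').2 he.symm with e | e
    · have := τ.injective (Subtype.ext e : τ a' = τ ⟨b, hb⟩)
      exact hne0.1 (congrArg Subtype.val this)
    · have := τ.injective (Subtype.ext e : τ a' = τ ⟨d, hd⟩)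
      exact hne0.2 (congrArg Subtype.val this)
  have hdis2 := disj_of_comm hcard (τ a).2 (τ ⟨b, hb⟩).2 (τ a').2 k1 k2 hcomm' hne
  rcases common hcard (τ a).2 (τ ⟨b, hb⟩).2 (τ a').2 (τ b').2 k1 k2 hdis2 k3 k4 with e | e
  · exfalso
    have h5 := τ.injective (Subtype.ext e : τ b' = τ a)
    rw [h5, df_comm] at hb'
    have h6 : df (a : Perm α) a' = Q := hb'
    rw [h6] at hdis
    have hQne : Q.Nonempty := Finset.card_pos.1 (by omega)
    exact hQne.ne_empty (Finset.disjoint_self_iff_empty Q |>.1 hdis)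
  · rw [e, h1]

theorem Col.blk_conn (h : Col τ) (hcard : Fintype.card α = 2 * m) (hm : 5 ≤ m)
    {Q T : Finset α} (hQ : Q.card = 4) {b : Vt α m} (hclb : ∀ t ∈ Q, (b : Perm α) t ∈ Q) :
    ∀ a : Vt α m, (∀ t ∈ Q, (a : Perm α) t ∈ Q) → Blk τ Q T a → Blk τ Q T b := by
  intro a
  induction hn : (df (a : Perm α) b).card using Nat.strong_induction_on generalizing a with
  | _ n ih =>
    intro hcla hB
    by_cases h0 : df (a : Perm α) b = ∅
    · have : a = b := by
        apply Subtype.ext
        ext1 t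
        have : t ∉ df (a : Perm α) b := by rw [h0]; exact Finset.notMem_empty t
        exact notMem_df.1 this
      rw [← this]
      exact hB
    obtain ⟨u, hu⟩ := Finset.nonempty_iff_ne_empty.2 h0
    obtain ⟨c, hc, hac, h4, hlt⟩ := step_toward hcard a.2 b.2 hu
    have main : (∀ t ∈ Q, c t ∈ Q) ∧ Blk τ Q T ⟨c, hc⟩ := by
      by_cases huQ : u ∈ Q
      · -- inside the block
        have hsub : df (a : Perm α) c ⊆ Q := by
          rw [hac]
          intro t ht
          simp only [Finset.mem_insert, Finset.mem_singleton] at ht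
          rcases ht with rfl | rfl | rfl | rfl
          · exact huQ
          · exact hcla _ huQ
          · exact hclb _ huQ
          · exact hcla _ (hclb _ huQ)
        have heq : df (a : Perm α) c = Q := Finset.eq_of_subset_of_card_le hsub (by omega)
        refine ⟨fun t ht => ?_, ?_⟩
        · rw [← heq] at ht ⊢
          exact (df_right a.2 hc).2 ht
        · exact h.blk_same hcard hm (b := ⟨c, hc⟩) hQ heq hB
      · have hout : ∀ t ∈ df (a : Perm α) c, t ∉ Q := by
          intro t ht htQ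
          rw [hac] at ht
          simp only [Finset.mem_insert, Finset.mem_singleton] at ht
          rcases ht with rfl | rfl | rfl | rfl
          · exact huQ htQ
          · have := hcla _ htQ
            rw [a.2.sq] at this
            exact huQ this
          · have := hclb _ htQ
            rw [b.2.sq] at this
            exact huQ this
          · have := hcla _ htQ
            rw [a.2.sq] at this
            have := hclb _ this
            rw [b.2.sq] at this
            exact huQ this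
        have hdis : Disjoint (df (a : Perm α) c) Q := Finset.disjoint_left.2 hout
        refine ⟨fun t ht => ?_, ?_⟩
        · have h5 : t ∉ df (a : Perm α) c := fun h => hout t h ht
          rw [← notMem_df.1 h5]
          exact hcla t ht
        · exact h.blk_disj hcard hm (a' := ⟨c, hc⟩) hQ h4 hdis hB
    exact ih _ (by rw [← hn]; exact hlt) ⟨c, hc⟩ rfl main.1 main.2

open Classical in
/-- the induced map -/
noncomputable def psi (τ : Perm (Vt α m)) (Q : Finset α) : Finset α :=
  if h : ∃ p : Vt α m × Vt α m, df (p.1 : Perm α) p.2 = Q then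
    df (τ h.choose.1 : Perm α) (τ h.choose.2) else ∅

theorem Col.psi_eq (h : Col τ) (hcard : Fintype.card α = 2 * m) (hm : 5 ≤ m) {a b : Vt α m}
    (h4 : (df (a : Perm α) b).card = 4) : psi τ (df (a : Perm α) b) = df (τ a : Perm α) (τ b) := by
  have hx : ∃ p : Vt α m × Vt α m, df (p.1 : Perm α) p.2 = df (a : Perm α) b := ⟨(a, b), rfl⟩
  unfold psi
  rw [dif_pos hx]
  obtain ⟨p, hp⟩ : ∃ p, p = hx.choose := ⟨_, rfl⟩
  have hp' : df (p.1 : Perm α) p.2 = df (a : Perm α) b := by rw [hp]; exact hx.choose_spec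
  rw [← hp]
  have h1 := h.blk_start hcard hm (a := p.1) (b := p.2) (by rw [hp', h4])
  rw [hp'] at h1
  have h2 := h.blk_conn hcard hm (b := a) h4 (fun t ht => (df_left a.2 b.2).2 ht) p.1
    (fun t ht => by
      rw [← hp'] at ht ⊢
      exact (df_left p.1.2 p.2.2).2 ht) h1
  exact (h2 b rfl).symm

end

end Pool.Agent.Helper2.AN
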